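import Mathlib
import Pool.Agent.Lib.MP_11349d_lc.Stmt
import Pool.Agent.Lib.BVM.Fm

/-! Part V: the predicates of the statement as formulas. -/

set_option autoImplicit false

namespace Pool.Agent.BPF

open Pool.Agent.Lib.BVM

def fSub (x y : ℕ) : Fm := .all (.imp (.mem 0 (x + 1)) (.mem 0 (y + 1)))

def fUPair (p a b : ℕ) : Fm := .all (.iff (.mem 0 (p + 1)) (.or (.eq 0 (a + 1)) (.eq 0 (b + 1))))

def fPair (p a b : ℕ) : Fm :=
  .ex (.ex (.and (fUPair 1 (a + 2) (a + 2)) (.and (fUPair 0 (a + 2) (b + 2)) (fUPair (p + 2) 1 0))))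

def fRel (R a b : ℕ) : Fm := .ex (.and (fPair 0 (a + 1) (b + 1)) (.mem 0 (R + 1)))

def fInductive (w : ℕ) : Fm :=
  .and (.ex (.and (.mem 0 (w + 1)) (.all (.neg (.mem 0 1)))))
    (.all (.imp (.mem 0 (w + 1)) (.ex (.and (.mem 0 (w + 2))
      (.all (.iff (.mem 0 1) (.or (.mem 0 2) (.eq 0 2))))))))

def fOmega (w : ℕ) : Fm := .and (fInductive w) (.all (.imp (fInductive 0) (fSub (w + 1) 0)))

/-- `f` shows that `y` can be mapped onto `x` -/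
def fOntoB (f y x : ℕ) : Fm :=
  .and (.all (.imp (.mem 0 (y + 1)) (.all (.all (.imp (fRel (f + 3) 2 1) (.imp (fRel (f + 3) 2 0)
      (.eq 1 0)))))))
    (.all (.imp (.mem 0 (x + 1)) (.ex (.and (.mem 0 (y + 2)) (fRel (f + 2) 0 1)))))

def fOnto (y x : ℕ) : Fm := .ex (fOntoB 0 (y + 1) (x + 1))

def fCnt (x : ℕ) : Fm := .ex (.and (fOmega 0) (fOnto 0 (x + 1)))

def fOrd (x : ℕ) : Fm :=
  .and (.all (.imp (.mem 0 (x + 1)) (fSub 0 (x + 1))))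
    (.all (.imp (.mem 0 (x + 1)) (.all (.imp (.mem 0 1) (fSub 0 1)))))

def fOmega1 (o : ℕ) : Fm :=
  .and (fOrd o) (.and (.neg (fCnt o)) (.all (.imp (.mem 0 (o + 1)) (fCnt 0))))

def fPO (q r : ℕ) : Fm :=
  .and (.all (.imp (.mem 0 (q + 1)) (fRel (r + 1) 0 0)))
  (.and (.all (.all (.imp (.mem 1 (q + 2)) (.imp (.mem 0 (q + 2)) (.imp (fRel (r + 2) 1 0)
    (.imp (fRel (r + 2) 0 1) (.eq 1 0)))))))
  (.all (.all (.all (.imp (.mem 2 (q + 3)) (.imp (.mem 1 (q + 3)) (.imp (.mem 0 (q + 3))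
    (.imp (fRel (r + 3) 2 1) (.imp (fRel (r + 3) 1 0) (fRel (r + 3) 2 0))))))))))

def VfSup (q r s u : ℕ) : Fm :=
  .and (.mem u q) (.and (.all (.imp (.mem 0 (s + 1)) (fRel (r + 1) 0 (u + 1))))
    (.all (.imp (.mem 0 (q + 1)) (.imp (.all (.imp (.mem 0 (s + 2)) (fRel (r + 2) 0 1)))
      (fRel (r + 1) (u + 1) 0)))))

def fInf (q r s u : ℕ) : Fm :=
  .and (.mem u q) (.and (.all (.imp (.mem 0 (s + 1)) (fRel (r + 1) (u + 1) 0)))
    (.all (.imp (.mem 0 (q + 1)) (.imp (.all (.imp (.mem 0 (s + 2)) (fRel (r + 2) 1 0)))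
      (fRel (r + 1) 0 (u + 1))))))

def fJoin (q r x y u : ℕ) : Fm :=
  .ex (.and (fUPair 0 (x + 1) (y + 1)) (VfSup (q + 1) (r + 1) 0 (u + 1)))

def fMeet (q r x y u : ℕ) : Fm :=
  .ex (.and (fUPair 0 (x + 1) (y + 1)) (fInf (q + 1) (r + 1) 0 (u + 1)))

def fCBA (q r : ℕ) : Fm :=
  .and (fPO q r)
  (.and (.all (.imp (fSub 0 (q + 1)) (.and (.ex (VfSup (q + 2) (r + 2) 1 0))
    (.ex (fInf (q + 2) (r + 2) 1 0)))))
  (.and (.all (.all (.all (.all (.all (.all (.all (.all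
    (.imp (.mem 7 (q + 8)) (.imp (.mem 6 (q + 8)) (.imp (.mem 5 (q + 8))
    (.imp (fJoin (q + 8) (r + 8) 6 5 4) (.imp (fMeet (q + 8) (r + 8) 7 4 3)
    (.imp (fMeet (q + 8) (r + 8) 7 6 1) (.imp (fMeet (q + 8) (r + 8) 7 5 0)
    (.imp (fJoin (q + 8) (r + 8) 1 0 2) (.eq 3 2)))))))))))))))))
  (.all (.imp (.mem 0 (q + 1)) (.ex (.ex (.ex (.and (.mem 2 (q + 4))
    (.and (fMeet (q + 4) (r + 4) 3 2 1) (.and (fJoin (q + 4) (r + 4) 3 2 0)
    (.and (.all (.imp (.mem 0 (q + 5)) (fRel (r + 5) 2 0)))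
      (.all (.imp (.mem 0 (q + 5)) (fRel (r + 5) 0 1)))))))))))))) 

def fPos (q r x : ℕ) : Fm :=
  .and (.mem x q) (.ex (.and (.mem 0 (q + 1)) (.neg (fRel (r + 1) (x + 1) 0))))

def fComp (q r x y : ℕ) : Fm :=
  .ex (.and (fPos (q + 1) (r + 1) 0) (.and (fRel (r + 1) 0 (x + 1)) (fRel (r + 1) 0 (y + 1))))

def fDense (q r d : ℕ) : Fm :=
  .and (.all (.imp (.mem 0 (d + 1)) (fPos (q + 1) (r + 1) 0)))
    (.all (.imp (fPos (q + 1) (r + 1) 0) (.ex (.and (.mem 0 (d + 2)) (fRel (r + 2) 0 1)))))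

def fMaxA (q r a : ℕ) : Fm :=
  .and (.all (.imp (.mem 0 (a + 1)) (fPos (q + 1) (r + 1) 0)))
  (.and (.all (.all (.imp (.mem 1 (a + 2)) (.imp (.mem 0 (a + 2)) (.imp (.neg (.eq 1 0))
    (.neg (fComp (q + 2) (r + 2) 1 0)))))))
  (.all (.imp (fPos (q + 1) (r + 1) 0) (.ex (.and (.mem 0 (a + 2))
    (fComp (q + 2) (r + 2) 1 0)))))) 

def fZ (q z : ℕ) : Fm := .all (.iff (.mem 0 (z + 1)) (.or (.mem 0 (q + 1)) (fSub 0 (q + 1))))

def fUnion (d u : ℕ) : Fm := .all (.iff (.mem 0 (u + 1)) (.ex (.and (.mem 0 (d + 2)) (.mem 1 0))))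

def fClubE (z c : ℕ) : Fm :=
  .and (.all (.imp (.mem 0 (c + 1)) (.and (fSub 0 (z + 1)) (fCnt 0))))
  (.and (.all (.imp (fSub 0 (z + 1)) (.imp (fCnt 0) (.ex (.and (.mem 0 (c + 2)) (fSub 1 0))))))
  (.all (.imp (fSub 0 (c + 1)) (.imp (fCnt 0) (.imp (.ex (.mem 0 1))
    (.imp (.all (.all (.imp (.mem 1 2) (.imp (.mem 0 2) (.or (fSub 1 0) (fSub 0 1))))))
      (.ex (.and (fUnion 1 0) (.mem 0 (c + 2)))))))))) 

def fGen (q r n p : ℕ) : Fm :=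
  .all (.imp (.mem 0 (n + 1)) (.imp (fDense (q + 1) (r + 1) 0) (.all (.imp
    (fPos (q + 2) (r + 2) 0) (.imp (fRel (r + 2) 0 (p + 2)) (.ex (.and (.mem 0 2)
      (.and (.mem 0 (n + 3)) (fComp (q + 3) (r + 3) 0 1)))))))))

/-- for all `n ∈ c`, all conditions `p ∈ n` have an extension which is `(n, q)`-generic -/
def fPG (q r c : ℕ) : Fm :=
  .all (.imp (.mem 0 (c + 1)) (.all (.imp (fPos (q + 2) (r + 2) 0) (.imp (.mem 0 1)
    (.ex (.and (fPos (q + 3) (r + 3) 0) (.and (fRel (r + 3) 0 1)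
      (fGen (q + 3) (r + 3) 2 0))))))))

def fProperB (q r z c : ℕ) : Fm := .and (fZ q z) (.and (fClubE z c) (fPG q r c))

def fProper (q r : ℕ) : Fm := .ex (.ex (fProperB (q + 2) (r + 2) 1 0))

def fFilt (q r g : ℕ) : Fm :=
  .and (.all (.imp (.mem 0 (g + 1)) (fPos (q + 1) (r + 1) 0)))
  (.and (.all (.all (.imp (.mem 1 (g + 2)) (.imp (.mem 0 (q + 2)) (.imp (fRel (r + 2) 1 0)
    (.mem 0 (g + 2)))))))
  (.all (.all (.imp (.mem 1 (g + 2)) (.imp (.mem 0 (g + 2)) (.ex (.and (.mem 0 (g + 3))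
    (.and (fRel (r + 3) 0 2) (fRel (r + 3) 0 1))))))))) 

/-- `s` is the antichain `A_i` -/
def fAi (q r o a i s : ℕ) : Fm :=
  .and (.all (.iff (.mem 0 (s + 1)) (fRel (a + 1) (i + 1) 0))) (.and (fMaxA q r s) (fOnto o s))

/-- the hypotheses of BPFA -/
def fHyp (q r o a : ℕ) : Fm :=
  .and (fCBA q r) (.and (.ex (fPos (q + 1) (r + 1) 0)) (.and (fProper q r)
    (.all (.imp (.mem 0 (o + 1)) (.ex (fAi (q + 2) (r + 2) (o + 2) (a + 2) 1 0))))))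

def fSubtree (t r u : ℕ) : Fm :=
  .and (fSub u t) (.and (.neg (fCnt u)) (.all (.all (.imp (.mem 1 (t + 2)) (.imp (.mem 0 (u + 2))
    (.imp (fRel (r + 2) 1 0) (.mem 1 (u + 2))))))))

def fAD (u v : ℕ) : Fm :=
  .all (.imp (.all (.iff (.mem 0 1) (.and (.mem 0 (u + 2)) (.mem 0 (v + 2))))) (fCnt 0))

/-- `c` is a chain of the order `r` -/
def fChain (r c : ℕ) : Fm :=
  .all (.all (.imp (.mem 1 (c + 2)) (.imp (.mem 0 (c + 2)) (.or (.eq 1 0)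
    (.or (fRel (r + 2) 1 0) (fRel (r + 2) 0 1))))))

section
variable {M : Type*} (E : M → M → Prop)

/-- `c` is a chain of the order `r` -/
def IsChn (r c : M) : Prop := ∀ x y, E x c → E y c → x = y ∨ Rel E r x y ∨ Rel E r y x

/-- `f` shows that `y` can be mapped onto `x` -/
def OntoB (f y x : M) : Prop :=
  (∀ b, E b y → ∀ a a', Rel E f b a → Rel E f b a' → a = a') ∧
    ∀ a, E a x → ∃ b, E b y ∧ Rel E f b a

/-- for all `n ∈ c`, all conditions `p ∈ n` have an extension which is `(n, q)`-generic -/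
def PG (q r c : M) : Prop :=
  ∀ n, E n c → ∀ p, Pos E q r p → E p n → ∃ p', Pos E q r p' ∧ Le E r p' p ∧ IsGen E q r n p'

/-- `s` is the antichain `A_i` -/
def IsAi (q r o a i s : M) : Prop :=
  (∀ x, E x s ↔ Rel E a i x) ∧ IsMaxAntichain E q r s ∧ Onto E o s

/-- the hypotheses of BPFA -/
def Hyp (q r o a : M) : Prop :=
  IsCBA E q r ∧ (∃ x, Pos E q r x) ∧ IsProper E q r ∧ ∀ i, E i o → ∃ s, IsAi E q r o a i s

variable (v : ℕ → M)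

theorem sat_fSub (x y : ℕ) : sat E (fSub x y) v ↔ Sub E (v x) (v y) := Iff.rfl
theorem sat_fRel (R a b : ℕ) : sat E (fRel R a b) v ↔ Rel E (v R) (v a) (v b) := Iff.rfl
theorem sat_fOmega (w : ℕ) : sat E (fOmega w) v ↔ IsOmega E (v w) := Iff.rfl
theorem sat_fOntoB (f y x : ℕ) : sat E (fOntoB f y x) v ↔ OntoB E (v f) (v y) (v x) := Iff.rfl
theorem sat_fOnto (y x : ℕ) : sat E (fOnto y x) v ↔ Onto E (v y) (v x) := Iff.rfl
theorem sat_fCnt (x : ℕ) : sat E (fCnt x) v ↔ Cnt E (v x) := Iff.rfl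
theorem sat_fOmega1 (x : ℕ) : sat E (fOmega1 x) v ↔ IsOmega1 E (v x) := Iff.rfl
theorem sat_fPO (q r : ℕ) : sat E (fPO q r) v ↔ IsPO E (v q) (v r) := Iff.rfl
theorem sat_fInf (q r s u : ℕ) : sat E (fInf q r s u) v ↔ IsInf E (v q) (v r) (v s) (v u) := Iff.rfl
theorem sat_fCBA (q r : ℕ) : sat E (fCBA q r) v ↔ IsCBA E (v q) (v r) := Iff.rfl
theorem sat_fPos (q r x : ℕ) : sat E (fPos q r x) v ↔ Pos E (v q) (v r) (v x) := Iff.rfl
theorem sat_fComp (q r x y : ℕ) :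
    sat E (fComp q r x y) v ↔ Comp E (v q) (v r) (v x) (v y) := Iff.rfl
theorem sat_fDense (q r d : ℕ) : sat E (fDense q r d) v ↔ IsDense E (v q) (v r) (v d) := Iff.rfl
theorem sat_fMaxA (q r a : ℕ) : sat E (fMaxA q r a) v ↔ IsMaxAntichain E (v q) (v r) (v a) :=
  Iff.rfl
theorem sat_fUnion (d u : ℕ) : sat E (fUnion d u) v ↔ IsUnion E (v d) (v u) := Iff.rfl
theorem sat_fClubE (z c : ℕ) : sat E (fClubE z c) v ↔ IsClubE E (v z) (v c) := Iff.rfl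
theorem sat_fGen (q r n p : ℕ) : sat E (fGen q r n p) v ↔ IsGen E (v q) (v r) (v n) (v p) := Iff.rfl
theorem sat_fProper (q r : ℕ) : sat E (fProper q r) v ↔ IsProper E (v q) (v r) := Iff.rfl
theorem sat_fFilt (q r g : ℕ) : sat E (fFilt q r g) v ↔ IsFilt E (v q) (v r) (v g) := Iff.rfl
theorem sat_fAi (q r o a i s : ℕ) :
    sat E (fAi q r o a i s) v ↔ IsAi E (v q) (v r) (v o) (v a) (v i) (v s) := Iff.rfl
theorem sat_fSubtree (t r u : ℕ) : sat E (fSubtree t r u) v ↔ IsSubtree E (v t) (v r) (v u) := Iff.rfl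
theorem sat_fAD (x y : ℕ) : sat E (fAD x y) v ↔ AD E (v x) (v y) := Iff.rfl
theorem sat_fChain (r c : ℕ) : sat E (fChain r c) v ↔ IsChn E (v r) (v c) := Iff.rfl
theorem sat_fHyp (q r o a : ℕ) : sat E (fHyp q r o a) v ↔ Hyp E (v q) (v r) (v o) (v a) := Iff.rfl

end

end Pool.Agent.BPF
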