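import Mathlib
import Pool.Agent.Lib.MP_11349d_lc.V.Fml
import Pool.Agent.Lib.BVM.Pairs

/-! Part V: the toolkit. A statement is forced by `b : B` when it holds in all models `U.Mod` with
`U.S b`, for the classes `U.cls x` of names `x`. -/

set_option autoImplicit false

namespace Pool.Agent.BPF

open Pool.Agent.Lib.BVM BSet

variable {B : Type} [CompleteBooleanAlgebra B]

/-- `b` forces `Φ` -/
def Fc (b : B) (Φ : Ult B → Prop) : Prop := ∀ U : Ult B, U.S b → Φ U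

/-- `Φ` has a Boolean value -/
def Df0 (Φ : Ult B → Prop) : Prop := ∃ b : B, ∀ U, U.S b ↔ Φ U

/-- the property `Φ U m` of elements `m` of the models has Boolean values for names -/
def Df1 (Φ : (U : Ult B) → U.Mod → Prop) : Prop :=
  ∃ φ : BSet B → B, Ext1 φ ∧ ∀ U x, U.S (φ x) ↔ Φ U (U.cls x)

theorem Ult.mono (U : Ult B) {a b : B} (h : a ≤ b) (ha : U.S a) : U.S b := by
  have h1 : a ⊓ b = a := inf_eq_left.2 h
  rw [← h1, U.inf_iff] at ha
  exact ha.2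

theorem Fc.mono {p q : B} {Φ : Ult B → Prop} (h : Fc p Φ) (hq : q ≤ p) : Fc q Φ :=
  fun U hU => h U (Ult.mono U hq hU)

theorem fc_iff {p b : B} : Fc p (fun U => U.S b) ↔ p ≤ b :=
  ⟨fun h => le_of_forall_ult h, fun h U hU => Ult.mono U h hU⟩

/-- membership in all models -/
theorem mem_iff (U : Ult B) (x y : BSet B) : U.E (U.cls x) (U.cls y) ↔ U.S (bMem x y) := Iff.rfl

theorem Df1.of_sat (φ : Fm) (v : ℕ → BSet B) :
    Df1 (fun U m => sat U.E φ (scons m (fun i => U.cls (v i)))) := by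
  refine ⟨fun x => bval φ (scons x v), ext1_bval φ v, fun U x => ?_⟩
  rw [← U.los]
  have : (fun i => U.cls (scons x v i)) = scons (U.cls x) (fun i => U.cls (v i)) := by
    funext i
    cases i <;> rfl
  rw [this]

theorem Df0.of_sat (φ : Fm) (v : ℕ → BSet B) : Df0 (fun U => sat U.E φ (fun i => U.cls (v i))) :=
  ⟨bval φ v, fun U => (U.los φ v).symm⟩

theorem Df0.of_S (b : B) : Df0 (fun U => U.S b) := ⟨b, fun _ => Iff.rfl⟩

theorem Df0.and {Φ Ψ : Ult B → Prop} (h : Df0 Φ) (h' : Df0 Ψ) : Df0 (fun U => Φ U ∧ Ψ U) := by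
  obtain ⟨b, hb⟩ := h
  obtain ⟨c, hc⟩ := h'
  exact ⟨b ⊓ c, fun U => by rw [U.inf_iff, hb, hc]⟩

theorem Df0.or {Φ Ψ : Ult B → Prop} (h : Df0 Φ) (h' : Df0 Ψ) : Df0 (fun U => Φ U ∨ Ψ U) := by
  obtain ⟨b, hb⟩ := h
  obtain ⟨c, hc⟩ := h'
  exact ⟨b ⊔ c, fun U => by rw [U.sup_iff, hb, hc]⟩

theorem Df0.imp {Φ Ψ : Ult B → Prop} (h : Df0 Φ) (h' : Df0 Ψ) : Df0 (fun U => Φ U → Ψ U) := by
  obtain ⟨b, hb⟩ := h
  obtain ⟨c, hc⟩ := h'
  exact ⟨b ⇨ c, fun U => by rw [U.himp_iff, hb, hc]⟩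

theorem Df0.not {Φ : Ult B → Prop} (h : Df0 Φ) : Df0 (fun U => ¬ Φ U) := by
  obtain ⟨b, hb⟩ := h
  exact ⟨bᶜ, fun U => by rw [U.compl', hb]⟩

/-- a property of names in a model -/
theorem Df1.df0 {Φ : (U : Ult B) → U.Mod → Prop} (h : Df1 Φ) (x : BSet B) :
    Df0 (fun U => Φ U (U.cls x)) := by
  obtain ⟨φ, _, h2⟩ := h
  exact ⟨φ x, fun U => h2 U x⟩

theorem Df0.df1 {Φ : Ult B → Prop} (h : Df0 Φ) : Df1 (fun U _ => Φ U) := by
  obtain ⟨b, hb⟩ := h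
  exact ⟨fun _ => b, fun _ _ => inf_le_right, fun U _ => hb U⟩

/-- A relation of the elements of the models is extensional as soon as it has Boolean values. -/
theorem Df1.mk' {Φ : (U : Ult B) → U.Mod → Prop} (φ : BSet B → B)
    (h : ∀ U x, U.S (φ x) ↔ Φ U (U.cls x)) : Df1 Φ := by
  refine ⟨φ, fun x y => ?_, h⟩
  apply le_of_forall_ult
  intro U hU
  rw [U.inf_iff, ← U.cls_eq_iff, h] at hU
  rw [h, ← hU.1]
  exact hU.2

theorem Df1.and {Φ Ψ : (U : Ult B) → U.Mod → Prop} (h : Df1 Φ) (h' : Df1 Ψ) :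
    Df1 (fun U m => Φ U m ∧ Ψ U m) := by
  obtain ⟨φ, _, h2⟩ := h
  obtain ⟨ψ, _, h4⟩ := h'
  exact Df1.mk' (fun x => φ x ⊓ ψ x) fun U x => by rw [U.inf_iff, h2, h4]

theorem Df1.or {Φ Ψ : (U : Ult B) → U.Mod → Prop} (h : Df1 Φ) (h' : Df1 Ψ) :
    Df1 (fun U m => Φ U m ∨ Ψ U m) := by
  obtain ⟨φ, _, h2⟩ := h
  obtain ⟨ψ, _, h4⟩ := h'
  exact Df1.mk' (fun x => φ x ⊔ ψ x) fun U x => by rw [U.sup_iff, h2, h4]

theorem Df1.imp {Φ Ψ : (U : Ult B) → U.Mod → Prop} (h : Df1 Φ) (h' : Df1 Ψ) :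
    Df1 (fun U m => Φ U m → Ψ U m) := by
  obtain ⟨φ, _, h2⟩ := h
  obtain ⟨ψ, _, h4⟩ := h'
  exact Df1.mk' (fun x => φ x ⇨ ψ x) fun U x => by rw [U.himp_iff, h2, h4]

theorem Df1.not {Φ : (U : Ult B) → U.Mod → Prop} (h : Df1 Φ) : Df1 (fun U m => ¬ Φ U m) := by
  obtain ⟨φ, _, h2⟩ := h
  exact Df1.mk' (fun x => (φ x)ᶜ) fun U x => by rw [U.compl', h2]

theorem Df1.mem_left (y : BSet B) : Df1 (fun U m => U.E m (U.cls y)) :=
  Df1.mk' (fun x => bMem x y) fun _ _ => Iff.rfl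

theorem Df1.mem_right (y : BSet B) : Df1 (fun U m => U.E (U.cls y) m) :=
  Df1.mk' (fun x => bMem y x) fun _ _ => Iff.rfl

theorem Df1.eq (y : BSet B) : Df1 (fun U m => m = U.cls y) :=
  Df1.mk' (fun x => bEq x y) fun U x => (U.cls_eq_iff x y).symm

/-- Maximum principle. -/
theorem fc_ex {p : B} {Φ : (U : Ult B) → U.Mod → Prop} (hΦ : Df1 Φ)
    (h : Fc p (fun U => ∃ m, Φ U m)) : ∃ x : BSet B, Fc p (fun U => Φ U (U.cls x)) := by
  obtain ⟨φ, h1, h2⟩ := hΦ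
  obtain ⟨x, hx⟩ := exists_max h1
  refine ⟨x, fun U hU => ?_⟩
  have h3 : U.S (φ x) := by
    rw [hx, U.iSup_iff h1]
    obtain ⟨m, hm⟩ := h U hU
    obtain ⟨y, rfl⟩ := U.exists_cls m
    exact ⟨y, (h2 U y).2 hm⟩
  exact (h2 U x).1 h3

/-- Bounded universal quantifier: it is enough to look at the generators of the name. -/
theorem fc_all_mem {p : B} {Φ : (U : Ult B) → U.Mod → Prop} (hΦ : Df1 Φ) (x : BSet B)
    (h : ∀ i : x.Idx, Fc p (fun U => U.S (x.val i) → Φ U (U.cls (x.fn i)))) :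
    Fc p (fun U => ∀ m, U.E m (U.cls x) → Φ U m) := by
  obtain ⟨φ, h1, h2⟩ := hΦ
  have h3 : p ≤ ⨅ z, (bMem z x ⇨ φ z) := by
    rw [iInf_mem_himp h1]
    refine le_iInf fun i => le_of_forall_ult fun U hU => ?_
    rw [U.himp_iff, h2]
    exact h i U hU
  intro U hU m hm
  obtain ⟨y, rfl⟩ := U.exists_cls m
  have h4 := Ult.mono U (h3.trans (iInf_le _ y)) hU
  rw [U.himp_iff, h2] at h4
  exact h4 hm

/-- Bounded existential quantifier: a stronger condition decides a generator. -/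
theorem fc_ex_mem {p : B} (hp : p ≠ ⊥) {Φ : (U : Ult B) → U.Mod → Prop} (hΦ : Df1 Φ) (x : BSet B)
    (h : Fc p (fun U => ∃ m, U.E m (U.cls x) ∧ Φ U m)) :
    ∃ r ≤ p, r ≠ ⊥ ∧ ∃ i : x.Idx, r ≤ x.val i ∧ Fc r (fun U => Φ U (U.cls (x.fn i))) := by
  obtain ⟨φ, h1, h2⟩ := hΦ
  have h3 : p ≤ ⨆ i, x.val i ⊓ φ (x.fn i) := by
    rw [← iSup_mem_inf h1]
    apply le_of_forall_ult
    intro U hU
    have h5 : Ext1 (fun z => bMem z x ⊓ φ z) := by
      intro a b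
      refine le_inf ?_ ?_
      · exact (inf_le_inf_left _ inf_le_left).trans (ext1_mem_left x a b)
      · exact (inf_le_inf_left _ inf_le_right).trans (h1 a b)
    rw [U.iSup_iff h5]
    obtain ⟨m, hm, hm'⟩ := h U hU
    obtain ⟨y, rfl⟩ := U.exists_cls m
    refine ⟨y, ?_⟩
    rw [U.inf_iff, h2]
    exact ⟨hm, hm'⟩
  have h4 : ∃ i, p ⊓ (x.val i ⊓ φ (x.fn i)) ≠ ⊥ := by
    by_contra hc
    push Not at hc
    apply hp
    rw [← inf_eq_left.2 h3, inf_iSup_eq, iSup_eq_bot]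
    exact hc
  obtain ⟨i, hi⟩ := h4
  exact ⟨_, inf_le_left, hi, i, inf_le_right.trans inf_le_left,
    fun U hU => (h2 U _).1 (Ult.mono U (inf_le_right.trans inf_le_right) hU)⟩

/-- the value of a bounded existential statement -/
theorem le_iSup_mem {p : B} {Φ : (U : Ult B) → U.Mod → Prop} {φ : BSet B → B}
    (h2 : ∀ U x, U.S (φ x) ↔ Φ U (U.cls x)) (x : BSet B)
    (h : Fc p (fun U => ∃ m, U.E m (U.cls x) ∧ Φ U m)) :
    p ≤ ⨆ i, x.val i ⊓ φ (x.fn i) := by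
  have h1 : Ext1 φ := by
    intro x y
    apply le_of_forall_ult
    intro U hU
    rw [U.inf_iff, ← U.cls_eq_iff, h2] at hU
    rw [h2, ← hU.1]
    exact hU.2
  rw [← iSup_mem_inf h1]
  apply le_of_forall_ult
  intro U hU
  have h5 : Ext1 (fun z => bMem z x ⊓ φ z) := by
    intro a b
    refine le_inf ?_ ?_
    · exact (inf_le_inf_left _ inf_le_left).trans (ext1_mem_left x a b)
    · exact (inf_le_inf_left _ inf_le_right).trans (h1 a b)
  rw [U.iSup_iff h5]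
  obtain ⟨m, hm, hm'⟩ := h U hU
  obtain ⟨y, rfl⟩ := U.exists_cls m
  refine ⟨y, ?_⟩
  rw [U.inf_iff, h2]
  exact ⟨hm, hm'⟩

/-- Density: a statement with a Boolean value is forced by `p` if it is forced by a stronger condition
below every `q ≤ p`. -/
theorem fc_dense {p : B} {Φ : Ult B → Prop} (hΦ : Df0 Φ)
    (h : ∀ q ≤ p, q ≠ ⊥ → ∃ r ≤ q, r ≠ ⊥ ∧ Fc r Φ) : Fc p Φ := by
  obtain ⟨b, hb⟩ := hΦ
  have h1 : p ≤ b := by
    by_contra hc
    have h2 : p ⊓ bᶜ ≠ ⊥ := by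
      intro h'
      apply hc
      rw [← sdiff_eq_bot_iff, sdiff_eq]
      exact h'
    obtain ⟨r, hr, hr0, hr1⟩ := h _ inf_le_left h2
    obtain ⟨U, hU⟩ := exists_ult hr0
    have h3 := (U.inf_iff.1 (Ult.mono U hr hU)).2
    rw [U.compl', hb] at h3
    exact h3 (hr1 U hU)
  intro U hU
  rw [← hb]
  exact Ult.mono U h1 hU

/-- density for values -/
theorem le_of_dense {p b : B} (h : ∀ q ≤ p, q ≠ ⊥ → ∃ r ≤ q, r ≠ ⊥ ∧ r ≤ b) : p ≤ b :=
  fc_iff.1 (fc_dense (Df0.of_S b) fun q hq hq0 => by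
    obtain ⟨r, h1, h2, h3⟩ := h q hq hq0
    exact ⟨r, h1, h2, fc_iff.2 h3⟩)

/-- a nonzero element below a supremum meets one of the terms -/
theorem exists_inf_ne {ι : Sort*} {p : B} (hp : p ≠ ⊥) {b : ι → B} (h : p ≤ ⨆ i, b i) :
    ∃ i, p ⊓ b i ≠ ⊥ := by
  by_contra hc
  push Not at hc
  apply hp
  rw [← inf_eq_left.2 h, inf_iSup_eq, iSup_eq_bot]
  exact hc

/-- deciding a statement -/
theorem fc_decide {p : B} (hp : p ≠ ⊥) {Φ : Ult B → Prop} (hΦ : Df0 Φ) :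
    ∃ q ≤ p, q ≠ ⊥ ∧ (Fc q Φ ∨ Fc q (fun U => ¬ Φ U)) := by
  obtain ⟨b, hb⟩ := hΦ
  by_cases h : p ⊓ b = ⊥
  · refine ⟨p, le_rfl, hp, Or.inr fun U hU hc => ?_⟩
    rw [← hb] at hc
    have : U.S (p ⊓ b) := U.inf_iff.2 ⟨hU, hc⟩
    rw [h] at this
    exact U.bot' this
  · exact ⟨p ⊓ b, inf_le_left, h, Or.inl fun U hU => (hb U).1 (U.inf_iff.1 hU).2⟩

theorem fc_all_chk {I : Type} [LinearOrder I] [WellFoundedLT I] {p : B}
    {Φ : (U : Ult B) → U.Mod → Prop} (hΦ : Df1 Φ)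
    (h : ∀ i : I, Fc p (fun U => Φ U (U.cls (chk B i)))) :
    Fc p (fun U => ∀ m, U.E m (U.cls (chkAll B I)) → Φ U m) :=
  fc_all_mem hΦ (chkAll B I) fun i U hU _ => h i U hU

theorem S_iInf_finset (U : Ult B) {ι : Type*} (s : Finset ι) (f : ι → B) :
    U.S (⨅ x ∈ s, f x) ↔ ∀ x ∈ s, U.S (f x) := by
  classical
  induction s using Finset.induction_on with
  | empty => simp [U.top']
  | insert a s ha ih =>
    rw [Finset.iInf_insert, U.inf_iff, ih]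
    simp

theorem S_top (U : Ult B) : U.S ⊤ := U.top'

theorem S_bot (U : Ult B) : ¬ U.S ⊥ := U.bot'

/-- a statement which is false in all models below `p` shows `p = ⊥` -/
theorem eq_bot_of_fc {p : B} (h : Fc p (fun _ => False)) : p = ⊥ := by
  by_contra hc
  obtain ⟨U, hU⟩ := exists_ult hc
  exact h U hU

/-- the value of a formula is forced -/
theorem fc_bval (φ : Fm) (v : ℕ → BSet B) :
    Fc (bval φ v) (fun U => sat U.E φ (fun i => U.cls (v i))) := fun U hU => (U.los φ v).2 hU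

/-- the ordered pair in the models -/
theorem isPair_opair (U : Ult B) (a b : BSet B) :
    IsPair U.E (U.cls (opair a b)) (U.cls a) (U.cls b) := by
  refine ⟨U.cls (upair a a), U.cls (upair a b), ?_, ?_, ?_⟩
  all_goals
    intro z
    obtain ⟨z, rfl⟩ := U.exists_cls z
    exact U_upair_iff U _ _ _

theorem isUPair_unique {M : Type*} {E : M → M → Prop} (hE : ∀ x y, (∀ z, E z x ↔ E z y) → x = y)
    {p p' a b : M} (h : IsUPair E p a b) (h' : IsUPair E p' a b) : p = p' :=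
  hE _ _ fun z => (h z).trans (h' z).symm

theorem isPair_unique {M : Type*} {E : M → M → Prop} (hE : ∀ x y, (∀ z, E z x ↔ E z y) → x = y)
    {p p' a b : M} (h : IsPair E p a b) (h' : IsPair E p' a b) : p = p' := by
  obtain ⟨s, t, h1, h2, h3⟩ := h
  obtain ⟨s', t', h4, h5, h6⟩ := h'
  have e1 := isUPair_unique hE h1 h4
  have e2 := isUPair_unique hE h2 h5
  subst e1 e2
  exact isUPair_unique hE h3 h6

/-- `(a, b) ∈ R` in the models -/
theorem rel_iff (U : Ult B) (R a b : BSet B) :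
    Rel U.E (U.cls R) (U.cls a) (U.cls b) ↔ U.S (bMem (opair a b) R) := by
  constructor
  · rintro ⟨p, hp, hR⟩
    rw [isPair_unique U.isZFC.extensionality hp (isPair_opair U a b)] at hR
    exact hR
  · intro h
    exact ⟨_, isPair_opair U a b, h⟩

theorem Df1.rel_left (R b : BSet B) : Df1 (fun U m => Rel U.E (U.cls R) m (U.cls b)) :=
  Df1.mk' (fun x => bMem (opair x b) R) fun U x => (rel_iff U R x b).symm

theorem Df1.rel_right (R a : BSet B) : Df1 (fun U m => Rel U.E (U.cls R) (U.cls a) m) :=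
  Df1.mk' (fun x => bMem (opair a x) R) fun U x => (rel_iff U R a x).symm

theorem Df1.rel_fst (a b : BSet B) : Df1 (fun U m => Rel U.E m (U.cls a) (U.cls b)) :=
  Df1.mk' (fun x => bMem (opair a b) x) fun U x => (rel_iff U x a b).symm

end Pool.Agent.BPF
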