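import Mathlib
import Pool.Agent.Lib.MP_11349d_lc.V.Kit

/-!
# Module Om: the natural numbers of the models (est. 90 lines)

Proof. `IsInductive`: the empty set is `chk B 0` (`bMem_chk_zero`); closed under successor: use `fc_all_mem` for
the name `chkAll B ℕ` (its generators are the `chk B n` with weight `⊤`), with
`Φ U m := ∃ s, E s w ∧ ∀ z, E z s ↔ E z m ∨ z = m`, which is `Df1` by `Df1.of_sat` (write the formula as in
`fInductive`); for `m = cls (chk B n)` take `s = cls (chk B (n + 1))` (`bMem_chk_succ`, `chk_mem_chkAll`).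
`Sub w w'` for inductive `w'`: let `w' = cls y`, `b := bval (fInductive 0) (scons y _)`, so `U.S b` (`U.los`). For
all `U'` with `U'.S b` and all `n`, `chk B n ∈ cls' y`, by induction on `n` (the empty set and the set
`x ∪ {x}` are unique by extensionality, `U'.isZFC.extensionality`). Then `fc_all_mem` for `b` and
`Φ U m := E m (cls y)`.
-/

set_option autoImplicit false

namespace Pool.Agent.BPF

open Pool.Agent.Lib.BVM BSet

variable {B : Type} [CompleteBooleanAlgebra B]

private theorem Om_zero (U : Ult B) (z : U.Mod) : ¬ U.E z (U.cls (chk B (0 : ℕ))) := by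
  obtain ⟨z, rfl⟩ := U.exists_cls z
  rw [mem_iff, bMem_chk_zero]
  exact S_bot U

private theorem Om_succ (U : Ult B) (n : ℕ) (z : U.Mod) :
    U.E z (U.cls (chk B (n + 1))) ↔ U.E z (U.cls (chk B n)) ∨ z = U.cls (chk B n) := by
  obtain ⟨z, rfl⟩ := U.exists_cls z
  rw [mem_iff, bMem_chk_succ, U.sup_iff, U.cls_eq_iff, mem_iff]

private theorem Om_mem (U : Ult B) (n : ℕ) : U.E (U.cls (chk B n)) (U.cls (chkAll B ℕ)) := by
  rw [mem_iff, chk_mem_chkAll]
  exact S_top U

private theorem Om_df : Df1 (B := B) (fun U m => ∃ s, U.E s (U.cls (chkAll B ℕ)) ∧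
    ∀ z, U.E z s ↔ U.E z m ∨ z = m) :=
  Df1.of_sat (.ex (.and (.mem 0 2) (.all (.iff (.mem 0 1) (.or (.mem 0 2) (.eq 0 2))))))
    (fun _ => chkAll B ℕ)

private theorem Om_ind (U : Ult B) : IsInductive U.E (U.cls (chkAll B ℕ)) := by
  refine ⟨⟨_, Om_mem U 0, Om_zero U⟩, ?_⟩
  exact fc_all_chk (p := (⊤ : B)) Om_df
    (fun n U' _ => ⟨_, Om_mem U' (n + 1), Om_succ U' n⟩) U (S_top U)

theorem isOmega_w (U : Ult B) : IsOmega U.E (U.cls (chkAll B ℕ)) := by
  refine ⟨Om_ind U, fun w' hw' => ?_⟩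
  obtain ⟨y, rfl⟩ := U.exists_cls w'
  obtain ⟨b, hb⟩ := Df0.of_sat (fInductive 0) (fun _ => y)
  refine fc_all_chk (p := b) (Df1.mem_left y) (fun n U' hU' => ?_) U ((hb U).2 hw')
  have h : IsInductive U'.E (U'.cls y) := (hb U').1 hU'
  induction n with
  | zero =>
    obtain ⟨⟨e, he, he'⟩, -⟩ := h
    have h1 : e = U'.cls (chk B (0 : ℕ)) :=
      U'.isZFC.extensionality _ _ fun z => iff_of_false (he' z) (Om_zero U' z)
    rw [h1] at he
    exact he
  | succ n ih =>
    obtain ⟨s, hs, hs'⟩ := h.2 _ ih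
    have h1 : s = U'.cls (chk B (n + 1)) :=
      U'.isZFC.extensionality _ _ fun z => (hs' z).trans (Om_succ U' n z).symm
    rw [h1] at hs
    exact hs

end Pool.Agent.BPF
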