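import Mathlib
import Pool.Agent.Lib.MP_11349d_lc.V.Om

/-!
# Module Cni: countable sets of the models (est. 40 lines)

Proof. `omega_unique`: both inclusions, then extensionality. `cnt_iff`: `isOmega_w` and `omega_unique`
with `U.isZFC.extensionality`. `onto_mono`, `cnt_mono`: the same `f`. `onto_congr`: trivial.
-/

set_option autoImplicit false

namespace Pool.Agent.BPF

open Pool.Agent.Lib.BVM BSet

variable {B : Type} [CompleteBooleanAlgebra B]

theorem omega_unique {M : Type*} {E : M → M → Prop} (hE : ∀ x y, (∀ z, E z x ↔ E z y) → x = y)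
    {w w' : M} (h : IsOmega E w) (h' : IsOmega E w') : w = w' :=
  hE w w' fun z => ⟨h.2 w' h'.1 z, h'.2 w h.1 z⟩

theorem cnt_iff (U : Ult B) (x : U.Mod) : Cnt U.E x ↔ Onto U.E (U.cls (chkAll B ℕ)) x := by
  constructor
  · rintro ⟨w, hw, h⟩
    have h1 : w = U.cls (chkAll B ℕ) :=
      omega_unique (fun x y h => U.isZFC.extensionality x y h) hw (isOmega_w U)
    rw [← h1]
    exact h
  · intro h
    exact ⟨_, isOmega_w U, h⟩

theorem onto_mono {M : Type*} {E : M → M → Prop} {y x x' : M} (h : Onto E y x) (hs : Sub E x' x) :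
    Onto E y x' := by
  obtain ⟨f, h1, h2⟩ := h
  exact ⟨f, h1, fun a ha => h2 a (hs a ha)⟩

theorem cnt_mono {M : Type*} {E : M → M → Prop} {x x' : M} (h : Cnt E x) (hs : Sub E x' x) :
    Cnt E x' := by
  obtain ⟨w, hw, h1⟩ := h
  exact ⟨w, hw, onto_mono h1 hs⟩

end Pool.Agent.BPF
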