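import Mathlib
import Pool.Agent.Lib.MP_11349d_lc.Ifc
import Pool.Agent.Lib.MP_11349d_lc.V.Kit

/-! Part V: definitions for the proof of relative properness (see README.md). -/

set_option autoImplicit false

namespace Pool.Agent.BPF

open Pool.Agent.Lib.BVM BSet

/-- the conditions of the ground forcing -/
abbrev Pp (B : Type) [CompleteBooleanAlgebra B] : Type := {b : B // b ≠ ⊥}

variable {B : Type} [CompleteBooleanAlgebra B]

/-- countable name: the elements `x n` with weights `β n` -/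
def sq (x : ℕ → BSet B) (β : ℕ → B) : BSet B := mk ℕ x β

theorem bMem_sq (x : ℕ → BSet B) (β : ℕ → B) (y : BSet B) :
    bMem y (sq x β) = ⨆ n, β n ⊓ bEq y (x n) := rfl

/-- `b` forces that `r` is a partial order of `q` -/
structure VDat (B : Type) [CompleteBooleanAlgebra B] where
  b : B
  q : BSet B
  r : BSet B
  po : Fc b (fun U => IsPO U.E (U.cls q) (U.cls r))

namespace VDat

variable (D : VDat B)

/-- `p ≤ b` forces that the element `q.fn k` of `q` is a condition -/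
def ok (p : B) (k : D.q.Idx) : Prop :=
  p ≤ D.b ∧ Fc p (fun U => Pos U.E (U.cls D.q) (U.cls D.r) (U.cls (D.q.fn k)))

/-- `p` forces `q.fn k ≤ q.fn k'` -/
def lek (p : B) (k k' : D.q.Idx) : Prop :=
  Fc p (fun U => Le U.E (U.cls D.r) (U.cls (D.q.fn k)) (U.cls (D.q.fn k')))

/-- the iteration `P * q`: the pairs `(p, none)` and the pairs `(p, some k)` with `ok p k` -/
def A : Type := {a : Pp B × Option D.q.Idx // ∀ k, a.2 = some k → D.ok a.1.1 k}

variable {D}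

/-- the pair `(p, some k)` -/
def A.sm (p : Pp B) (k : D.q.Idx) (h : D.ok p.1 k) : D.A :=
  ⟨(p, some k), fun k' e => by rw [← Option.some.inj e]; exact h⟩

/-- the pair `(p, none)` -/
def A.nn (p : Pp B) : D.A := ⟨(p, none), fun _ e => by simp at e⟩

/-- the first component -/
def A.p (a : D.A) : Pp B := a.1.1

/-- every element is `(p, none)` or `(p, some k)` -/
theorem A.cases (a : D.A) :
    a = A.nn a.p ∨ ∃ k h, a = A.sm a.p k h := by
  obtain ⟨⟨p, x⟩, h⟩ := a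
  cases x with
  | none => exact Or.inl rfl
  | some k => exact Or.inr ⟨k, h k rfl, rfl⟩

theorem ok.mono {p p' : B} {k : D.q.Idx} (h : D.ok p k) (hp : p' ≤ p) : D.ok p' k :=
  ⟨hp.trans h.1, h.2.mono hp⟩

theorem lek.mono {p p' : B} {k k' : D.q.Idx} (h : D.lek p k k') (hp : p' ≤ p) : D.lek p' k k' :=
  Fc.mono h hp

theorem lek_refl {p : B} {k : D.q.Idx} (h : D.ok p k) : D.lek p k k := fun U hU =>
  (D.po U (Ult.mono U h.1 hU)).1 _ (h.2 U hU).1

theorem lek_trans {p : B} {k k' k'' : D.q.Idx} (h : D.ok p k) (h' : D.ok p k') (h'' : D.ok p k'')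
    (h1 : D.lek p k k') (h2 : D.lek p k' k'') : D.lek p k k'' := fun U hU =>
  (D.po U (Ult.mono U h.1 hU)).2.2 _ _ _ (h.2 U hU).1 (h'.2 U hU).1 (h''.2 U hU).1 (h1 U hU) (h2 U hU)

/-- the order of `P * q` -/
def le (a a' : D.A) : Prop :=
  a.1.1 ≤ a'.1.1 ∧ (a'.1.2 = none ∨ ∃ k k', a.1.2 = some k ∧ a'.1.2 = some k' ∧
    D.lek a.1.1.1 k k')

instance : Preorder D.A where
  le := le
  le_refl a := by
    refine ⟨le_rfl, ?_⟩
    obtain ⟨⟨p, x⟩, h⟩ := a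
    cases x with
    | none => exact Or.inl rfl
    | some k => exact Or.inr ⟨k, k, rfl, rfl, lek_refl (h k rfl)⟩
  le_trans a a' a'' h h' := by
    refine ⟨h.1.trans h'.1, ?_⟩
    rcases h'.2 with h1 | ⟨k', k'', e', e'', h1⟩
    · exact Or.inl h1
    rcases h.2 with h2 | ⟨k, k1, e, e1, h2⟩
    · rw [h2] at e'
      simp at e'
    · rw [e1] at e'
      obtain rfl := Option.some.inj e'
      refine Or.inr ⟨k, k'', e, e'', ?_⟩
      have hk := a.2 k e
      have hk1 := (a'.2 k1 e1).mono h.1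
      have hk2 := (a''.2 k'' e'').mono (h.1.trans h'.1)
      exact lek_trans hk hk1 hk2 h2 (h1.mono h.1)

theorem le_nn {a : D.A} {p : Pp B} : a ≤ A.nn p ↔ a.p ≤ p :=
  ⟨fun h => h.1, fun h => ⟨h, Or.inl rfl⟩⟩

theorem sm_le_sm {p p' : Pp B} {k k' : D.q.Idx} {h : D.ok p.1 k} {h' : D.ok p'.1 k'} :
    A.sm p k h ≤ A.sm p' k' h' ↔ p ≤ p' ∧ D.lek p.1 k k' := by
  constructor
  · rintro ⟨h1, h2 | ⟨k1, k2, e1, e2, h2⟩⟩
    · simp [A.sm] at h2
    · have e3 : k = k1 := Option.some.inj e1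
      have e4 : k' = k2 := Option.some.inj e2
      subst e3 e4
      exact ⟨h1, h2⟩
  · rintro ⟨h1, h2⟩
    exact ⟨h1, Or.inr ⟨k, k', rfl, rfl, h2⟩⟩

theorem not_nn_le_sm {p p' : Pp B} {k' : D.q.Idx} {h' : D.ok p'.1 k'} :
    ¬ (A.nn p : D.A) ≤ A.sm p' k' h' := by
  rintro ⟨-, h2 | ⟨k1, k2, e1, -, -⟩⟩
  · simp [A.sm] at h2
  · simp [A.nn] at e1

variable (D)

/-- `P * q` is an extension of `P` -/
def ext : PExt (Pp B) D.A where
  e p := A.nn p
  π a := a.p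
  e_mono h := ⟨h, Or.inl rfl⟩
  π_mono h := h.1
  π_e _ := rfl
  le_e a := ⟨le_rfl, Or.inl rfl⟩
  proj a p hp := by
    obtain ⟨⟨p', x⟩, h⟩ := a
    cases x with
    | none => exact ⟨A.nn p, ⟨hp, Or.inl rfl⟩, le_rfl⟩
    | some k =>
      have hk : D.ok p.1 k := (h k rfl).mono hp
      exact ⟨A.sm p k hk, ⟨hp, Or.inr ⟨k, k, rfl, rfl, lek_refl hk⟩⟩, le_rfl⟩

/-- the name of the subset `{q.fn k | (p, some k) ∈ S, p ∈ G}` of `q` -/
def dn (S : Set D.A) : BSet B :=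
  BSet.mk {x : Pp B × D.q.Idx // ∃ h, A.sm x.1 x.2 h ∈ S} (fun x => D.q.fn x.1.2)
    (fun x => x.1.1.1)

/-- the weight of an element of `A ⊕ Set A` as an element of `q ∪ P(q)` -/
noncomputable def wt : D.A ⊕ Set D.A → B
  | Sum.inl a => match a.1.2 with
    | none => ⊥
    | some _ => a.1.1.1
  | Sum.inr _ => ⊤

/-- the name of an element of `A ⊕ Set A` as an element of `q ∪ P(q)` -/
noncomputable def nm : D.A ⊕ Set D.A → BSet B
  | Sum.inl a => match a.1.2 with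
    | none => D.q
    | some k => D.q.fn k
  | Sum.inr S => D.dn S

theorem wt_sm (p : Pp B) (k : D.q.Idx) (h : D.ok p.1 k) : D.wt (Sum.inl (A.sm p k h)) = p.1 := rfl

theorem nm_sm (p : Pp B) (k : D.q.Idx) (h : D.ok p.1 k) :
    D.nm (Sum.inl (A.sm p k h)) = D.q.fn k := rfl

theorem wt_nn (p : Pp B) : D.wt (Sum.inl (A.nn p)) = ⊥ := rfl

theorem wt_inr (S : Set D.A) : D.wt (Sum.inr S) = ⊤ := rfl

theorem nm_inr (S : Set D.A) : D.nm (Sum.inr S) = D.dn S := rfl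

end VDat

/-- moreover `b` forces: `z = q ∪ P(q)`; `c` is a club of countable subsets of `z` which shows that `q` is
proper; `xs` is a condition of `q` -/
structure DatP (B : Type) [CompleteBooleanAlgebra B] extends VDat B where
  z : BSet B
  c : BSet B
  xs : BSet B
  hz : Fc b (fun U => IsZ U.E (U.cls q) (U.cls z))
  hc : Fc b (fun U => IsClubE U.E (U.cls z) (U.cls c))
  hg : Fc b (fun U => PG U.E (U.cls q) (U.cls r) (U.cls c))
  hx : Fc b (fun U => Pos U.E (U.cls q) (U.cls r) (U.cls xs))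

/-- names `cl l` of elements of the club and names `e l n` of enumerations of them, for finite lists `l`
of elements of `A ⊕ Set A` -/
structure ChN (D : DatP B) (cl : List (D.A ⊕ Set D.A) → BSet B)
    (e : List (D.A ⊕ Set D.A) → ℕ → BSet B) : Prop where
  mem : ∀ l, Fc D.b (fun U => U.E (U.cls (cl l)) (U.cls D.c))
  sub : ∀ l a, Fc D.b (fun U => Sub U.E (U.cls (cl l)) (U.cls (cl (a :: l))))
  val : ∀ l a, Fc (D.b ⊓ D.wt a) (fun U => U.E (U.cls (D.nm a)) (U.cls (cl (a :: l))))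
  xs : Fc D.b (fun U => U.E (U.cls D.xs) (U.cls (cl [])))
  enm : ∀ l y, D.b ⊓ bMem y (cl l) ≤ ⨆ n, bEq y (e l n)

/-- the conditions which decide whether the name `t` is a condition of `q`, and which generator of `q` it
is -/
def EE (D : DatP B) (t : BSet B) : Set (Pp B) :=
  {p | p.1 ≤ D.bᶜ ∨ Fc p.1 (fun U => ¬ Pos U.E (U.cls D.q) (U.cls D.r) (U.cls t)) ∨
    ∃ k, D.ok p.1 k ∧ Fc p.1 (fun U => U.cls t = U.cls (D.q.fn k))}

/-- the conditions which decide whether `q.fn k` is an element of `dn S` and why -/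
def HH (D : DatP B) (S : Set D.A) (k : D.q.Idx) : Set (Pp B) :=
  {p | (∃ p3 k3 h, VDat.A.sm p3 k3 h ∈ S ∧ p ≤ p3 ∧
      Fc p.1 (fun U => U.cls (D.q.fn k3) = U.cls (D.q.fn k))) ∨
    Fc p.1 (fun U => ¬ U.E (U.cls (D.q.fn k)) (U.cls (D.dn S)))}

/-- the projection of `S` outside `b` -/
def D0 (D : DatP B) (S : Set D.A) : Set (Pp B) := {p | (p.1 ≤ D.bᶜ ∧ VDat.A.nn p ∈ S) ∨ p.1 ≤ D.b}

/-- the closure properties of the sets `N` of the club -/
structure VNice (D : DatP B) (e : List (D.A ⊕ Set D.A) → ℕ → BSet B) (N : Set (D.A ⊕ Set D.A)) :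
    Prop where
  n1 : ∀ l : List (D.A ⊕ Set D.A), (∀ x ∈ l, x ∈ N) → ∀ n,
    Sum.inr (D.ext.e '' EE D (e l n)) ∈ N
  n2 : ∀ l : List (D.A ⊕ Set D.A), (∀ x ∈ l, x ∈ N) → ∀ n (p : Pp B), Sum.inl (D.ext.e p) ∈ N →
    (∃ k, D.ok p.1 k ∧ Fc p.1 (fun U => U.cls (e l n) = U.cls (D.q.fn k))) →
    ∃ k h, Fc p.1 (fun U => U.cls (e l n) = U.cls (D.q.fn k)) ∧ Sum.inl (VDat.A.sm p k h) ∈ N
  n3 : ∀ (S : Set D.A) (p : Pp B) (k : D.q.Idx) (h : D.ok p.1 k), Sum.inr S ∈ N →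
    Sum.inl (VDat.A.sm p k h) ∈ N → Sum.inr (D.ext.e '' HH D S k) ∈ N
  n4 : ∀ (S : Set D.A) (p' : Pp B) (k : D.q.Idx) (h : D.ok p'.1 k) (p : Pp B), Sum.inr S ∈ N →
    Sum.inl (VDat.A.sm p' k h) ∈ N → Sum.inl (D.ext.e p) ∈ N →
    (∃ p3 k3 h, VDat.A.sm p3 k3 h ∈ S ∧ p ≤ p3 ∧
      Fc p.1 (fun U => U.cls (D.q.fn k3) = U.cls (D.q.fn k))) →
    ∃ p3 k3 h, VDat.A.sm p3 k3 h ∈ S ∧ p ≤ p3 ∧
      Fc p.1 (fun U => U.cls (D.q.fn k3) = U.cls (D.q.fn k)) ∧ Sum.inl (VDat.A.sm p3 k3 h) ∈ N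
  n5 : ∀ S : Set D.A, Sum.inr S ∈ N → Sum.inr (D.ext.e '' D0 D S) ∈ N

end Pool.Agent.BPF
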