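import Mathlib
import Pool.Agent.Lib.MP_11349d_lc.V.Cni
import Pool.Agent.Lib.MP_11349d_lc.V.Dfs

/-!
# Module Sqc: countable names are countable (est. 80 lines)

Proof of `cnt_sq`. By `cnt_iff` it is enough to give `f` with `OntoB f w (sq x β)`. Let
`f = mk ℕ (fun n => opair (chk B n) (x n)) β`. By `bMem_mk`, `bEq_opair`, `chk_eq`:
`bMem (opair (chk B n) a) f = β n ⊓ bEq a (x n)`. So `Rel f (chk n) a` iff `U.S (β n)` and `cls a = cls (x n)`
(`rel_iff`). First part of `Onto`: `b ∈ w` : use `fc_all_mem` (p = ⊤) for the name `chkAll B ℕ`, with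
`Φ U m := ∀ a a', Rel f m a → Rel f m a' → a = a'` (`Df1.of_sat` with the formula in `fOntoB`). Second part:
`fc_all_mem` for the name `sq x β`, with `Φ U m := ∃ b ∈ w, Rel f b m`.
`cnt_onto`: the same with a countable index type: if `e : ℕ → ι` is surjective and `x` is a name with
`bMem y x ≤ ⨆ i, bEq y (t i)` for all `y`, then `x` is contained in `sq (t ∘ e) ⊤`, so it is countable
(`cnt_mono`).
-/

set_option autoImplicit false

namespace Pool.Agent.BPF

open Pool.Agent.Lib.BVM BSet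

variable {B : Type} [CompleteBooleanAlgebra B]

/-- the name of the enumeration -/
private noncomputable def sqcF (x : ℕ → BSet B) (β : ℕ → B) : BSet B :=
  mk ℕ (fun n => opair (chk B n) (x n)) β

private theorem sqc_mem (x : ℕ → BSet B) (β : ℕ → B) (n : ℕ) (a : BSet B) :
    bMem (opair (chk B n) a) (sqcF x β) = β n ⊓ bEq a (x n) := by
  rw [sqcF, bMem_mk]
  simp only [bEq_opair]
  apply le_antisymm
  · refine iSup_le fun j => ?_
    by_cases h : n = j
    · subst h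
      exact inf_le_inf_left _ inf_le_right
    · rw [chk_eq_of_ne h, bot_inf_eq, inf_bot_eq]
      exact bot_le
  · refine le_trans ?_ (le_iSup _ n)
    rw [bEq_refl, top_inf_eq]

private theorem sqc_rel (x : ℕ → BSet B) (β : ℕ → B) (U : Ult B) (n : ℕ) (a : BSet B) :
    Rel U.E (U.cls (sqcF x β)) (U.cls (chk B n)) (U.cls a) ↔
      U.S (β n) ∧ U.cls a = U.cls (x n) := by
  rw [rel_iff, sqc_mem, U.inf_iff, U.cls_eq_iff]

theorem cnt_sq (x : ℕ → BSet B) (β : ℕ → B) (U : Ult B) : Cnt U.E (U.cls (sq x β)) := by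
  rw [cnt_iff]
  refine ⟨U.cls (sqcF x β), ?_, ?_⟩
  · have hD : Df1 (fun (U : Ult B) m => ∀ a a', Rel U.E (U.cls (sqcF x β)) m a →
        Rel U.E (U.cls (sqcF x β)) m a' → a = a') :=
      Df1.of_sat (.all (.all (.imp (fRel 3 2 1) (.imp (fRel 3 2 0) (.eq 1 0)))))
        (fun _ => sqcF x β)
    refine fc_all_chk (p := ⊤) hD (fun n U _ a a' ha ha' => ?_) U U.top'
    obtain ⟨a, rfl⟩ := U.exists_cls a
    obtain ⟨a', rfl⟩ := U.exists_cls a'
    rw [sqc_rel] at ha ha'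
    rw [ha.2, ha'.2]
  · have hD : Df1 (fun (U : Ult B) m => ∃ b, U.E b (U.cls (chkAll B ℕ)) ∧
        Rel U.E (U.cls (sqcF x β)) b m) :=
      Df1.of_sat (.ex (.and (.mem 0 3) (fRel 2 0 1)))
        (scons (sqcF x β) (fun _ => chkAll B ℕ))
    refine fc_all_mem (p := ⊤) hD (sq x β) (fun n U _ hn => ?_) U U.top'
    refine ⟨U.cls (chk B (show ℕ from n)), ?_, ?_⟩
    · rw [U.E_cls, chk_mem_chkAll]
      exact U.top'
    · exact (sqc_rel x β U n (x n)).2 ⟨hn, rfl⟩

theorem cnt_of_cover {ι : Type} [Countable ι] [Nonempty ι] {p : B} (x : BSet B) (t : ι → BSet B)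
    (h : ∀ y, p ⊓ bMem y x ≤ ⨆ i, bEq y (t i)) : Fc p (fun U => Cnt U.E (U.cls x)) := by
  obtain ⟨e, he⟩ := exists_surjective_nat ι
  intro U hU
  refine cnt_mono (cnt_sq (fun n => t (e n)) (fun _ => ⊤) U) fun z hz => ?_
  obtain ⟨y, rfl⟩ := U.exists_cls z
  have h1 : p ⊓ bMem y x ≤ bMem y (sq (fun n => t (e n)) (fun _ => ⊤)) := by
    refine (h y).trans (iSup_le fun i => ?_)
    obtain ⟨n, rfl⟩ := he i
    rw [bMem_sq]
    refine le_trans ?_ (le_iSup _ n)
    rw [top_inf_eq]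
  exact Ult.mono U h1 (U.inf_iff.2 ⟨hU, hz⟩)

end Pool.Agent.BPF
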