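import Mathlib
import Pool.Agent.Lib.MP_11349d_lc.Ifc
import Pool.Agent.Lib.MP_11349d_lc.V.Kit

/-! Part V: names of the tree, its height function and the subtrees. The nodes are the pairs `(ξ, n)`, in
the lexicographic order of `Ω × ℕ`. -/

set_option autoImplicit false
set_option linter.unusedSectionVars false

namespace Pool.Agent.BPF

open Pool.Agent.Lib.BVM BSet

variable {B : Type} [CompleteBooleanAlgebra B] {Ω : Type} [LinearOrder Ω] [WellFoundedLT Ω]

/-- the nodes -/
abbrev Nd (Ω : Type) : Type := Ω ×ₗ ℕ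

/-- the level of a node -/
def Nd.ht (x : Nd Ω) : Ω := (ofLex x).1

/-- the number of a node -/
def Nd.no (x : Nd Ω) : ℕ := (ofLex x).2

/-- the node `(ξ, n)` -/
def nd (ξ : Ω) (n : ℕ) : Nd Ω := toLex (ξ, n)

@[simp] theorem nd_ht (ξ : Ω) (n : ℕ) : (nd ξ n).ht = ξ := rfl
@[simp] theorem nd_no (ξ : Ω) (n : ℕ) : (nd ξ n).no = n := rfl
theorem nd_eta (x : Nd Ω) : nd x.ht x.no = x := rfl

/-- the tree order -/
def Tlt (T : LTree Ω) (x y : Nd Ω) : Prop := x.ht < y.ht ∧ T.r x.ht y.ht y.no = x.no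

open Classical in
/-- the name of the tree order -/
noncomputable def rT (B : Type) [CompleteBooleanAlgebra B] (T : LTree Ω) : BSet B :=
  relName (fun x : Nd Ω => chk B x) (fun y : Nd Ω => chk B y) (fun x y => if Tlt T x y then ⊤ else ⊥)

open Classical in
/-- the name of the height function -/
noncomputable def lT (B : Type) [CompleteBooleanAlgebra B] (Ω : Type) [LinearOrder Ω]
    [WellFoundedLT Ω] : BSet B :=
  relName (fun x : Nd Ω => chk B x) (fun i : Ω => chk B i) (fun x i => if x.ht = i then ⊤ else ⊥)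

/-- the name of the set of nodes with values `V ξ n` -/
noncomputable def uT (V : Ω → ℕ → B) : BSet B :=
  BSet.mk (Nd Ω) (fun x => chk B x) (fun x => V x.ht x.no)

/-- the name of the family of the subtrees -/
noncomputable def sT {K : Type} (U : K → Ω → ℕ → B) : BSet B :=
  BSet.mk K (fun x => uT (U x)) (fun _ => ⊤)

theorem rel_rT (T : LTree Ω) (U : Ult B) (x y : Nd Ω) :
    Rel U.E (U.cls (rT B T)) (U.cls (chk B x)) (U.cls (chk B y)) ↔ Tlt T x y := by
  rw [rel_iff, rT, bMem_relName_chk]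
  split_ifs with h
  · simp [h, S_top]
  · simp [h, S_bot]

theorem rel_lT (U : Ult B) (x : Nd Ω) (i : Ω) :
    Rel U.E (U.cls (lT B Ω)) (U.cls (chk B x)) (U.cls (chk B i)) ↔ x.ht = i := by
  rw [rel_iff, lT, bMem_relName_chk]
  split_ifs with h
  · simp [h, S_top]
  · simp [h, S_bot]

theorem bMem_uT (V : Ω → ℕ → B) (x : Nd Ω) : bMem (chk B x) (uT V) = V x.ht x.no := by
  rw [uT, bMem_mk]
  exact iSup_chk_inf x (fun x => V x.ht x.no)

theorem cls_chk_eq {I : Type} [LinearOrder I] [WellFoundedLT I] (U : Ult B) {i j : I} :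
    U.cls (chk B i) = U.cls (chk B j) ↔ i = j := by
  classical
  rw [U.cls_eq_iff, chk_eq]
  split_ifs with h
  · simp [h, S_top]
  · simp [h, S_bot]

theorem mem_chk_iff {I : Type} [LinearOrder I] [WellFoundedLT I] (U : Ult B) {i j : I} :
    U.E (U.cls (chk B i)) (U.cls (chk B j)) ↔ i < j := by
  classical
  rw [mem_iff, chk_mem]
  split_ifs with h
  · simp [h, S_top]
  · simp [h, S_bot]

theorem chk_mem_all {I : Type} [LinearOrder I] [WellFoundedLT I] (U : Ult B) (i : I) :
    U.E (U.cls (chk B i)) (U.cls (chkAll B I)) := by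
  rw [mem_iff, chk_mem_chkAll]
  exact S_top U

theorem Tlt.trans {T : LTree Ω} {x y z : Nd Ω} (h : Tlt T x y) (h' : Tlt T y z) : Tlt T x z := by
  refine ⟨h.1.trans h'.1, ?_⟩
  rw [← T.r_comp x.ht y.ht z.ht z.no h.1.le h'.1.le, h'.2, h.2]

theorem Tlt.f_ne {T : LTree Ω} {x y : Nd Ω} (h : Tlt T x y) : T.f x.ht x.no ≠ T.f y.ht y.no := by
  rw [← h.2]
  exact T.f_ne _ _ _ h.1

theorem IsOm1.exists_gt {Ω : Type} [LinearOrder Ω] [WellFoundedLT Ω] (h : IsOm1 Ω) (ξ : Ω) :
    ∃ η, ξ < η := by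
  by_contra hc
  push Not at hc
  apply h.unc
  have : (Set.univ : Set Ω) ⊆ Set.Iio ξ ∪ {ξ} := fun η _ => by
    rcases (hc η).lt_or_eq with h1 | h1
    · exact Or.inl h1
    · exact Or.inr h1
  exact Set.countable_univ_iff.1 (((h.cnt ξ).union (Set.countable_singleton ξ)).mono this)

theorem IsOm1.nonempty {Ω : Type} [LinearOrder Ω] [WellFoundedLT Ω] (h : IsOm1 Ω) : Nonempty Ω := by
  by_contra hc
  rw [not_nonempty_iff] at hc
  exact h.unc inferInstance

end Pool.Agent.BPF
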