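import Mathlib
import Pool.Agent.Lib.MP_11349d_lc.V.Sqc
import Pool.Agent.Lib.MP_11349d_lc.V.Tdf

/-!
# Module Adx: almost disjoint subtrees (est. 100 lines)

Proof. Let `i = cls y` and let `p` be the value of `∀ z, z ∈ y ↔ z ∈ uT V ∧ z ∈ uT W`. Show `Fc p (Cnt y)`; by
`fc_dense` (`Cnt y` is given by `fCnt`): let `q ≤ p`, `q ≠ ⊥`. By `had` and `exists_inf_ne` there is `ξ` with
`r = q ⊓ ⨅ n, (V ξ n ⊓ W ξ n)ᶜ ≠ ⊥`. Let `ι = {x : Nd Ω // x.ht < ξ}`, countable by `hΩ.cnt ξ`. If `ι` is nonempty,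
`cnt_of_cover` for `r`, `t x = chk x`: `r ⊓ bMem z y ≤ ⨆ x : ι, bEq z (chk x)`: `z ∈ y` is in `uT V`, so
`r ⊓ bMem z y ≤ ⨆ x : Nd Ω, bEq z (chk x) ⊓ bMem (chk x) (uT V) ⊓ bMem (chk x) (uT W) =`
`⨆ x, bEq z (chk x) ⊓ V x.ht x.no ⊓ W x.ht x.no`, and for `ξ ≤ x.ht` the term is `⊥` under `r`: by `tree`,
`V x.ht x.no ≤ V ξ m`, `W x.ht x.no ≤ W ξ m` with `m = T.r ξ x.ht x.no`. If `ι` is empty the same computation gives
`r ⊓ bMem z y = ⊥`; use `cnt_of_cover` with `ι = Unit`.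
`uT_ne`: if `U.cls (uT V) = U.cls (uT W)`, then `U.S p` for `p = bEq (uT V) (uT W)`; choose `ξ` as above with
`r = p ⊓ ⨅ n, (V ξ n ⊓ W ξ n)ᶜ ≠ ⊥`, and `n` with `r ⊓ V ξ n ≠ ⊥` (`unb`); it is `≤ W ξ n`, contradiction.
-/

set_option autoImplicit false

namespace Pool.Agent.BPF

open Pool.Agent.Lib.BVM BSet

variable {B : Type} [CompleteBooleanAlgebra B] {Ω : Type} [LinearOrder Ω] [WellFoundedLT Ω]

private theorem bMem_le_of_uT (V : Ω → ℕ → B) (z : BSet B) :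
    bMem z (uT V) = ⨆ x : Nd Ω, V x.ht x.no ⊓ bEq z (chk B x) := by
  rw [uT, bMem_mk]

private theorem ad_core {T : LTree Ω} {V W : Ω → ℕ → B}
    (tV : ∀ ξ η n, ξ ≤ η → V η n ≤ V ξ (T.r ξ η n)) (tW : ∀ ξ η n, ξ ≤ η → W η n ≤ W ξ (T.r ξ η n))
    {r : B} {ξ : Ω} (hr : r ≤ ⨅ n, (V ξ n ⊓ W ξ n)ᶜ) {y z : BSet B}
    (hy : r ⊓ bMem z y ≤ bMem z (uT V) ⊓ bMem z (uT W)) :
    r ⊓ bMem z y ≤ ⨆ x : {x : Nd Ω // x.ht < ξ}, bEq z (chk B x.1) := by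
  have h1 : r ⊓ bMem z y ≤ r ⊓ ((⨆ x : Nd Ω, V x.ht x.no ⊓ bEq z (chk B x)) ⊓ bMem z (uT W)) := by
    rw [← bMem_le_of_uT V z]
    exact le_inf inf_le_left hy
  refine h1.trans ?_
  rw [iSup_inf_eq, inf_iSup_eq]
  refine iSup_le fun x => ?_
  have h2 : bEq z (chk B x) ⊓ bMem z (uT W) ≤ W x.ht x.no := by
    rw [← bMem_uT W x]
    exact ext1_mem_left (uT W) z (chk B x)
  by_cases hx : x.ht < ξ
  · refine le_trans ?_ (le_iSup (fun x : {x : Nd Ω // x.ht < ξ} => bEq z (chk B x.1)) ⟨x, hx⟩)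
    exact inf_le_right.trans (inf_le_left.trans inf_le_right)
  · have h3 : ξ ≤ x.ht := not_lt.mp hx
    set m := T.r ξ x.ht x.no
    have h4 : r ⊓ (V ξ m ⊓ W ξ m) = ⊥ := by
      rw [← le_bot_iff]
      refine (inf_le_inf_right _ (hr.trans (iInf_le _ m))).trans ?_
      rw [compl_inf_self]
    have h5 : r ⊓ (V x.ht x.no ⊓ bEq z (chk B x) ⊓ bMem z (uT W)) ≤ r ⊓ (V ξ m ⊓ W ξ m) := by
      refine inf_le_inf_left _ (le_inf ?_ ?_)
      · exact (inf_le_left.trans inf_le_left).trans (tV _ _ _ h3)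
      · rw [inf_assoc]
        exact (inf_le_right.trans h2).trans (tW _ _ _ h3)
    rw [h4] at h5
    exact h5.trans bot_le

private theorem nd_countable (hΩ : IsOm1 Ω) (ξ : Ω) : Countable {x : Nd Ω // x.ht < ξ} := by
  have : Countable (Set.Iio ξ) := (hΩ.cnt ξ).to_subtype
  refine Function.Injective.countable (β := Set.Iio ξ × ℕ) (f := fun x => (⟨x.1.ht, x.2⟩, x.1.no)) ?_
  intro x y hxy
  simp only [Prod.mk.injEq, Subtype.mk.injEq] at hxy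
  apply Subtype.ext
  rw [← nd_eta x.1, ← nd_eta y.1, hxy.1, hxy.2]

theorem ad_uT (hΩ : IsOm1 Ω) (T : LTree Ω) (V W : Ω → ℕ → B)
    (tV : ∀ ξ η n, ξ ≤ η → V η n ≤ V ξ (T.r ξ η n)) (tW : ∀ ξ η n, ξ ≤ η → W η n ≤ W ξ (T.r ξ η n))
    (had : ⨆ ξ, ⨅ n, (V ξ n ⊓ W ξ n)ᶜ = ⊤) (U : Ult B) :
    AD U.E (U.cls (uT V)) (U.cls (uT W)) := by
  intro i hi
  obtain ⟨y, rfl⟩ := U.exists_cls i
  let v : ℕ → BSet B := fun k => match k with
    | 0 => y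
    | 1 => uT V
    | _ => uT W
  let φ : Fm := .all (.iff (.mem 0 1) (.and (.mem 0 2) (.mem 0 3)))
  have hφ : ∀ U : Ult B, U.S (bval φ v) ↔
      ∀ z, U.E z (U.cls y) ↔ U.E z (U.cls (uT V)) ∧ U.E z (U.cls (uT W)) := fun U =>
    (U.los φ v).symm
  have key : Fc (bval φ v) (fun U => Cnt U.E (U.cls y)) := by
    refine fc_dense (Df0.of_sat (fCnt 0) v) fun q hq hq0 => ?_
    obtain ⟨ξ, hξ⟩ := exists_inf_ne hq0 (b := fun ξ => ⨅ n, (V ξ n ⊓ W ξ n)ᶜ) (by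
      rw [had]; exact le_top)
    refine ⟨_, inf_le_left, hξ, ?_⟩
    have : Countable {x : Nd Ω // x.ht < ξ} := nd_countable hΩ ξ
    refine cnt_of_cover (ι := Option {x : Nd Ω // x.ht < ξ}) y
      (fun o => o.elim y fun x => chk B x.1) fun z => ?_
    refine (ad_core tV tW inf_le_right (y := y) (z := z) ?_).trans ?_
    · refine le_of_forall_ult fun U hU => ?_
      rw [U.inf_iff] at hU ⊢
      have h1 := (hφ U).1 (Ult.mono U (inf_le_left.trans hq) hU.1)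
      exact (h1 (U.cls z)).1 hU.2
    · exact iSup_le fun x => le_iSup (fun o : Option {x : Nd Ω // x.ht < ξ} =>
        bEq z (o.elim y fun x => chk B x.1)) (some x)
  exact key U ((hφ U).2 hi)

theorem uT_ne (V W : Ω → ℕ → B) (unb : ∀ ξ, ⨆ n, V ξ n = ⊤)
    (had : ⨆ ξ, ⨅ n, (V ξ n ⊓ W ξ n)ᶜ = ⊤) (U : Ult B) :
    U.cls (uT V) ≠ U.cls (uT W) := by
  intro h
  rw [U.cls_eq_iff] at h
  have hp : bEq (uT V) (uT W) ≠ ⊥ := by
    intro h0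
    rw [h0] at h
    exact U.bot' h
  obtain ⟨ξ, hξ⟩ := exists_inf_ne hp (b := fun ξ => ⨅ n, (V ξ n ⊓ W ξ n)ᶜ) (by
      rw [had]; exact le_top)
  obtain ⟨n, hn⟩ := exists_inf_ne hξ (b := fun n => V ξ n) (by rw [unb]; exact le_top)
  apply hn
  rw [← le_bot_iff]
  have h1 : bEq (uT V) (uT W) ⊓ V ξ n ≤ W ξ n := by
    have := ext1_mem_right (chk B (nd ξ n)) (uT V) (uT W)
    simp only [bMem_uT, nd_ht, nd_no] at this
    exact this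
  have h2 : (⨅ n, (V ξ n ⊓ W ξ n)ᶜ) ⊓ (V ξ n ⊓ W ξ n) ≤ ⊥ := by
    refine (inf_le_inf_right _ (iInf_le _ n)).trans ?_
    rw [compl_inf_self]
  refine le_trans ?_ h2
  refine le_inf (inf_le_left.trans inf_le_right) (le_inf inf_le_right ?_)
  exact (inf_le_inf_right _ inf_le_left).trans h1

end Pool.Agent.BPF
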