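import Mathlib
import Pool.Agent.Lib.MP_11349d_lc.V.Dfs

/-! Part V: Boolean values; the antichains; the names used for the filter. -/

set_option autoImplicit false

namespace Pool.Agent.BPF

open Pool.Agent.Lib.BVM BSet

variable {B : Type} [CompleteBooleanAlgebra B]

/-- the value of: `x` is a condition -/
noncomputable def bPos (q r x : BSet B) : B := bval (fPos 0 1 2) (scons q (scons r fun _ => x))

theorem S_bPos (U : Ult B) (q r x : BSet B) :
    U.S (bPos q r x) ↔ Pos U.E (U.cls q) (U.cls r) (U.cls x) :=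
  (U.los (fPos 0 1 2) (scons q (scons r fun _ => x))).symm

/-- the value of: `x`, `y` are compatible -/
noncomputable def bComp (q r x y : BSet B) : B :=
  bval (fComp 0 1 2 3) (scons q (scons r (scons x fun _ => y)))

theorem S_bComp (U : Ult B) (q r x y : BSet B) :
    U.S (bComp q r x y) ↔ Comp U.E (U.cls q) (U.cls r) (U.cls x) (U.cls y) :=
  (U.los (fComp 0 1 2 3) (scons q (scons r (scons x fun _ => y)))).symm

/-- the value of: `x ≤ y` -/
def bLe (r x y : BSet B) : B := bMem (opair x y) r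

theorem S_bLe (U : Ult B) (r x y : BSet B) :
    U.S (bLe r x y) ↔ Le U.E (U.cls r) (U.cls x) (U.cls y) := (rel_iff U r x y).symm

theorem Df1.pos (q r : BSet B) : Df1 (fun U m => Pos U.E (U.cls q) (U.cls r) m) :=
  Df1.mk' (fun x => bPos q r x) fun U x => S_bPos U q r x

theorem Df1.comp (q r y : BSet B) : Df1 (fun U m => Comp U.E (U.cls q) (U.cls r) m (U.cls y)) :=
  Df1.mk' (fun x => bComp q r x y) fun U x => S_bComp U q r x y

/-- `b` forces the hypotheses of BPFA for `q, r` and the family `av` of antichains, and `a i j`, `j : Ω`, are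
names of all elements of the `i`-th antichain -/
structure DatA (B Ω : Type) [CompleteBooleanAlgebra B] [LinearOrder Ω] [WellFoundedLT Ω]
    extends DatP B where
  av : BSet B
  cba : Fc b (fun U => IsCBA U.E (U.cls q) (U.cls r))
  a : Ω → Ω → BSet B
  apos : ∀ i j, Fc b (fun U => Pos U.E (U.cls q) (U.cls r) (U.cls (a i j)))
  arel : ∀ i j, Fc b (fun U => Rel U.E (U.cls av) (U.cls (chk B i)) (U.cls (a i j)))
  aeq : ∀ i j j', Fc b (fun U => Comp U.E (U.cls q) (U.cls r) (U.cls (a i j)) (U.cls (a i j')) →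
    U.cls (a i j) = U.cls (a i j'))
  amax : ∀ i y, b ⊓ bPos q r y ≤ ⨆ j, bComp q r (a i j) y

section
variable {Ω : Type} [LinearOrder Ω] [WellFoundedLT Ω]

/-- the value of: there is a condition below all `a i j`, `(i, j) ∈ s` -/
noncomputable def cc (D : DatA B Ω) (s : Finset (Ω × Ω)) : B :=
  ⨆ k : D.q.Idx, (D.b ⊓ bPos D.q D.r (D.q.fn k)) ⊓
    ⨅ x ∈ s, bLe D.r (D.q.fn k) (D.a x.1 x.2)

/-- the pairs `(p, some k)` which force that `j` is the least index with `q.fn k ≤ a i j` -/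
def gg (D : DatA B Ω) (i j : Ω) : Set D.A :=
  {s | ∃ p k h, s = VDat.A.sm p k h ∧
    Fc p.1 (fun U => Le U.E (U.cls D.r) (U.cls (D.q.fn k)) (U.cls (D.a i j))) ∧
    ∀ j' < j, Fc p.1 (fun U => ¬ U.cls (D.a i j') = U.cls (D.a i j))}

/-- names `m s` of the meet of the `a i j`, `(i, j) ∈ s` -/
def IsMt (D : DatA B Ω) (m : Finset (Ω × Ω) → BSet B) : Prop :=
  ∀ s, Fc D.b (fun U => U.E (U.cls (m s)) (U.cls D.q) ∧
    (∀ x ∈ s, Le U.E (U.cls D.r) (U.cls (m s)) (U.cls (D.a x.1 x.2))) ∧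
    ∀ v, U.E v (U.cls D.q) → (∀ x ∈ s, Le U.E (U.cls D.r) v (U.cls (D.a x.1 x.2))) →
      Le U.E (U.cls D.r) v (U.cls (m s)))

/-- the name of the filter generated by the `a i j`, `j = G i` -/
noncomputable def gN (D : DatA B Ω) (m : Finset (Ω × Ω) → BSet B) (G : Ω → Ω → B) : BSet B :=
  BSet.mk D.q.Idx D.q.fn (fun k => D.q.val k ⊓
    ⨆ s : Finset (Ω × Ω), (⨅ x ∈ s, G x.1 x.2) ⊓ bLe D.r (m s) (D.q.fn k))

end

end Pool.Agent.BPF
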