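import Mathlib
import Pool.Agent.Lib.MP_11349d_lc.V.Kit

/-!
# Module Enm: names of enumerations (est. 70 lines)

Proof. By `fc_ex` (with `Df1.of_sat (fOntoB ..)`) there is a name `f` such that `p` forces
`OntoB f (chkAll I) x`. For `i : I`, `p` forces: there is an `m ∈ x` such that, if `Rel f (chk i) a` for some
`a ∈ x`, then `Rel f (chk i) m` (if there is such an `a` take `m = a`, otherwise any element of `x`); by
`fc_ex` there is a name `e i` of such an `m`. If `U.S p` and `cls y ∈ cls x`, then there is a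
`b ∈ cls (chkAll I)` with `Rel f b y`. So, by `le_iSup_mem` for the name `chkAll B I` (for
`p ⊓ bMem y x` and `φ b := bMem (opair b y) f`),
`p ⊓ bMem y x ≤ ⨆ i, bMem (opair (chk i) y) f`, and `p ⊓ bMem y x ⊓ bMem (opair (chk i) y) f ≤ bEq y (e i)` by
the choice of `e i` and the first part of `OntoB` (`chk i ∈ chkAll I` by `chk_mem_chkAll`).
-/

set_option autoImplicit false

namespace Pool.Agent.BPF

open Pool.Agent.Lib.BVM BSet

variable {B : Type} [CompleteBooleanAlgebra B]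

theorem enum {I : Type} [LinearOrder I] [WellFoundedLT I] {p : B} (x : BSet B)
    (h : Fc p (fun U => Onto U.E (U.cls (chkAll B I)) (U.cls x)))
    (hne : Fc p (fun U => ∃ m, U.E m (U.cls x))) :
    ∃ e : I → BSet B, (∀ i, Fc p (fun U => U.E (U.cls (e i)) (U.cls x))) ∧
      ∀ y, p ⊓ bMem y x ≤ ⨆ i, bEq y (e i) := by
  have hD : Df1 (fun (U : Ult B) m => OntoB U.E m (U.cls (chkAll B I)) (U.cls x)) :=
    Df1.of_sat (fOntoB 0 1 2) (scons (chkAll B I) (fun _ => x))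
  obtain ⟨f, hf⟩ := fc_ex hD h
  have hi : ∀ i : I, ∃ e : BSet B, Fc p (fun U => U.E (U.cls e) (U.cls x) ∧
      ((∃ a, U.E a (U.cls x) ∧ Rel U.E (U.cls f) (U.cls (chk B i)) a) →
        Rel U.E (U.cls f) (U.cls (chk B i)) (U.cls e))) := by
    intro i
    have hDi : Df1 (fun (U : Ult B) m => U.E m (U.cls x) ∧
        ((∃ a, U.E a (U.cls x) ∧ Rel U.E (U.cls f) (U.cls (chk B i)) a) →
          Rel U.E (U.cls f) (U.cls (chk B i)) m)) :=
      Df1.of_sat (.and (.mem 0 1) (.imp (.ex (.and (.mem 0 2) (fRel 3 4 0))) (fRel 2 3 0)))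
        (scons x (scons f (fun _ => chk B i)))
    refine fc_ex hDi fun U hU => ?_
    by_cases hex : ∃ a, U.E a (U.cls x) ∧ Rel U.E (U.cls f) (U.cls (chk B i)) a
    · obtain ⟨a, ha, ha'⟩ := hex
      exact ⟨a, ha, fun _ => ha'⟩
    · obtain ⟨a, ha⟩ := hne U hU
      exact ⟨a, ha, fun h' => absurd h' hex⟩
  choose e he using hi
  refine ⟨e, fun i U hU => (he i U hU).1, fun y => ?_⟩
  have h1 : p ⊓ bMem y x ≤ ⨆ i : I, ⊤ ⊓ bMem (opair (chk B i) y) f :=
    le_iSup_mem (φ := fun b => bMem (opair b y) f) (Φ := fun U m => Rel U.E (U.cls f) m (U.cls y))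
      (fun U b => (rel_iff U f b y).symm) (chkAll B I)
      (fun U hU => (hf U (U.inf_iff.1 hU).1).2 _ (U.inf_iff.1 hU).2)
  have h2 : p ⊓ bMem y x ≤ (p ⊓ bMem y x) ⊓ ⨆ i : I, ⊤ ⊓ bMem (opair (chk B i) y) f :=
    le_inf le_rfl h1
  refine h2.trans ?_
  rw [inf_iSup_eq]
  refine iSup_mono fun i => le_of_forall_ult fun U hU => ?_
  rw [U.inf_iff, U.inf_iff, U.inf_iff] at hU
  obtain ⟨⟨hp, hy⟩, -, hr⟩ := hU
  have hr' : Rel U.E (U.cls f) (U.cls (chk B i)) (U.cls y) := (rel_iff U f (chk B i) y).2 hr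
  have h3 := (he i U hp).2 ⟨U.cls y, hy, hr'⟩
  rw [← U.cls_eq_iff]
  refine (hf U hp).1 (U.cls (chk B i)) ?_ _ _ hr' h3
  rw [U.E_cls, chk_mem_chkAll]
  exact U.top'

end Pool.Agent.BPF
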