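import Mathlib
import Pool.Agent.Lib.MP_11349d_lc.V.Dfa
import Pool.Agent.Lib.MP_11349d_lc.V.Enm

/-!
# Module Dpx: the data given by the hypotheses of BPFA (est. 90 lines)

Proof. `exists_datP`: `IsProper = ∃ z c, ...`: `fc_ex` twice (first for `Φ U m := ∃ c, ...` with the formula
`.ex (fProperB 2 3 1 0)` or similar, `Df1.of_sat`, then for `c`), and `fc_ex` for `xs` (`Df1.pos`).
`exists_anti`: for `i : Ω`, `chk i ∈ chkAll`, so `b` forces that there is `s` with `IsAi q r o av i s`; `fc_ex`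
(`fAi`) gives a name `s`. It is nonempty: there is a condition, and it is compatible with an element of
`s` (`IsMaxAntichain`). `enum` with `I = Ω` gives names `a j` (`j : Ω`) of elements of `s` with
`b ⊓ bMem y s ≤ ⨆ j, bEq y (a j)`. `Pos (a j)`, `Rel av (chk i) (a j)`: `a j ∈ s`. `Comp (a j) (a j') → a j = a j'`: second part
of `IsMaxAntichain`. Last part: below `b ⊓ bPos y`, there is `m ∈ s` with `Comp y m`; by `le_iSup_mem` for the
name `s` (or `le_of_dense` and `fc_ex_mem`) and the covering property `m = a j` for some `j`; `Comp` is symmetric.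
-/

set_option autoImplicit false

namespace Pool.Agent.BPF

open Pool.Agent.Lib.BVM BSet

variable {B : Type} [CompleteBooleanAlgebra B]

theorem exists_datP {b : B} {q r : BSet B}
    (h1 : Fc b (fun U => IsPO U.E (U.cls q) (U.cls r)))
    (h2 : Fc b (fun U => ∃ x, Pos U.E (U.cls q) (U.cls r) x))
    (h3 : Fc b (fun U => IsProper U.E (U.cls q) (U.cls r))) :
    ∃ D : DatP B, D.b = b ∧ D.q = q ∧ D.r = r := by
  have hD1 : Df1 (fun (U : Ult B) m => ∃ c, IsZ U.E (U.cls q) m ∧ IsClubE U.E m c ∧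
      PG U.E (U.cls q) (U.cls r) c) :=
    Df1.of_sat (.ex (fProperB 2 3 1 0)) (scons q (fun _ => r))
  obtain ⟨z, hz⟩ := fc_ex hD1 h3
  have hD2 : Df1 (fun (U : Ult B) m => IsZ U.E (U.cls q) (U.cls z) ∧ IsClubE U.E (U.cls z) m ∧
      PG U.E (U.cls q) (U.cls r) m) :=
    Df1.of_sat (fProperB 1 2 3 0) (scons q (scons r (fun _ => z)))
  obtain ⟨c, hc⟩ := fc_ex hD2 hz
  obtain ⟨xs, hxs⟩ := fc_ex (Df1.pos q r) h2
  exact ⟨{ b := b, q := q, r := r, po := h1, z := z, c := c, xs := xs,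
           hz := fun U hU => (hc U hU).1, hc := fun U hU => (hc U hU).2.1,
           hg := fun U hU => (hc U hU).2.2, hx := hxs }, rfl, rfl, rfl⟩

theorem exists_anti {Ω : Type} [LinearOrder Ω] [WellFoundedLT Ω] {b : B} {q r av : BSet B}
    (h1 : Fc b (fun U => ∃ x, Pos U.E (U.cls q) (U.cls r) x))
    (h2 : Fc b (fun U => ∀ i, U.E i (U.cls (chkAll B Ω)) →
      ∃ s, IsAi U.E (U.cls q) (U.cls r) (U.cls (chkAll B Ω)) (U.cls av) i s)) (i : Ω) :
    ∃ a : Ω → BSet B, (∀ j, Fc b (fun U => Pos U.E (U.cls q) (U.cls r) (U.cls (a j)))) ∧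
      (∀ j, Fc b (fun U => Rel U.E (U.cls av) (U.cls (chk B i)) (U.cls (a j)))) ∧
      (∀ j j', Fc b (fun U => Comp U.E (U.cls q) (U.cls r) (U.cls (a j)) (U.cls (a j')) →
        U.cls (a j) = U.cls (a j'))) ∧
      ∀ y, b ⊓ bPos q r y ≤ ⨆ j, bComp q r (a j) y := by
  have hD : Df1 (fun (U : Ult B) m => IsAi U.E (U.cls q) (U.cls r) (U.cls (chkAll B Ω))
      (U.cls av) (U.cls (chk B i)) m) :=
    Df1.of_sat (fAi 1 2 3 4 5 0)
      (scons q (scons r (scons (chkAll B Ω) (scons av (fun _ => chk B i)))))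
  obtain ⟨s, hs⟩ := fc_ex hD (fun U hU => h2 U hU (U.cls (chk B i)) (by
    rw [U.E_cls, chk_mem_chkAll]
    exact U.top'))
  obtain ⟨a, ha1, ha2⟩ := enum (I := Ω) s (fun U hU => (hs U hU).2.2) (fun U hU => by
    obtain ⟨x, hx⟩ := h1 U hU
    obtain ⟨y, hy, -⟩ := (hs U hU).2.1.2.2 x hx
    exact ⟨y, hy⟩)
  refine ⟨a, fun j U hU => (hs U hU).2.1.1 _ (ha1 j U hU),
    fun j U hU => ((hs U hU).1 _).1 (ha1 j U hU), fun j j' U hU hc => ?_, fun y => ?_⟩
  · by_contra hne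
    exact (hs U hU).2.1.2.1 _ _ (ha1 j U hU) (ha1 j' U hU) hne hc
  · have h3 : b ⊓ bPos q r y ≤ ⨆ k, s.val k ⊓ bComp q r (s.fn k) y :=
      le_iSup_mem (φ := fun x => bComp q r x y)
        (Φ := fun U m => Comp U.E (U.cls q) (U.cls r) m (U.cls y))
        (fun U x => S_bComp U q r x y) s (fun U hU => by
          rw [U.inf_iff, S_bPos] at hU
          obtain ⟨m, hm, z, hz1, hz2, hz3⟩ := (hs U hU.1).2.1.2.2 _ hU.2
          exact ⟨m, hm, z, hz1, hz3, hz2⟩)
    have h4 : b ⊓ bPos q r y ≤ b ⊓ ⨆ k, s.val k ⊓ bComp q r (s.fn k) y :=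
      le_inf inf_le_left h3
    refine h4.trans ?_
    rw [inf_iSup_eq]
    refine iSup_le fun k => ?_
    have h5 : b ⊓ (s.val k ⊓ bComp q r (s.fn k) y) ≤
        (⨆ j, bEq (s.fn k) (a j)) ⊓ bComp q r (s.fn k) y := by
      rw [← inf_assoc]
      exact inf_le_inf_right _ ((inf_le_inf_left _ (val_le_bMem s k)).trans (ha2 (s.fn k)))
    refine h5.trans ?_
    rw [iSup_inf_eq]
    refine iSup_mono fun j => le_of_forall_ult fun U hU => ?_
    rw [U.inf_iff, ← U.cls_eq_iff, S_bComp] at hU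
    rw [S_bComp, ← hU.1]
    exact hU.2

end Pool.Agent.BPF
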