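import Mathlib
import Pool.Agent.Lib.MP_11349d_lc.V.Dfa

/-!
# Module Flm: membership in the name of the filter (est. 50 lines)

Proof. `bMem y (gN D m G) = ⨆ k, (q.val k ⊓ (⨆ s, ..(q.fn k)..)) ⊓ bEq y (q.fn k)` by `bMem_mk`; replace
`q.fn k` by `y` inside the supremum over `s` (`ext1_opair_right`: the value of `bLe r (m s) _` at equal names),
and `bMem y q = ⨆ k, q.val k ⊓ bEq y (q.fn k)` (`bMem_eq`). Both inequalities are easily checked with
`le_of_forall_ult`-free lattice computations, or: `Ext1` and `iSup_mem_inf`.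
-/

set_option autoImplicit false

namespace Pool.Agent.BPF

open Pool.Agent.Lib.BVM BSet

variable {B : Type} [CompleteBooleanAlgebra B] {Ω : Type} [LinearOrder Ω] [WellFoundedLT Ω]

private theorem ext1_W (D : DatA B Ω) (m : Finset (Ω × Ω) → BSet B) (G : Ω → Ω → B) :
    Ext1 (fun z => ⨆ s : Finset (Ω × Ω), (⨅ x ∈ s, G x.1 x.2) ⊓ bLe D.r (m s) z) := by
  intro x y
  change bEq x y ⊓ (⨆ s : Finset (Ω × Ω), (⨅ x ∈ s, G x.1 x.2) ⊓ bLe D.r (m s) x) ≤
    ⨆ s : Finset (Ω × Ω), (⨅ x ∈ s, G x.1 x.2) ⊓ bLe D.r (m s) y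
  rw [inf_iSup_eq]
  refine iSup_mono fun s => ?_
  rw [inf_left_comm]
  exact inf_le_inf_left _ (ext1_opair_right (m s) D.r x y)

theorem bMem_gN (D : DatA B Ω) (m : Finset (Ω × Ω) → BSet B) (G : Ω → Ω → B) (y : BSet B) :
    bMem y (gN D m G) =
      bMem y D.q ⊓ ⨆ s : Finset (Ω × Ω), (⨅ x ∈ s, G x.1 x.2) ⊓ bLe D.r (m s) y := by
  have h := ext1_W D m G
  rw [gN, bMem_mk, bMem_eq, iSup_inf_eq]
  refine iSup_congr fun k => le_antisymm ?_ ?_
  · refine le_inf (le_inf (inf_le_left.trans inf_le_left) inf_le_right) ?_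
    refine le_trans ?_ (h (D.q.fn k) y)
    rw [bEq_symm (D.q.fn k) y]
    exact le_inf inf_le_right (inf_le_left.trans inf_le_right)
  · refine le_inf (le_inf (inf_le_left.trans inf_le_left) ?_) (inf_le_left.trans inf_le_right)
    refine le_trans ?_ (h y (D.q.fn k))
    exact le_inf (inf_le_left.trans inf_le_right) inf_le_right

end Pool.Agent.BPF
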