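import Mathlib
import Pool.Agent.Lib.MP_11349d_lc.V.Flm

/-!
# Module Fli: the name of the filter is forced to be a filter (est. 130 lines)

Proof. Let `U.S b` and let `x = cls y` and so on be elements of `U.Mod`.
`pos`: show `b ⊓ bMem y g ≤ bPos y` (`le_of_forall_ult` and `S_bPos` give the statement in the models). By `bMem_gN`
and distributivity it is enough to show, for every `s`,
`b ⊓ bMem y q ⊓ (⨅ x ∈ s, G x) ⊓ bLe (m s) y ≤ bPos y`. The left side is `≤ cc s` (`hG`), a supremum over `k`; for every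
`k`: in the models, `q.fn k` is a condition below all `a x`, `x ∈ s` (`S_iInf_finset`), so `q.fn k ≤ m s ≤ y` (`IsMt`,
`IsPO`: transitivity, all elements are in `q`), and an element of `q` above a condition is a
condition (`Pos x` and `x ≤ y`: `¬ x ≤ w` for some `w ∈ q`, so `¬ y ≤ w`).
`up`: if `x ∈ g`, `y ∈ q`, `x ≤ y` then `y ∈ g`: `b ⊓ bMem x g ⊓ bMem y q ⊓ bLe x y ≤ bMem y g` by
`bMem_gN`, for every `s` (`m s ≤ x ≤ y`).
`dir`: for `x, y ∈ g` with finite sets `s`, `t`: `z = m (s ∪ t)` is in `q`,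
`⨅ x ∈ s ∪ t, G x = (⨅ x ∈ s, G x) ⊓ (⨅ x ∈ t, G x)` (`Finset.iInf_union`), so `z ∈ g`, and `m (s ∪ t) ≤ m s ≤ x`,
`m (s ∪ t) ≤ m t ≤ y`. So
`b ⊓ bMem x g ⊓ bMem y g ≤ ⨆ s, ⨆ t, bMem (m (s ∪ t)) g ⊓ bLe (m (s ∪ t)) x ⊓ bLe (m (s ∪ t)) y`; in the models this gives
the existential statement: use `le_of_forall_ult` against the value of the formula
`.ex (.and (.mem 0 3) (.and (fRel 4 0 1) (fRel 4 0 2)))` (`U.los`), every term of the supremum is below it.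
-/

set_option autoImplicit false

namespace Pool.Agent.BPF

open Pool.Agent.Lib.BVM BSet

variable {B : Type} [CompleteBooleanAlgebra B] {Ω : Type} [LinearOrder Ω] [WellFoundedLT Ω]

private theorem gN_elim (D : DatA B Ω) (m : Finset (Ω × Ω) → BSet B) (G : Ω → Ω → B) (y : BSet B)
    {a c : B}
    (h : ∀ s : Finset (Ω × Ω), a ⊓ (bMem y D.q ⊓ ((⨅ x ∈ s, G x.1 x.2) ⊓ bLe D.r (m s) y)) ≤ c) :
    a ⊓ bMem y (gN D m G) ≤ c := by
  rw [bMem_gN, inf_iSup_eq, inf_iSup_eq]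
  exact iSup_le h

private theorem gN_intro (D : DatA B Ω) (m : Finset (Ω × Ω) → BSet B) (G : Ω → Ω → B) (y : BSet B)
    (s : Finset (Ω × Ω)) (U : Ult B) (h1 : U.E (U.cls y) (U.cls D.q))
    (h2 : ∀ x ∈ s, U.S (G x.1 x.2)) (h3 : Le U.E (U.cls D.r) (U.cls (m s)) (U.cls y)) :
    U.E (U.cls y) (U.cls (gN D m G)) := by
  change U.S (bMem y (gN D m G))
  rw [bMem_gN, U.inf_iff]
  refine ⟨h1, Ult.mono U (le_iSup (fun s : Finset (Ω × Ω) =>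
    (⨅ x ∈ s, G x.1 x.2) ⊓ bLe D.r (m s) y) s) ?_⟩
  rw [U.inf_iff, S_iInf_finset, S_bLe]
  exact ⟨h2, h3⟩

private theorem gN_pos (D : DatA B Ω) {m : Finset (Ω × Ω) → BSet B} (hm : IsMt D m)
    {G : Ω → Ω → B} (hG : ∀ s : Finset (Ω × Ω), D.b ⊓ ⨅ x ∈ s, G x.1 x.2 ≤ cc D s) (y : BSet B) :
    D.b ⊓ bMem y (gN D m G) ≤ bPos D.q D.r y := by
  refine gN_elim D m G y fun s => ?_
  have h1 : D.b ⊓ (bMem y D.q ⊓ ((⨅ x ∈ s, G x.1 x.2) ⊓ bLe D.r (m s) y)) ≤ cc D s :=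
    le_trans (le_inf inf_le_left (inf_le_right.trans (inf_le_right.trans inf_le_left))) (hG s)
  rw [← inf_eq_left.2 h1, cc, inf_iSup_eq]
  refine iSup_le fun k => le_of_forall_ult fun U hU => ?_
  simp only [U.inf_iff, S_iInf_finset, S_bLe, S_bPos] at hU
  obtain ⟨⟨hb, hy, -, hmy⟩, ⟨-, hk⟩, hka⟩ := hU
  rw [S_bPos]
  obtain ⟨hms, -, hmt⟩ := hm s U hb
  have h2 : Le U.E (U.cls D.r) (U.cls (D.q.fn k)) (U.cls (m s)) := hmt _ hk.1 hka
  have htr := (D.po U hb).2.2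
  have h3 := htr _ _ (U.cls y) hk.1 hms hy h2 hmy
  obtain ⟨hkq, w, hw, hkw⟩ := hk
  exact ⟨hy, w, hw, fun hyw => hkw (htr _ (U.cls y) _ hkq hy hw h3 hyw)⟩

private theorem gN_up (D : DatA B Ω) {m : Finset (Ω × Ω) → BSet B} (hm : IsMt D m)
    (G : Ω → Ω → B) (x y : BSet B) :
    (D.b ⊓ (bMem y D.q ⊓ bLe D.r x y)) ⊓ bMem x (gN D m G) ≤ bMem y (gN D m G) := by
  refine gN_elim D m G x fun s => le_of_forall_ult fun U hU => ?_
  simp only [U.inf_iff, S_iInf_finset, S_bLe] at hU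
  obtain ⟨⟨hb, hy, hxy⟩, hx, hs, hmx⟩ := hU
  exact gN_intro D m G y s U hy hs ((D.po U hb).2.2 _ (U.cls x) _ (hm s U hb).1 hx hy hmx hxy)

private theorem gN_dir (D : DatA B Ω) {m : Finset (Ω × Ω) → BSet B} (hm : IsMt D m)
    (G : Ω → Ω → B) (x y : BSet B) {c : B}
    (hc : ∀ U : Ult B, (∃ z, U.E z (U.cls (gN D m G)) ∧ Le U.E (U.cls D.r) z (U.cls x) ∧
      Le U.E (U.cls D.r) z (U.cls y)) → U.S c) :
    (D.b ⊓ bMem x (gN D m G)) ⊓ bMem y (gN D m G) ≤ c := by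
  classical
  refine gN_elim D m G y fun t => ?_
  rw [inf_right_comm]
  refine gN_elim D m G x fun s => le_of_forall_ult fun U hU => ?_
  simp only [U.inf_iff, S_iInf_finset, S_bLe] at hU
  obtain ⟨⟨hb, hy, ht, hmy⟩, hx, hs, hmx⟩ := hU
  have htr := (D.po U hb).2.2
  obtain ⟨h1, h2, -⟩ := hm (s ∪ t) U hb
  obtain ⟨hs1, -, hs3⟩ := hm s U hb
  obtain ⟨ht1, -, ht3⟩ := hm t U hb
  have h3 := hs3 _ h1 fun z hz => h2 z (Finset.mem_union_left _ hz)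
  have h4 := ht3 _ h1 fun z hz => h2 z (Finset.mem_union_right _ hz)
  refine hc U ⟨U.cls (m (s ∪ t)), ?_, htr _ _ (U.cls x) h1 hs1 hx h3 hmx,
    htr _ _ (U.cls y) h1 ht1 hy h4 hmy⟩
  refine gN_intro D m G _ (s ∪ t) U h1 (fun z hz => ?_) ((D.po U hb).1 _ h1)
  rcases Finset.mem_union.1 hz with h | h
  · exact hs z h
  · exact ht z h

theorem isFilt_gN (D : DatA B Ω) {m : Finset (Ω × Ω) → BSet B} (hm : IsMt D m)
    {G : Ω → Ω → B} (hG : ∀ s : Finset (Ω × Ω), D.b ⊓ ⨅ x ∈ s, G x.1 x.2 ≤ cc D s) :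
    Fc D.b (fun U => IsFilt U.E (U.cls D.q) (U.cls D.r) (U.cls (gN D m G))) := by
  intro U hU
  refine ⟨fun x hx => ?_, fun x y hx hy hxy => ?_, fun x y hx hy => ?_⟩
  · obtain ⟨x, rfl⟩ := U.exists_cls x
    rw [← S_bPos]
    exact Ult.mono U (gN_pos D hm hG x) (U.inf_iff.2 ⟨hU, hx⟩)
  · obtain ⟨x, rfl⟩ := U.exists_cls x
    obtain ⟨y, rfl⟩ := U.exists_cls y
    exact Ult.mono U (gN_up D hm G x y)
      (U.inf_iff.2 ⟨U.inf_iff.2 ⟨hU, U.inf_iff.2 ⟨hy, (S_bLe U D.r x y).2 hxy⟩⟩, hx⟩)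
  · obtain ⟨x, rfl⟩ := U.exists_cls x
    obtain ⟨y, rfl⟩ := U.exists_cls y
    have key : ∀ U : Ult B, U.S (bval (.ex (.and (.mem 0 3) (.and (fRel 4 0 1) (fRel 4 0 2))))
        (scons x (scons y (scons (gN D m G) fun _ => D.r)))) ↔
        ∃ z, U.E z (U.cls (gN D m G)) ∧ Le U.E (U.cls D.r) z (U.cls x) ∧
          Le U.E (U.cls D.r) z (U.cls y) := fun U => (U.los _ _).symm
    exact (key U).1 (Ult.mono U (gN_dir D hm G x y fun U h => (key U).2 h)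
      (U.inf_iff.2 ⟨U.inf_iff.2 ⟨hU, hx⟩, hy⟩))

end Pool.Agent.BPF
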