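import Mathlib
import Pool.Agent.Lib.MP_11349d_lc.V.Flm

/-!
# Module Flx: the filter meets the antichains (est. 60 lines)

Proof. `fc_all_chk` with `Φ U i := ∃ x, E x g ∧ Rel av i x` (`Df1.of_sat`): let `i : Ω`. By `fc_dense` (`Df1.df0`):
let `q' ≤ b`, `q' ≠ ⊥`; by `exists_inf_ne` and `hG` there is `j` with `r = q' ⊓ G i j ≠ ⊥`. With
`s = {(i, j)}`: `r` forces `m s ≤ a i j` (`IsMt`), `a i j ∈ q` (`apos`), so `a i j ∈ g` (`bMem_gN`), and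
`Rel av (chk i) (a i j)` (`arel`).
-/

set_option autoImplicit false

namespace Pool.Agent.BPF

open Pool.Agent.Lib.BVM BSet

variable {B : Type} [CompleteBooleanAlgebra B] {Ω : Type} [LinearOrder Ω] [WellFoundedLT Ω]

theorem meets_gN (D : DatA B Ω) {m : Finset (Ω × Ω) → BSet B} (hm : IsMt D m)
    {G : Ω → Ω → B} (hG : ∀ i, D.b ≤ ⨆ j, G i j) :
    Fc D.b (fun U => ∀ i, U.E i (U.cls (chkAll B Ω)) →
      ∃ x, U.E x (U.cls (gN D m G)) ∧ Rel U.E (U.cls D.av) i x) := by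
  have hdf : Df1 (fun (U : Ult B) i =>
      ∃ x, U.E x (U.cls (gN D m G)) ∧ Rel U.E (U.cls D.av) i x) :=
    Df1.of_sat (.ex (.and (.mem 0 2) (fRel 3 1 0))) (scons (gN D m G) fun _ => D.av)
  refine fc_all_chk hdf fun i => fc_dense (hdf.df0 _) fun q hq hq0 => ?_
  obtain ⟨j, hj⟩ := exists_inf_ne hq0 (hq.trans (hG i))
  refine ⟨q ⊓ G i j, inf_le_left, hj, fun U hU => ?_⟩
  rw [U.inf_iff] at hU
  have hb := Ult.mono U hq hU.1
  obtain ⟨h1, h2, -⟩ := hm {(i, j)} U hb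
  refine ⟨U.cls (D.a i j), ?_, D.arel i j U hb⟩
  change U.S (bMem (D.a i j) (gN D m G))
  rw [bMem_gN, U.inf_iff]
  refine ⟨(D.apos i j U hb).1, Ult.mono U (le_iSup (fun s : Finset (Ω × Ω) =>
    (⨅ x ∈ s, G x.1 x.2) ⊓ bLe D.r (m s) (D.a i j)) {(i, j)}) ?_⟩
  rw [U.inf_iff, S_iInf_finset, S_bLe]
  refine ⟨fun x hx => ?_, h2 (i, j) (Finset.mem_singleton_self _)⟩
  rw [Finset.mem_singleton.1 hx]
  exact hU.2

end Pool.Agent.BPF
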