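import Mathlib
import Pool.Agent.Lib.MP_11349d_lc.V.Dfa

/-!
# Module Mts: names of meets (est. 80 lines)

Proof. Let `S = BSet.mk {x // x ∈ s} (fun x => a x.1.1 x.1.2) (fun _ => ⊤)`. `b` forces `Sub S q` (`fc_all_mem`;
`apos` gives `a i j ∈ q`), so by `cba` there is `u` with `IsInf q r S u`; `fc_ex` (`Df1.of_sat` with
`fInf 1 2 3 0`) gives a name `m s`. `Le (m s) (a x)` for `x ∈ s`: `a x ∈ S` (`val_le_bMem`). Last part: let
`U.S b`, `v = cls y`, with `Le v (a x)` for all `x ∈ s`. Let `β = b ⊓ ⨅ x ∈ s, bLe r y (a x)`; `U.S β`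
(`S_iInf_finset`, `S_bLe`). `fc_all_mem` for the name `S`, the condition `β` and `Φ U' m := Le (cls' y) m`
(`Df1.rel_right`) gives: `Le v m` for all `m ∈ S`; so `Le v (m s)` by `IsInf`.
-/

set_option autoImplicit false

namespace Pool.Agent.BPF

open Pool.Agent.Lib.BVM BSet

variable {B : Type} [CompleteBooleanAlgebra B] {Ω : Type} [LinearOrder Ω] [WellFoundedLT Ω]

theorem exists_mt (D : DatA B Ω) : ∃ m : Finset (Ω × Ω) → BSet B, IsMt D m := by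
  have key : ∀ s : Finset (Ω × Ω), ∃ m : BSet B, Fc D.b (fun U => U.E (U.cls m) (U.cls D.q) ∧
    (∀ x ∈ s, Le U.E (U.cls D.r) (U.cls m) (U.cls (D.a x.1 x.2))) ∧
    ∀ v, U.E v (U.cls D.q) → (∀ x ∈ s, Le U.E (U.cls D.r) v (U.cls (D.a x.1 x.2))) →
      Le U.E (U.cls D.r) v (U.cls m)) := by
    intro s
    let S : BSet B := BSet.mk {x // x ∈ s} (fun x => D.a x.1.1 x.1.2) (fun _ => ⊤)
    have hS : Fc D.b (fun U => Sub U.E (U.cls S) (U.cls D.q)) :=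
      fc_all_mem (Df1.mem_left D.q) S (fun x U hU _ => (D.apos x.1.1 x.1.2 U hU).1)
    have hmem : ∀ x ∈ s, ∀ U : Ult B, U.E (U.cls (D.a x.1 x.2)) (U.cls S) := by
      intro x hx U
      rw [mem_iff]
      exact Ult.mono U (val_le_bMem S ⟨x, hx⟩) U.top'
    have d1 : Df1 (fun (U : Ult B) m => IsInf U.E (U.cls D.q) (U.cls D.r) (U.cls S) m) :=
      Df1.of_sat (fInf 1 2 3 0) (scons D.q (scons D.r (fun _ => S)))
    obtain ⟨m, hm⟩ := fc_ex d1 (p := D.b) (fun U hU => ((D.cba U hU).2.1 _ (hS U hU)).2)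
    refine ⟨m, fun U hU => ⟨(hm U hU).1, fun x hx => (hm U hU).2.1 _ (hmem x hx U), ?_⟩⟩
    intro v hv hvs
    obtain ⟨y, rfl⟩ := U.exists_cls v
    refine (hm U hU).2.2 _ hv ?_
    have h1 : U.S (D.b ⊓ ⨅ x ∈ s, bLe D.r y (D.a x.1 x.2)) := by
      rw [U.inf_iff, S_iInf_finset]
      exact ⟨hU, fun x hx => (S_bLe U _ _ _).2 (hvs x hx)⟩
    exact fc_all_mem (p := D.b ⊓ ⨅ x ∈ s, bLe D.r y (D.a x.1 x.2)) (Df1.rel_right D.r y) S
      (fun x U' hU' _ => by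
        rw [U'.inf_iff, S_iInf_finset] at hU'
        exact (S_bLe U' _ _ _).1 (hU'.2 x.1 x.2)) U h1
  choose m hm using key
  exact ⟨m, hm⟩

end Pool.Agent.BPF
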