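import Mathlib
import Pool.Agent.Lib.MP_11349d_lc.V.Dfs

/-!
# Module Dns: dense sets of conditions (est. 90 lines)

Proof. `EE_dense`: let `p` be a condition. If `p ⊓ b = ⊥` then `p ≤ bᶜ`. Otherwise replace `p` by `p ⊓ b`. Decide
`Pos t` (`fc_decide`). If `p' ≤ p` forces `Pos t`, then it forces `t ∈ q ∧ t = t`, so by `fc_ex_mem` for the name `q`
(`Φ U m := m = cls t`, `Df1.eq`) some `p'' ≤ p'` forces `q.fn k = t`, and then `Pos (q.fn k)`.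
`HH_dense`: decide `q.fn k ∈ dn S` (`fc_decide`; `Df1.mem_left`). If `p' ≤ p` forces it, then by `fc_ex_mem` for the name
`dn S` (`Φ U m := m = cls (q.fn k)`) some `p'' ≤ p'` is below a weight `p3`, `sm p3 k3 _ ∈ S`, and forces
`q.fn k3 = q.fn k`. `D0_dense`: if `p ⊓ b ≠ ⊥` take `p ⊓ b`. Otherwise there is `s ∈ S` with `s ≤ nn p`;
`s = nn p'` with `p' ≤ p`, as `s = sm p' k h` would give `p' ≤ b` and `p' ≤ p`, so `p' ≤ p ⊓ b = ⊥`.
-/

set_option autoImplicit false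

namespace Pool.Agent.BPF

open Pool.Agent.Lib.BVM BSet

variable {B : Type} [CompleteBooleanAlgebra B]

private theorem df0_pos (D : DatP B) (t : BSet B) :
    Df0 (fun U => Pos U.E (U.cls D.q) (U.cls D.r) (U.cls t)) :=
  Df0.of_sat (fPos 0 1 2) (fun n => match n with
    | 0 => D.q
    | 1 => D.r
    | _ => t)

private theorem le_compl_of {p b : B} (h : p ⊓ b = ⊥) : p ≤ bᶜ :=
  le_compl_iff_disjoint_right.2 (disjoint_iff.2 h)

theorem EE_dense (D : DatP B) (t : BSet B) : Dns (EE D t) := by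
  intro p
  by_cases h0 : p.1 ⊓ D.b = ⊥
  · exact ⟨p, Or.inl (le_compl_of h0), le_rfl⟩
  · obtain ⟨p', hp', hp0, h1 | h1⟩ := fc_decide h0 (df0_pos D t)
    · obtain ⟨r, hr, hr0, i, -, h2⟩ := fc_ex_mem hp0 (Df1.eq t) D.q
        (fun U hU => ⟨U.cls t, (h1 U hU).1, rfl⟩)
      refine ⟨⟨r, hr0⟩, Or.inr (Or.inr ⟨i, ⟨hr.trans (hp'.trans inf_le_right), fun U hU => ?_⟩,
        fun U hU => (h2 U hU).symm⟩), hr.trans (hp'.trans inf_le_left)⟩
      have h3 := h1 U (Ult.mono U hr hU)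
      have h4 : U.cls (D.q.fn i) = U.cls t := h2 U hU
      show Pos U.E (U.cls D.q) (U.cls D.r) (U.cls (D.q.fn i))
      rw [h4]
      exact h3
    · exact ⟨⟨p', hp0⟩, Or.inr (Or.inl h1), hp'.trans inf_le_left⟩

theorem HH_dense (D : DatP B) (S : Set D.A) (k : D.q.Idx) : Dns (HH D S k) := by
  intro p
  obtain ⟨p', hp', hp0, h1 | h1⟩ := fc_decide p.2 ((Df1.mem_left (D.dn S)).df0 (D.q.fn k))
  · obtain ⟨r, hr, hr0, ⟨⟨p3, k3⟩, h, hS⟩, h3, h2⟩ := fc_ex_mem hp0 (Df1.eq (D.q.fn k)) (D.dn S)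
      (fun U hU => ⟨U.cls (D.q.fn k), h1 U hU, rfl⟩)
    exact ⟨⟨r, hr0⟩, Or.inl ⟨p3, k3, h, hS, h3, h2⟩, hr.trans hp'⟩
  · exact ⟨⟨p', hp0⟩, Or.inr h1, hp'⟩

theorem D0_dense (D : DatP B) {S : Set D.A} (hS : Dns S) : Dns (D0 D S) := by
  intro p
  by_cases h0 : p.1 ⊓ D.b = ⊥
  · obtain ⟨s, hs, hsp⟩ := hS (VDat.A.nn p)
    have hle : s.p ≤ p := VDat.le_nn.1 hsp
    rcases s.cases with h | ⟨k, h, e⟩
    · refine ⟨s.p, Or.inl ⟨?_, h ▸ hs⟩, hle⟩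
      exact le_trans (show s.p.1 ≤ p.1 from hle) (le_compl_of h0)
    · exfalso
      apply s.p.2
      exact le_bot_iff.1 ((le_inf (show s.p.1 ≤ p.1 from hle) h.1).trans h0.le)
  · exact ⟨⟨p.1 ⊓ D.b, h0⟩, Or.inr inf_le_right, inf_le_left⟩

end Pool.Agent.BPF
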