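import Mathlib
import Pool.Agent.Lib.MP_11349d_lc.V.Dns

/-!
# Module Dlt: the conditions in `N[G] ∩ (q ∪ P(q))` are given by elements of `N` (est. 60 lines)

Proof. `q' ≤ b`, `q'` forces `t ∈ u`, so `q' ≤ b ⊓ bMem t u`; by `exists_inf_ne` twice there are `l` (with
elements in `N`) and `n` with `q'' = q' ⊓ bEq t (e l n) ≠ ⊥`. The set `EE (e l n)` is dense and
`inr (ext.e '' EE (e l n)) ∈ N` (`VNice.n1`), so by `GenB` there is `p ∈ EE (e l n)` with `inl (ext.e p) ∈ N`,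
compatible with `q''`: let `r ≤ p, q''`. As `r ≤ b` forces `Pos t` and `t = e l n`, only the third alternative of
`EE` is possible (`exists_ult` for `r`). `VNice.n2` gives `k` with `inl (sm p k h) ∈ N` and `p` forces
`e l n = q.fn k`. So `r` forces `t = q.fn k`, and `r ≤ p`.
-/

set_option autoImplicit false

namespace Pool.Agent.BPF

open Pool.Agent.Lib.BVM BSet

variable {B : Type} [CompleteBooleanAlgebra B]

theorem decide_elem (D : DatP B) {e : List (D.A ⊕ Set D.A) → ℕ → BSet B}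
    {N : Set (D.A ⊕ Set D.A)} (hN : VNice D e N) {u : BSet B}
    (hu : ∀ t, D.b ⊓ bMem t u ≤ ⨆ l : {l : List (D.A ⊕ Set D.A) // ∀ x ∈ l, x ∈ N}, ⨆ n,
      bEq t (e l.1 n)) {q0 : Pp B} (hG : D.ext.GenB N q0) (hb : q0.1 ≤ D.b) {q' : Pp B}
    (hq : q' ≤ q0) {t : BSet B} (ht : Fc q'.1 (fun U => U.E (U.cls t) (U.cls u)))
    (hP : Fc q'.1 (fun U => Pos U.E (U.cls D.q) (U.cls D.r) (U.cls t))) :
    ∃ r ≤ q', ∃ (p : Pp B) (k : D.q.Idx) (h : D.ok p.1 k), Sum.inl (VDat.A.sm p k h) ∈ N ∧ r ≤ p ∧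
      Fc r.1 (fun U => U.cls t = U.cls (D.q.fn k)) := by
  have hqq : q'.1 ≤ q0.1 := hq
  have h1 : q'.1 ≤ D.b ⊓ bMem t u := by
    refine le_inf (hqq.trans hb) (le_of_forall_ult fun U hU => ?_)
    exact (mem_iff U t u).1 (ht U hU)
  obtain ⟨l, hl⟩ := exists_inf_ne q'.2 (h1.trans (hu t))
  obtain ⟨n, hn⟩ := exists_inf_ne hl inf_le_right
  have hn' : q'.1 ⊓ bEq t (e l.1 n) ≠ ⊥ := by
    intro h0
    apply hn
    exact le_bot_iff.1 ((inf_le_inf_right _ inf_le_left).trans h0.le)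
  obtain ⟨p, hpE, hpN, r, hrp, hrq⟩ := hG (EE D (e l.1 n)) (hN.n1 l.1 l.2 n)
    (EE_dense D (e l.1 n)) ⟨q'.1 ⊓ bEq t (e l.1 n), hn'⟩
    (show q'.1 ⊓ bEq t (e l.1 n) ≤ q0.1 from inf_le_left.trans hqq)
  have hrq1 : r.1 ≤ q'.1 ⊓ bEq t (e l.1 n) := hrq
  have hrp1 : r.1 ≤ p.1 := hrp
  have hrq' : r.1 ≤ q'.1 := hrq1.trans inf_le_left
  have hrb : r.1 ≤ D.b := hrq'.trans (hqq.trans hb)
  have heq : Fc r.1 (fun U => U.cls t = U.cls (e l.1 n)) := fun U hU =>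
    (U.cls_eq_iff t (e l.1 n)).2 (Ult.mono U (hrq1.trans inf_le_right) hU)
  have hpos : Fc r.1 (fun U => Pos U.E (U.cls D.q) (U.cls D.r) (U.cls (e l.1 n))) := by
    intro U hU
    have h2 := hP U (Ult.mono U hrq' hU)
    have h3 : U.cls t = U.cls (e l.1 n) := heq U hU
    show Pos U.E (U.cls D.q) (U.cls D.r) (U.cls (e l.1 n))
    rw [← h3]
    exact h2
  have h3 : ∃ k, D.ok p.1 k ∧ Fc p.1 (fun U => U.cls (e l.1 n) = U.cls (D.q.fn k)) := by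
    rcases hpE with h | h | h
    · exfalso
      apply r.2
      rw [← le_bot_iff]
      calc r.1 ≤ D.b ⊓ D.bᶜ := le_inf hrb (hrp1.trans h)
        _ = ⊥ := inf_compl_eq_bot
    · exfalso
      obtain ⟨U, hU⟩ := exists_ult r.2
      exact h U (Ult.mono U hrp1 hU) (hpos U hU)
    · exact h
  obtain ⟨k, h, h4, h5⟩ := hN.n2 l.1 l.2 n p hpN h3
  refine ⟨r, hrq', p, k, h, h5, hrp, fun U hU => ?_⟩
  have e1 : U.cls t = U.cls (e l.1 n) := heq U hU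
  have e2 : U.cls (e l.1 n) = U.cls (D.q.fn k) := h4 U (Ult.mono U hrp1 hU)
  exact e1.trans e2

end Pool.Agent.BPF
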