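import Mathlib
import Pool.Agent.Lib.MP_11349d_lc.V.Dfs

/-!
# Module Dnf: the subsets `dn S` of `q` (est. 70 lines)

Proof. `dn_pos`: `fc_all_mem` for the name `dn S`: its generators are the `q.fn k` with weight `p`,
`sm p k h ∈ S`, and `h.2`. `mem_dn`: `val_le_bMem`. `dn_dense`: let `x` be a condition of `q`; `IsDense` is a
formula; for the second part, by `fc_all_mem` for the name `q` with
`Φ U m := Pos m → ∃ y ∈ dn S, Le y m` (`Df1.of_sat`) it is enough to treat `m = q.fn k`: show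
`Fc b (q.val k → Pos (q.fn k) → ∃ y ∈ dn S, Le y (q.fn k))`. By `fc_dense` (`Φ` has a Boolean value,
`Df1.df0`): let `p' ≤ b`, `p' ≠ ⊥`. `fc_decide` for `Pos (q.fn k)`: if `p''` forces `¬ Pos` we are done. Otherwise
`sm p'' k _` is an element of `A`, so there is `s ∈ S`, `s ≤ sm p'' k _`; by `A.cases` and
`not_nn_le_sm`, `s = sm p3 k3 _`, `p3 ≤ p''`, `lek p3 k3 k`, and `p3` forces `q.fn k3 ∈ dn S` (`mem_dn`).
(`IsDense` itself: `⟨dn_pos, _⟩`.)
-/

set_option autoImplicit false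

namespace Pool.Agent.BPF

open Pool.Agent.Lib.BVM BSet

variable {B : Type} [CompleteBooleanAlgebra B]

private theorem df1_pos (D : VDat B) :
    Df1 (fun U m => Pos U.E (U.cls D.q) (U.cls D.r) m) :=
  Df1.of_sat (fPos 1 2 0) (scons D.q fun _ => D.r)

theorem dn_pos (D : VDat B) (S : Set D.A) : Fc (⊤ : B) (fun U => ∀ m, U.E m (U.cls (D.dn S)) →
    Pos U.E (U.cls D.q) (U.cls D.r) m) := by
  refine fc_all_mem (df1_pos D) (D.dn S) fun i U _ hi => ?_
  obtain ⟨⟨p, k⟩, h, hS⟩ := i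
  exact h.2 U hi

theorem mem_dn (D : VDat B) {S : Set D.A} {p : Pp B} {k : D.q.Idx} {h : D.ok p.1 k}
    (hS : VDat.A.sm p k h ∈ S) : Fc p.1 (fun U => U.E (U.cls (D.q.fn k)) (U.cls (D.dn S))) := by
  intro U hU
  exact Ult.mono U (val_le_bMem (D.dn S) ⟨(p, k), h, hS⟩) hU

theorem dn_dense (D : VDat B) {S : Set D.A} (hS : Dns S) :
    Fc D.b (fun U => IsDense U.E (U.cls D.q) (U.cls D.r) (U.cls (D.dn S))) := by
  have hex : Df1 (fun U m => ∃ y, U.E y (U.cls (D.dn S)) ∧ Le U.E (U.cls D.r) y m) :=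
    Df1.of_sat (.ex (.and (.mem 0 2) (fRel 3 0 1))) (scons (D.dn S) fun _ => D.r)
  have himp := (df1_pos D).imp hex
  have key : Fc D.b (fun U => ∀ m, U.E m (U.cls D.q) → Pos U.E (U.cls D.q) (U.cls D.r) m →
      ∃ y, U.E y (U.cls (D.dn S)) ∧ Le U.E (U.cls D.r) y m) := by
    refine fc_all_mem himp D.q fun i => ?_
    refine fc_dense ((Df0.of_S (D.q.val i)).imp (himp.df0 (D.q.fn i))) fun p' hp' hp0 => ?_
    obtain ⟨p'', h1, h2, h3 | h3⟩ := fc_decide hp0 ((df1_pos D).df0 (D.q.fn i))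
    · have hok : D.ok p'' i := ⟨h1.trans hp', h3⟩
      obtain ⟨s, hs, hle⟩ := hS (VDat.A.sm ⟨p'', h2⟩ i hok)
      rcases VDat.A.cases s with h4 | ⟨k, h5, h4⟩
      · rw [h4] at hle
        exact absurd hle VDat.not_nn_le_sm
      · rw [h4] at hle hs
        obtain ⟨h6, h7⟩ := VDat.sm_le_sm.1 hle
        have h8 : s.p.1 ≤ p'' := h6
        exact ⟨s.p.1, h8.trans h1, s.p.2, fun U hU _ _ =>
          ⟨_, mem_dn D hs U hU, h7 U hU⟩⟩
    · exact ⟨p'', h1, h2, fun U hU _ hpos => absurd hpos (h3 U hU)⟩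
  intro U hU
  exact ⟨fun m hm => dn_pos D S U (S_top U) m hm, fun m hm => key U hU m hm.1 hm⟩

end Pool.Agent.BPF
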