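import Mathlib
import Pool.Agent.Lib.MP_11349d_lc.V.Dlt
import Pool.Agent.Lib.MP_11349d_lc.V.Dnf

/-!
# Module Gno: generic conditions below `b` (est. 150 lines)

Proof. By `hg` (`PG`), `q0` forces that there is `m` with `Pos m`, `Le m x'`, `IsGen q r u m`. As `m ∈ q`,
`fc_ex_mem` for the name `q` (`Φ` is `Df1` by `Df1.of_sat`) gives `q1 ≤ q0` and `k'` with `q1` forces
`Pos (q.fn k')`, `Le (q.fn k') x'`, `IsGen q r u (q.fn k')`. Let `inr S ∈ N`, `Dns S`, `r' ≤ sm q1 k' _`. By `A.cases`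
and `not_nn_le_sm`, `r' = sm q2 k2 _`, `q2 ≤ q1`, `lek q2 k2 k'` (`sm_le_sm`). `b` forces that `dn S` is dense (`dn_dense`) and
`dn S ∈ u` (`hv` for `inr S`, weight `⊤`). So `q2` forces: there is `y ∈ dn S` with `y ∈ u` and `Comp y (q.fn k2)`.
`fc_ex_mem` for the name `dn S`: `r3 ≤ q2`, `sm p3 k3 h3 ∈ S`, `r3 ≤ p3`, `r3` forces `q.fn k3 ∈ u` and
`Comp (q.fn k3) (q.fn k2)`. `decide_elem` for `t = q.fn k3`: `r4 ≤ r3`, `inl (sm p4 k4 h4) ∈ N`, `r4 ≤ p4`, `r4` forces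
`q.fn k3 = q.fn k4`. `VNice.n3`: `inr (ext.e '' HH S k4) ∈ N`; by `HH_dense` and `GenB` there is `h ∈ HH S k4` with
`inl (ext.e h) ∈ N` and `r5 ≤ h, r4`. The second alternative of `HH` is impossible: `r5` forces
`q.fn k4 = q.fn k3 ∈ dn S` (`mem_dn`). So by `VNice.n4` there is `sm p6 k6 h6 ∈ S`, `h ≤ p6`,
`inl (sm p6 k6 h6) ∈ N`, `h` forces `q.fn k6 = q.fn k4`. So `r5` forces `Comp (q.fn k6) (q.fn k2)`, and `fc_ex_mem` for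
the name `q` gives `r7 ≤ r5` and `k7` with `sm r7 k7 _ ≤ sm p6 k6 _` and `sm r7 k7 _ ≤ sm q2 k2 _`.
-/

set_option autoImplicit false

namespace Pool.Agent.BPF

open Pool.Agent.Lib.BVM BSet

variable {B : Type} [CompleteBooleanAlgebra B]

private theorem df1_gen (D : DatP B) (x' u : BSet B) :
    Df1 (fun U m => Pos U.E (U.cls D.q) (U.cls D.r) m ∧ Le U.E (U.cls D.r) m (U.cls x') ∧
      IsGen U.E (U.cls D.q) (U.cls D.r) (U.cls u) m) :=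
  Df1.of_sat (.and (fPos 1 2 0) (.and (fRel 2 0 3) (fGen 1 2 4 0))) (fun n => match n with
    | 0 => D.q
    | 1 => D.r
    | 2 => x'
    | _ => u)

private theorem df1_cmp (D : DatP B) (u y : BSet B) :
    Df1 (fun U m => U.E m (U.cls u) ∧ Comp U.E (U.cls D.q) (U.cls D.r) m (U.cls y)) :=
  Df1.of_sat (.and (.mem 0 3) (fComp 1 2 0 4)) (fun n => match n with
    | 0 => D.q
    | 1 => D.r
    | 2 => u
    | _ => y)

private theorem df1_low (D : DatP B) (x y : BSet B) :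
    Df1 (fun U m => Pos U.E (U.cls D.q) (U.cls D.r) m ∧ Le U.E (U.cls D.r) m (U.cls x) ∧
      Le U.E (U.cls D.r) m (U.cls y)) :=
  Df1.of_sat (.and (fPos 1 2 0) (.and (fRel 2 0 3) (fRel 2 0 4))) (fun n => match n with
    | 0 => D.q
    | 1 => D.r
    | 2 => x
    | _ => y)

private theorem genA_aux (D : DatP B) {e : List (D.A ⊕ Set D.A) → ℕ → BSet B}
    {N : Set (D.A ⊕ Set D.A)} (hN : VNice D e N) {u : BSet B}
    (hu : ∀ t, D.b ⊓ bMem t u ≤ ⨆ l : {l : List (D.A ⊕ Set D.A) // ∀ x ∈ l, x ∈ N}, ⨆ n,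
      bEq t (e l.1 n))
    (hv : ∀ a ∈ N, Fc (D.b ⊓ D.wt a) (fun U => U.E (U.cls (D.nm a)) (U.cls u)))
    {q0 : Pp B} (hG : D.ext.GenB N q0) (hb : q0.1 ≤ D.b) {q1 : Pp B} (h10 : q1 ≤ q0)
    {k : D.q.Idx} (h : D.ok q1.1 k)
    (hgen : Fc q1.1 (fun U => IsGen U.E (U.cls D.q) (U.cls D.r) (U.cls u) (U.cls (D.q.fn k)))) :
    GenA N (VDat.A.sm q1 k h) := by
  intro S hSN hS r' hr'
  have hq10 : q1.1 ≤ q0.1 := h10
  rcases r'.cases with e' | ⟨k2, hk2, e'⟩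
  · rw [e'] at hr'
    exact absurd hr' VDat.not_nn_le_sm
  generalize r'.p = q2 at hk2 e'
  subst e'
  obtain ⟨h21, hlek⟩ := VDat.sm_le_sm.1 hr'
  have hq21 : q2.1 ≤ q1.1 := h21
  have hq2b : q2.1 ≤ D.b := hq21.trans (hq10.trans hb)
  have hSu : Fc D.b (fun U => U.E (U.cls (D.dn S)) (U.cls u)) :=
    (hv (Sum.inr S) hSN).mono (le_inf le_rfl le_top)
  have h1 : Fc q2.1 (fun U => ∃ m, U.E m (U.cls (D.dn S)) ∧ (U.E m (U.cls u) ∧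
      Comp U.E (U.cls D.q) (U.cls D.r) m (U.cls (D.q.fn k2)))) := by
    intro U hU
    have hUb : U.S D.b := Ult.mono U hq2b hU
    exact hgen U (Ult.mono U hq21 hU) (U.cls (D.dn S)) (hSu U hUb) (dn_dense D.toVDat hS U hUb)
      (U.cls (D.q.fn k2)) (hk2.2 U hU) (hlek U hU)
  obtain ⟨r3, hr3, hr30, ⟨⟨p3, k3⟩, h3, hS3⟩, hr3p, hF3⟩ :=
    fc_ex_mem q2.2 (df1_cmp D u (D.q.fn k2)) (D.dn S) h1
  have hr3p' : r3 ≤ p3.1 := hr3p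
  have hF3' : Fc r3 (fun U => U.E (U.cls (D.q.fn k3)) (U.cls u) ∧
      Comp U.E (U.cls D.q) (U.cls D.r) (U.cls (D.q.fn k3)) (U.cls (D.q.fn k2))) := hF3
  have hr3q0 : r3 ≤ q0.1 := hr3.trans (hq21.trans hq10)
  obtain ⟨r4, hr4, p4, k4, h4, hN4, hr4p, hF4⟩ := decide_elem D hN hu hG hb
    (q' := ⟨r3, hr30⟩) (show r3 ≤ q0.1 from hr3q0) (t := D.q.fn k3)
    (fun U hU => (hF3' U hU).1) (h3.2.mono hr3p')
  have hr43 : r4.1 ≤ r3 := hr4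
  obtain ⟨h5, h5H, h5N, r5, hr5h, hr54⟩ := hG (HH D S k4) (hN.n3 S p4 k4 h4 hSN hN4)
    (HH_dense D S k4) r4 (show r4.1 ≤ q0.1 from hr43.trans hr3q0)
  have hr5h' : r5.1 ≤ h5.1 := hr5h
  have hr54' : r5.1 ≤ r4.1 := hr54
  have hr53 : r5.1 ≤ r3 := hr54'.trans hr43
  have h5a : ∃ p3 k3 h, VDat.A.sm p3 k3 h ∈ S ∧ h5 ≤ p3 ∧
      Fc h5.1 (fun U => U.cls (D.q.fn k3) = U.cls (D.q.fn k4)) := by
    rcases h5H with h' | h'
    · exact h'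
    · exfalso
      obtain ⟨U, hU⟩ := exists_ult r5.2
      apply h' U (Ult.mono U hr5h' hU)
      have e1 : U.cls (D.q.fn k3) = U.cls (D.q.fn k4) := hF4 U (Ult.mono U hr54' hU)
      have e2 : U.E (U.cls (D.q.fn k3)) (U.cls (D.dn S)) :=
        mem_dn D.toVDat hS3 U (Ult.mono U (hr53.trans hr3p') hU)
      rw [← e1]
      exact e2
  obtain ⟨p6, k6, h6, hS6, h56, hF6, hN6⟩ := hN.n4 S p4 k4 h4 h5 hSN hN4 h5N h5a
  have h56' : h5.1 ≤ p6.1 := h56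
  have hc5 : Fc r5.1 (fun U => ∃ m, U.E m (U.cls D.q) ∧ (Pos U.E (U.cls D.q) (U.cls D.r) m ∧
      Le U.E (U.cls D.r) m (U.cls (D.q.fn k6)) ∧ Le U.E (U.cls D.r) m (U.cls (D.q.fn k2)))) := by
    intro U hU
    have e1 : U.cls (D.q.fn k3) = U.cls (D.q.fn k4) := hF4 U (Ult.mono U hr54' hU)
    have e2 : U.cls (D.q.fn k6) = U.cls (D.q.fn k4) := hF6 U (Ult.mono U hr5h' hU)
    obtain ⟨z, hz, hz1, hz2⟩ := (hF3' U (Ult.mono U hr53 hU)).2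
    rw [e1, ← e2] at hz1
    exact ⟨z, hz.1, hz, hz1, hz2⟩
  obtain ⟨r7, hr7, hr70, k7, -, hF7⟩ := fc_ex_mem r5.2
    (df1_low D (D.q.fn k6) (D.q.fn k2)) D.q hc5
  have hF7' : Fc r7 (fun U => Pos U.E (U.cls D.q) (U.cls D.r) (U.cls (D.q.fn k7)) ∧
      Le U.E (U.cls D.r) (U.cls (D.q.fn k7)) (U.cls (D.q.fn k6)) ∧
      Le U.E (U.cls D.r) (U.cls (D.q.fn k7)) (U.cls (D.q.fn k2))) := hF7
  have hr7q2 : r7 ≤ q2.1 := hr7.trans (hr53.trans hr3)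
  have hok7 : D.ok r7 k7 := ⟨hr7q2.trans hq2b, fun U hU => (hF7' U hU).1⟩
  refine ⟨VDat.A.sm p6 k6 h6, hS6, hN6, VDat.A.sm ⟨r7, hr70⟩ k7 hok7, ?_, ?_⟩
  · exact VDat.sm_le_sm.2 ⟨hr7.trans (hr5h'.trans h56'), fun U hU => (hF7' U hU).2.1⟩
  · exact VDat.sm_le_sm.2 ⟨hr7q2, fun U hU => (hF7' U hU).2.2⟩

theorem gen_below (D : DatP B) {e : List (D.A ⊕ Set D.A) → ℕ → BSet B}
    {N : Set (D.A ⊕ Set D.A)} (hN : VNice D e N) {u : BSet B}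
    (hu : ∀ t, D.b ⊓ bMem t u ≤ ⨆ l : {l : List (D.A ⊕ Set D.A) // ∀ x ∈ l, x ∈ N}, ⨆ n,
      bEq t (e l.1 n))
    (hc : Fc D.b (fun U => U.E (U.cls u) (U.cls D.c)))
    (hv : ∀ a ∈ N, Fc (D.b ⊓ D.wt a) (fun U => U.E (U.cls (D.nm a)) (U.cls u)))
    {q0 : Pp B} (hG : D.ext.GenB N q0) (hb : q0.1 ≤ D.b) {x' : BSet B}
    (hx : Fc q0.1 (fun U => Pos U.E (U.cls D.q) (U.cls D.r) (U.cls x')))
    (hxu : Fc q0.1 (fun U => U.E (U.cls x') (U.cls u))) :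
    ∃ q1 ≤ q0, ∃ (k : D.q.Idx) (h : D.ok q1.1 k),
      Fc q1.1 (fun U => Le U.E (U.cls D.r) (U.cls (D.q.fn k)) (U.cls x')) ∧
      GenA N (VDat.A.sm q1 k h) := by
  have h1 : Fc q0.1 (fun U => ∃ m, U.E m (U.cls D.q) ∧ (Pos U.E (U.cls D.q) (U.cls D.r) m ∧
      Le U.E (U.cls D.r) m (U.cls x') ∧
      IsGen U.E (U.cls D.q) (U.cls D.r) (U.cls u) m)) := by
    intro U hU
    have hUb : U.S D.b := Ult.mono U hb hU
    obtain ⟨m, hm, hm1, hm2⟩ := D.hg U hUb (U.cls u) (hc U hUb) (U.cls x') (hx U hU) (hxu U hU)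
    exact ⟨m, hm.1, hm, hm1, hm2⟩
  obtain ⟨r1, hr1, hr10, k, -, hF⟩ := fc_ex_mem q0.2 (df1_gen D x' u) D.q h1
  have hF' : Fc r1 (fun U => Pos U.E (U.cls D.q) (U.cls D.r) (U.cls (D.q.fn k)) ∧
      Le U.E (U.cls D.r) (U.cls (D.q.fn k)) (U.cls x') ∧
      IsGen U.E (U.cls D.q) (U.cls D.r) (U.cls u) (U.cls (D.q.fn k))) := hF
  have hok : D.ok r1 k := ⟨hr1.trans hb, fun U hU => (hF' U hU).1⟩
  refine ⟨⟨r1, hr10⟩, hr1, k, hok, fun U hU => (hF' U hU).2.1, ?_⟩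
  exact genA_aux D hN hu hv hG hb (q1 := ⟨r1, hr10⟩) hr1 hok fun U hU => (hF' U hU).2.2

end Pool.Agent.BPF
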