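import Mathlib
import Pool.Agent.Lib.MP_11349d_lc.V.Dns

/-!
# Module Gnt: generic conditions outside `b` (est. 50 lines)

Proof. Let `inr S ∈ N`, `Dns S`, `r' ≤ nn q0`. `r' = nn q2` with `q2 ≤ q0`: `r' = sm q2 k h` would give `q2 ≤ b`
(`h.1`) and `q2 ≤ q0 ≤ bᶜ`. `inr (ext.e '' D0 S) ∈ N` (`VNice.n5`), `D0 S` is dense, so by `GenB` there is `d ∈ D0 S`,
`inl (ext.e d) ∈ N`, `r ≤ d, q2`. `d ≤ b` is impossible (`r ≤ b ⊓ bᶜ`), so `nn d ∈ S`, and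
`inl (nn d) = inl (ext.e d) ∈ N`; `nn r` is below `nn d` and `nn q2`.
-/

set_option autoImplicit false

namespace Pool.Agent.BPF

open Pool.Agent.Lib.BVM BSet

variable {B : Type} [CompleteBooleanAlgebra B]

private theorem gnt_absurd (D : DatP B) {r : Pp B} (h1 : r.1 ≤ D.b) (h2 : r.1 ≤ D.bᶜ) : False := by
  apply r.2
  exact le_bot_iff.1 ((le_inf h1 h2).trans (inf_compl_eq_bot (a := D.b)).le)

theorem gen_outside (D : DatP B) {e : List (D.A ⊕ Set D.A) → ℕ → BSet B}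
    {N : Set (D.A ⊕ Set D.A)} (hN : VNice D e N) {q0 : Pp B} (hG : D.ext.GenB N q0)
    (hb : q0.1 ≤ D.bᶜ) : GenA N (VDat.A.nn q0 : D.A) := by
  intro S hS hD r' hr'
  rcases VDat.A.cases r' with hc | ⟨k, h, hc⟩
  · have h1 : r'.p ≤ q0 := hr'.1
    obtain ⟨d, hd, hdN, r, hr1, hr2⟩ := hG (D0 D S) (hN.n5 S hS) (D0_dense D hD) r'.p h1
    have hrb : r.1 ≤ D.bᶜ := le_trans (le_trans hr2 h1) hb
    rcases hd with ⟨_, hd2⟩ | hd2
    · refine ⟨VDat.A.nn d, hd2, hdN, VDat.A.nn r, ?_, ?_⟩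
      · exact VDat.le_nn.2 hr1
      · rw [hc]
        exact VDat.le_nn.2 hr2
    · exact (gnt_absurd D (le_trans hr1 hd2) hrb).elim
  · have h1 : r'.p ≤ q0 := hr'.1
    exact (gnt_absurd D h.1 (le_trans h1 hb)).elim

end Pool.Agent.BPF
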