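import Mathlib
import Pool.Agent.Lib.MP_11349d_lc.Ifc

/-!
# Module Clo: the countable sets closed under countably many operations are a club (est. 70 lines)

Proof. `cnt` is clear. `unb`: for a countable `x` let `c 0 = x`, `c (n+1) = c n ∪ {F i l | l a list of elements of
c n}`; all are countable (the lists of elements of a countable set are countable), and the union is closed:
a list has finitely many elements, so all are in some `c n` (`c` is monotone). `cls`: the same argument.
-/

set_option autoImplicit false

namespace Pool.Agent.BPF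

private theorem list_mem_union {V : Type} (c : ℕ → Set V) (hc : ∀ n, c n ⊆ c (n + 1)) (l : List V)
    (hl : ∀ x ∈ l, x ∈ ⋃ n, c n) : ∃ n, ∀ x ∈ l, x ∈ c n := by
  have hm : Monotone c := monotone_nat_of_le_succ hc
  induction l with
  | nil => exact ⟨0, by simp⟩
  | cons a l ih =>
    obtain ⟨n, hn⟩ := ih fun x hx => hl x (List.mem_cons_of_mem _ hx)
    obtain ⟨m, hm'⟩ := Set.mem_iUnion.mp (hl a List.mem_cons_self)
    refine ⟨max n m, fun x hx => ?_⟩
    rcases List.mem_cons.mp hx with rfl | hx
    · exact hm (le_max_right n m) hm'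
    · exact hm (le_max_left n m) (hn x hx)

private theorem countable_lists {V : Type} {s : Set V} (hs : s.Countable) :
    {l : List V | ∀ x ∈ l, x ∈ s}.Countable := by
  have : {l : List V | ∀ x ∈ l, x ∈ s} ⊆ Set.range (fun l : List s => l.map Subtype.val) := by
    intro l hl
    refine ⟨l.pmap (fun x hx => ⟨x, hx⟩) hl, ?_⟩
    simp [List.map_pmap]
  have hc : Countable s := hs.to_subtype
  exact (Set.countable_range _).mono this

theorem isClub_closed {V ι : Type} [Countable ι] (F : ι → List V → V) :
    IsClub {N : Set V | N.Countable ∧ ∀ i, ∀ l : List V, (∀ x ∈ l, x ∈ N) → F i l ∈ N} := by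
  refine ⟨fun c hc => hc.1, fun x hx => ?_, fun c hc hmono => ?_⟩
  · -- unbounded
    let step : Set V → Set V := fun s => s ∪ ⋃ i, F i '' {l : List V | ∀ y ∈ l, y ∈ s}
    let c : ℕ → Set V := fun n => Nat.rec x (fun _ s => step s) n
    have hsucc : ∀ n, c (n + 1) = step (c n) := fun n => rfl
    have hcount : ∀ n, (c n).Countable := by
      intro n
      induction n with
      | zero => exact hx
      | succ n ih =>
        rw [hsucc]
        exact ih.union (Set.countable_iUnion fun i => (countable_lists ih).image _)
    have hmono : ∀ n, c n ⊆ c (n + 1) := by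
      intro n
      rw [hsucc]
      exact Set.subset_union_left
    refine ⟨⋃ n, c n, ⟨Set.countable_iUnion hcount, fun i l hl => ?_⟩, ?_⟩
    · obtain ⟨n, hn⟩ := list_mem_union c hmono l hl
      refine Set.mem_iUnion.mpr ⟨n + 1, ?_⟩
      rw [hsucc]
      exact Or.inr (Set.mem_iUnion.mpr ⟨i, ⟨l, hn, rfl⟩⟩)
    · exact Set.subset_iUnion c 0
  · refine ⟨Set.countable_iUnion fun n => (hc n).1, fun i l hl => ?_⟩
    obtain ⟨n, hn⟩ := list_mem_union c hmono l hl
    exact Set.mem_iUnion.mpr ⟨n, (hc n).2 i l hn⟩

end Pool.Agent.BPF
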