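import Mathlib
import Pool.Agent.Lib.MP_11349d_lc.V.Clo
import Pool.Agent.Lib.MP_11349d_lc.V.Dfs

/-!
# Module Ncl: a club of sets with the closure properties `VNice` (est. 100 lines)

Proof. Let `W = A ⊕ Set A` (nonempty: `Sum.inr ∅`). `isClub_closed` for the family of the following functions
`List W → W` with the countable index type `(ℕ ⊕ ℕ) ⊕ Fin 3` (or similar):
F1 n: `l ↦ inr (e '' EE (e l n))`; F2 n: `inl (nn p) :: l ↦ inl (sm p k h)` for a chosen `k` with
`ok p k` and `p` forces `e l n = q.fn k`, if there is one, `inr ∅` otherwise (and on other lists);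
F3: `[inr S, inl (sm p k h)] ↦ inr (e '' HH S k)`; F4: `[inr S, inl (sm p' k h), inl (nn p)] ↦ inl (sm p3 k3 h3)` for
chosen `p3, k3, h3` as in `VNice.n4`, if they exist; F5: `[inr S] ↦ inr (e '' D0 S)`. (The components of an element
`a : A` are `a.1.1`, `a.1.2`; it is convenient to define F3 and F4 by
`if h : ∃ S k ..., l = [...] ∧ ... then Classical.choose .. else inr ∅`, or to prove for each property the
existence of a function `F` with the required property by `choose`.) `D.ext.e p` is `A.nn p` by `rfl`.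
-/

set_option autoImplicit false

namespace Pool.Agent.BPF

open Pool.Agent.Lib.BVM BSet

variable {B : Type} [CompleteBooleanAlgebra B]

private theorem sm_inj {D : VDat B} {p p' : Pp B} {k k' : D.q.Idx} {h : D.ok p.1 k}
    {h' : D.ok p'.1 k'} (e : (VDat.A.sm p k h : D.A) = VDat.A.sm p' k' h') : p = p' ∧ k = k' := by
  have h1 : ((p, some k) : Pp B × Option D.q.Idx) = (p', some k') := congrArg Subtype.val e
  rw [Prod.mk.injEq, Option.some.injEq] at h1
  exact h1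

private theorem nn_inj {D : VDat B} {p p' : Pp B} (e : (VDat.A.nn p : D.A) = VDat.A.nn p') : p = p' :=
  congrArg VDat.A.p e

/-- the relations between a list and the value of the function -/
private def RR (D : DatP B) (e : List (D.A ⊕ Set D.A) → ℕ → BSet B) (i : (ℕ ⊕ ℕ) ⊕ Fin 3)
    (l : List (D.A ⊕ Set D.A)) (w : D.A ⊕ Set D.A) : Prop :=
  match i with
  | Sum.inl (Sum.inl n) => w = Sum.inr (D.ext.e '' EE D (e l n))
  | Sum.inl (Sum.inr n) => ∃ (p : Pp B) (l' : List (D.A ⊕ Set D.A)),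
      l = Sum.inl (D.ext.e p) :: l' ∧
      ∃ k h, Fc p.1 (fun U => U.cls (e l' n) = U.cls (D.q.fn k)) ∧ w = Sum.inl (VDat.A.sm p k h)
  | Sum.inr 0 => ∃ (S : Set D.A) (p : Pp B) (k : D.q.Idx) (h : D.ok p.1 k),
      l = [Sum.inr S, Sum.inl (VDat.A.sm p k h)] ∧ w = Sum.inr (D.ext.e '' HH D S k)
  | Sum.inr 1 => ∃ (S : Set D.A) (p' : Pp B) (k : D.q.Idx) (h : D.ok p'.1 k) (p : Pp B),
      l = [Sum.inr S, Sum.inl (VDat.A.sm p' k h), Sum.inl (D.ext.e p)] ∧
      ∃ p3 k3 h, VDat.A.sm p3 k3 h ∈ S ∧ p ≤ p3 ∧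
        Fc p.1 (fun U => U.cls (D.q.fn k3) = U.cls (D.q.fn k)) ∧ w = Sum.inl (VDat.A.sm p3 k3 h)
  | Sum.inr 2 => ∃ S : Set D.A, l = [Sum.inr S] ∧ w = Sum.inr (D.ext.e '' D0 D S)

open Classical in
private noncomputable def FF (D : DatP B) (e : List (D.A ⊕ Set D.A) → ℕ → BSet B)
    (i : (ℕ ⊕ ℕ) ⊕ Fin 3) (l : List (D.A ⊕ Set D.A)) : D.A ⊕ Set D.A :=
  if h : ∃ w, RR D e i l w then h.choose else Sum.inr ∅

private theorem FF_spec (D : DatP B) (e : List (D.A ⊕ Set D.A) → ℕ → BSet B)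
    (i : (ℕ ⊕ ℕ) ⊕ Fin 3) (l : List (D.A ⊕ Set D.A)) (h : ∃ w, RR D e i l w) :
    RR D e i l (FF D e i l) := by
  unfold FF
  rw [dif_pos h]
  exact h.choose_spec

theorem exists_nice (D : DatP B) (e : List (D.A ⊕ Set D.A) → ℕ → BSet B) :
    ∃ C : Set (Set (D.A ⊕ Set D.A)), IsClub C ∧ ∀ N ∈ C, N.Countable ∧ VNice D e N := by
  refine ⟨_, isClub_closed (FF D e), fun N hN => ⟨hN.1, ?_⟩⟩
  have key : ∀ i (l : List (D.A ⊕ Set D.A)), (∀ x ∈ l, x ∈ N) → (∃ w, RR D e i l w) →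
      ∃ w ∈ N, RR D e i l w := fun i l hl hw => ⟨_, hN.2 i l hl, FF_spec D e i l hw⟩
  refine ⟨?_, ?_, ?_, ?_, ?_⟩
  · intro l hl n
    obtain ⟨w, hw, h⟩ := key (Sum.inl (Sum.inl n)) l hl ⟨_, rfl⟩
    have h' : w = Sum.inr (D.ext.e '' EE D (e l n)) := h
    rw [← h']
    exact hw
  · rintro l hl n p hp ⟨k, hk, hf⟩
    obtain ⟨w, hw, p0, l0, h1, k0, h0, h2, h3⟩ := key (Sum.inl (Sum.inr n))
      (Sum.inl (D.ext.e p) :: l) (by
        intro x hx
        rcases List.mem_cons.1 hx with rfl | hx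
        · exact hp
        · exact hl x hx) ⟨Sum.inl (VDat.A.sm p k hk), p, l, rfl, k, hk, hf, rfl⟩
    rw [List.cons.injEq] at h1
    obtain ⟨h1, rfl⟩ := h1
    obtain rfl := nn_inj (Sum.inl.inj h1)
    exact ⟨k0, h0, h2, h3 ▸ hw⟩
  · intro S p k h hS hp
    obtain ⟨w, hw, S0, p0, k0, h0, h1, h2⟩ := key (Sum.inr 0) [Sum.inr S, Sum.inl (VDat.A.sm p k h)]
      (by
        intro x hx
        simp only [List.mem_cons, List.not_mem_nil, or_false] at hx
        rcases hx with rfl | rfl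
        · exact hS
        · exact hp) ⟨_, S, p, k, h, rfl, rfl⟩
    simp only [List.cons.injEq, and_true, Sum.inr.injEq, Sum.inl.injEq] at h1
    obtain ⟨rfl, h1⟩ := h1
    obtain ⟨rfl, rfl⟩ := sm_inj h1
    rw [← h2]
    exact hw
  · rintro S p' k h p hS hp' hp ⟨p3, k3, h3, h4, h5, h6⟩
    obtain ⟨w, hw, S0, p0, k0, h0, q0, h1, p1, k1, g1, g2, g3, g4, g5⟩ := key (Sum.inr 1)
      [Sum.inr S, Sum.inl (VDat.A.sm p' k h), Sum.inl (D.ext.e p)] (by
        intro x hx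
        simp only [List.mem_cons, List.not_mem_nil, or_false] at hx
        rcases hx with rfl | rfl | rfl
        · exact hS
        · exact hp'
        · exact hp) ⟨_, S, p', k, h, p, rfl, p3, k3, h3, h4, h5, h6, rfl⟩
    simp only [List.cons.injEq, and_true, Sum.inr.injEq, Sum.inl.injEq] at h1
    obtain ⟨rfl, h1, h1'⟩ := h1
    obtain ⟨rfl, rfl⟩ := sm_inj h1
    obtain rfl := nn_inj h1'
    exact ⟨p1, k1, g1, g2, g3, g4, g5 ▸ hw⟩
  · intro S hS
    obtain ⟨w, hw, S0, h1, h2⟩ := key (Sum.inr 2) [Sum.inr S] (by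
        intro x hx
        rw [List.mem_singleton] at hx
        rw [hx]
        exact hS) ⟨_, S, rfl, rfl⟩
    simp only [List.cons.injEq, and_true, Sum.inr.injEq] at h1
    subst h1
    rw [← h2]
    exact hw

end Pool.Agent.BPF
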