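import Mathlib
import Pool.Agent.Lib.MP_11349d_lc.V.Sqc
import Pool.Agent.Lib.MP_11349d_lc.V.Enm

/-!
# Module Chn: names of larger and larger elements of the club (est. 120 lines)

Proof. `club_step`: `b` forces that `sq x β` is a subset of `z` (`fc_all_mem`, generators `x n` with weight `β n`) and
countable (`cnt_sq`), so there is an element `y` of the club which contains it; `fc_ex` (the property
`E y c ∧ Sub (sq x β) y` is `Df1`: `Df1.of_sat` with `.and (.mem 0 2) (fSub 1 0)` and so on).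
`exists_chN`: STEP: if `y` is a name with `Fc b (y ∈ c)` and `Fc b (xs ∈ y)`, then there are names `e n` with
`b ⊓ bMem t y ≤ ⨆ n, bEq t (e n)` and `Fc b (e n ∈ y)` (`enum` for `I = ℕ`, as `y` is countable: first part of
`IsClubE` and `cnt_iff`; `y` is nonempty since it contains `xs`). For `a`, let `x 0 = nm a`, `β 0 = wt a`,
`x (n+1) = e n`, `β (n+1) = ⊤`; all are in `z` (for `nm a`: if `a = inl (sm p k h)`, `q.fn k ∈ q`; if `a = inr S`, `dn S`
is a subset of `q` (`fc_all_mem`); if `a = inl (nn p)` then `β 0 = ⊥`; then use `hz`). `club_step` gives `y'`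
with `Fc b (y' ∈ c)`, `Fc b (Sub y y')` (by the covering property of the `e n`) and
`Fc (b ⊓ wt a) (nm a ∈ y')`. Choose such a `y'` for every `(y, a)` and define `cl` by recursion on the list,
in the subtype of names `y` with `Fc b (y ∈ c)` and `Fc b (xs ∈ y)`; `cl []` is given by `club_step` for the constant
sequence `xs`.
-/

set_option autoImplicit false

namespace Pool.Agent.BPF

open Pool.Agent.Lib.BVM BSet

variable {B : Type} [CompleteBooleanAlgebra B]

theorem club_step {b : B} {z c : BSet B} (hc : Fc b (fun U => IsClubE U.E (U.cls z) (U.cls c)))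
    (x : ℕ → BSet B) (β : ℕ → B) (hx : ∀ n, Fc (b ⊓ β n) (fun U => U.E (U.cls (x n)) (U.cls z))) :
    ∃ y, Fc b (fun U => U.E (U.cls y) (U.cls c) ∧ Sub U.E (U.cls (sq x β)) (U.cls y)) := by
  have hD : Df1 (fun U m => U.E m (U.cls c) ∧ Sub U.E (U.cls (sq x β)) m) :=
    (Df1.mem_left c).and (Df1.of_sat (fSub 1 0) (fun _ => sq x β))
  have hs : Fc b (fun U => ∀ m, U.E m (U.cls (sq x β)) → U.E m (U.cls z)) :=
    fc_all_mem (Df1.mem_left z) (sq x β) fun i U hU hi => hx i U (U.inf_iff.2 ⟨hU, hi⟩)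
  exact fc_ex hD fun U hU => (hc U hU).2.1 _ (hs U hU) (cnt_sq x β U)

private theorem fc_nm (D : DatP B) (a : D.A ⊕ Set D.A) :
    Fc (D.b ⊓ D.wt a) (fun U => U.E (U.cls (D.nm a)) (U.cls D.z)) := by
  intro U hU
  obtain ⟨hb, hw⟩ := U.inf_iff.1 hU
  rw [D.hz U hb]
  rcases a with a | S
  · rcases VDat.A.cases a with h | ⟨k, h, e⟩
    · rw [h, VDat.wt_nn] at hw
      exact absurd hw (S_bot U)
    · rw [e, VDat.wt_sm] at hw
      rw [e, VDat.nm_sm]
      exact Or.inl (h.2 U hw).1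
  · right
    have h1 : Fc (⊤ : B) (fun U => ∀ m, U.E m (U.cls (D.dn S)) → U.E m (U.cls D.q)) := by
      refine fc_all_mem (Df1.mem_left D.q) (D.dn S) ?_
      rintro ⟨⟨p, k⟩, h, hS⟩ V _ hV
      exact (h.2 V hV).1
    exact h1 U (S_top U)

private theorem fc_xs_z (D : DatP B) : Fc D.b (fun U => U.E (U.cls D.xs) (U.cls D.z)) := by
  intro U hU
  rw [D.hz U hU]
  exact Or.inl (D.hx U hU).1

private theorem mem_sq (x : ℕ → BSet B) (β : ℕ → B) (n : ℕ) (U : Ult B) (h : U.S (β n)) :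
    U.E (U.cls (x n)) (U.cls (sq x β)) := by
  rw [mem_iff, bMem_sq]
  refine Ult.mono U ?_ h
  refine le_trans ?_ (le_iSup _ n)
  simp [bEq_refl]

/-- enumeration of an element of the club -/
private theorem exists_enum (D : DatP B) (y : BSet B)
    (h1 : Fc D.b (fun U => U.E (U.cls y) (U.cls D.c)))
    (h2 : Fc D.b (fun U => U.E (U.cls D.xs) (U.cls y))) :
    ∃ e : ℕ → BSet B, (∀ n, Fc D.b (fun U => U.E (U.cls (e n)) (U.cls y))) ∧
      ∀ t, D.b ⊓ bMem t y ≤ ⨆ n, bEq t (e n) :=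
  enum (I := ℕ) y (fun U hU => (cnt_iff U _).1 ((D.hc U hU).1 _ (h1 U hU)).2)
    fun U hU => ⟨_, h2 U hU⟩

private theorem exists_next (D : DatP B) (y : BSet B)
    (h1 : Fc D.b (fun U => U.E (U.cls y) (U.cls D.c)))
    (h2 : Fc D.b (fun U => U.E (U.cls D.xs) (U.cls y))) (a : D.A ⊕ Set D.A) :
    ∃ y', (Fc D.b (fun U => U.E (U.cls y') (U.cls D.c)) ∧
      Fc D.b (fun U => U.E (U.cls D.xs) (U.cls y'))) ∧
      Fc D.b (fun U => Sub U.E (U.cls y) (U.cls y')) ∧
      Fc (D.b ⊓ D.wt a) (fun U => U.E (U.cls (D.nm a)) (U.cls y')) := by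
  obtain ⟨e, he, hcov⟩ := exists_enum D y h1 h2
  let x : ℕ → BSet B := fun n => Nat.casesOn n (D.nm a) e
  let β : ℕ → B := fun n => Nat.casesOn n (D.wt a) (fun _ => ⊤)
  have hx : ∀ n, Fc (D.b ⊓ β n) (fun U => U.E (U.cls (x n)) (U.cls D.z)) := by
    intro n
    cases n with
    | zero => exact fc_nm D a
    | succ n =>
      intro U hU
      have hb := (U.inf_iff.1 hU).1
      exact ((D.hc U hb).1 _ (h1 U hb)).1 _ (he n U hb)
  obtain ⟨y', hy'⟩ := club_step D.hc x β hx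
  have hsub : Fc D.b (fun U => Sub U.E (U.cls y) (U.cls y')) := by
    intro U hU m hm
    obtain ⟨t, rfl⟩ := U.exists_cls m
    refine (hy' U hU).2 _ ?_
    have h3 : D.b ⊓ bMem t y ≤ bMem t (sq x β) := by
      refine (hcov t).trans ?_
      rw [bMem_sq]
      refine iSup_le fun n => le_trans ?_ (le_iSup _ (n + 1))
      exact le_inf le_top le_rfl
    exact Ult.mono U h3 (U.inf_iff.2 ⟨hU, hm⟩)
  refine ⟨y', ⟨fun U hU => (hy' U hU).1, fun U hU => hsub U hU _ (h2 U hU)⟩, hsub, ?_⟩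
  intro U hU
  obtain ⟨hb, hw⟩ := U.inf_iff.1 hU
  exact (hy' U hb).2 _ (mem_sq x β 0 U hw)

theorem exists_chN (D : DatP B) : ∃ cl e, ChN D cl e := by
  let Y : Type _ := {y : BSet B // Fc D.b (fun U => U.E (U.cls y) (U.cls D.c)) ∧
      Fc D.b (fun U => U.E (U.cls D.xs) (U.cls y))}
  have hnext : ∀ (y : Y) (a : D.A ⊕ Set D.A), ∃ y' : Y,
      Fc D.b (fun U => Sub U.E (U.cls y.1) (U.cls y'.1)) ∧
      Fc (D.b ⊓ D.wt a) (fun U => U.E (U.cls (D.nm a)) (U.cls y'.1)) := by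
    intro y a
    obtain ⟨y', h, h'⟩ := exists_next D y.1 y.2.1 y.2.2 a
    exact ⟨⟨y', h⟩, h'⟩
  choose G hG1 hG2 using hnext
  obtain ⟨y0, hy0⟩ := club_step D.hc (fun _ => D.xs) (fun _ => ⊤)
    (fun n => (fc_xs_z D).mono inf_le_left)
  have hy0' : Fc D.b (fun U => U.E (U.cls D.xs) (U.cls y0)) := fun U hU =>
    (hy0 U hU).2 _ (mem_sq (fun _ => D.xs) (fun _ => ⊤) 0 U (S_top U))
  let y1 : Y := ⟨y0, fun U hU => (hy0 U hU).1, hy0'⟩
  let cl : List (D.A ⊕ Set D.A) → Y := fun l => l.foldr (fun a y => G y a) y1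
  have he : ∀ y : Y, ∃ e : ℕ → BSet B, ∀ t, D.b ⊓ bMem t y.1 ≤ ⨆ n, bEq t (e n) := by
    intro y
    obtain ⟨e, _, h⟩ := exists_enum D y.1 y.2.1 y.2.2
    exact ⟨e, h⟩
  choose e he using he
  refine ⟨fun l => (cl l).1, fun l => e (cl l), ?_⟩
  exact
    { mem := fun l => (cl l).2.1
      sub := fun l a => hG1 (cl l) a
      val := fun l a => hG2 (cl l) a
      xs := hy0'
      enm := fun l y => he (cl l) y }

end Pool.Agent.BPF
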