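import Mathlib
import Pool.Agent.Lib.MP_11349d_lc.V.Sqc

/-!
# Module Uch: the union of a chain of names (est. 80 lines)

Proof. Let `d = sq y (fun _ => ⊤)`. `b` forces: `Sub d c` (`fc_all_mem`), `Cnt d` (`cnt_sq`), `d` is not empty
(`y 0 ∈ d`), and `d` is a chain: `fc_all_mem` for `d` twice, with
`Φ U m := ∀ m', E m' d → Sub m m' ∨ Sub m' m` (`Df1.of_sat`) and, for `m = y i`,
`Φ U m' := Sub (y i) m' ∨ Sub m' (y i)`; for `m' = y j` use `i ≤ j` or `j ≤ i` and the transitivity of `Sub`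
(induction). So there is a `u` with `IsUnion d u` and `u ∈ c`; `fc_ex` gives a name. `Sub (y n) u` is clear. If
`t ∈ u` then `t ∈ m` for some `m ∈ d`: `le_iSup_mem` for the name `d` gives
`b ⊓ bMem t u ≤ ⨆ n, ⊤ ⊓ bMem t (y n)`.
-/

set_option autoImplicit false

namespace Pool.Agent.BPF

open Pool.Agent.Lib.BVM BSet

variable {B : Type} [CompleteBooleanAlgebra B]

theorem union_chain {b : B} {z c : BSet B}
    (hc : Fc b (fun U => IsClubE U.E (U.cls z) (U.cls c))) (y : ℕ → BSet B)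
    (hy : ∀ n, Fc b (fun U => U.E (U.cls (y n)) (U.cls c)))
    (hs : ∀ n, Fc b (fun U => Sub U.E (U.cls (y n)) (U.cls (y (n + 1))))) :
    ∃ u, Fc b (fun U => U.E (U.cls u) (U.cls c)) ∧
      (∀ n, Fc b (fun U => Sub U.E (U.cls (y n)) (U.cls u))) ∧
      ∀ t, b ⊓ bMem t u ≤ ⨆ n, bMem t (y n) := by
  set d : BSet B := sq y (fun _ => ⊤) with hd
  have hmem : ∀ (U : Ult B) (n : ℕ), U.E (U.cls (y n)) (U.cls d) := by
    intro U n
    rw [mem_iff, hd, bMem_sq]
    refine Ult.mono U ?_ (S_top U)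
    refine le_trans ?_ (le_iSup _ n)
    rw [bEq_refl, inf_top_eq]
  have hsub : Fc b (fun U => ∀ m, U.E m (U.cls d) → U.E m (U.cls c)) :=
    fc_all_mem (Df1.mem_left c) d fun i U hU _ => hy i U hU
  have htr : ∀ (i k : ℕ), Fc b (fun U => Sub U.E (U.cls (y i)) (U.cls (y (i + k)))) := by
    intro i k
    induction k with
    | zero => exact fun U _ z hz => hz
    | succ k ih => exact fun U hU z hz => hs (i + k) U hU z (ih U hU z hz)
  have hmono : ∀ i j : ℕ, i ≤ j → Fc b (fun U => Sub U.E (U.cls (y i)) (U.cls (y j))) := by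
    intro i j hij
    obtain ⟨k, rfl⟩ := Nat.exists_eq_add_of_le hij
    exact htr i k
  have key : ∀ i j : ℕ, Fc b (fun U => Sub U.E (U.cls (y i)) (U.cls (y j)) ∨
      Sub U.E (U.cls (y j)) (U.cls (y i))) := by
    intro i j U hU
    rcases le_total i j with h | h
    · exact Or.inl (hmono i j h U hU)
    · exact Or.inr (hmono j i h U hU)
  have hch : Fc b (fun U => ∀ m, U.E m (U.cls d) → ∀ m', U.E m' (U.cls d) →
      Sub U.E m m' ∨ Sub U.E m' m) := by
    have hD : Df1 (fun (U : Ult B) m => ∀ m', U.E m' (U.cls d) → Sub U.E m m' ∨ Sub U.E m' m) :=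
      Df1.of_sat (.all (.imp (.mem 0 2) (.or (fSub 1 0) (fSub 0 1)))) (fun _ => d)
    refine fc_all_mem hD d fun i => ?_
    have hD' : Df1 (fun (U : Ult B) m' => Sub U.E (U.cls (y i)) m' ∨ Sub U.E m' (U.cls (y i))) :=
      Df1.of_sat (.or (fSub 1 0) (fSub 0 1)) (fun _ => y i)
    have h1 : Fc b (fun U => ∀ m', U.E m' (U.cls d) →
        Sub U.E (U.cls (y i)) m' ∨ Sub U.E m' (U.cls (y i))) := by
      exact fc_all_mem hD' d fun j U hU _ => key i j U hU
    exact fun U hU _ => h1 U hU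
  have hDu : Df1 (fun (U : Ult B) u => IsUnion U.E (U.cls d) u ∧ U.E u (U.cls c)) :=
    (Df1.of_sat (fUnion 1 0) (fun _ => d)).and (Df1.mem_left c)
  obtain ⟨u, hu⟩ := fc_ex (p := b) hDu (fun U hU => by
    obtain ⟨-, -, h3⟩ := hc U hU
    exact h3 (U.cls d) (hsub U hU) (cnt_sq y _ U) ⟨_, hmem U 0⟩
      fun x x' hx hx' => hch U hU x hx x' hx')
  refine ⟨u, fun U hU => (hu U hU).2, fun n U hU z hz => ?_, fun t => ?_⟩
  · exact ((hu U hU).1 z).2 ⟨_, hmem U n, hz⟩
  · have h1 := le_iSup_mem (p := b ⊓ bMem t u) (Φ := fun U m => U.E (U.cls t) m)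
      (φ := fun z => bMem t z) (fun _ _ => Iff.rfl) d (fun U hU => by
        rw [U.inf_iff] at hU
        exact ((hu U hU.1).1 (U.cls t)).1 hU.2)
    refine h1.trans (iSup_le fun i => ?_)
    exact inf_le_right.trans (le_iSup (fun n : ℕ => bMem t (y n)) i)

end Pool.Agent.BPF
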