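import Mathlib
import Pool.Agent.Lib.MP_11349d_lc.V.Chn
import Pool.Agent.Lib.MP_11349d_lc.V.Uch

/-!
# Module Xnn: the name of `N[G] ∩ (q ∪ P(q))` is in the club (est. 60 lines)

Proof. Let `a : ℕ → W` be an enumeration of `N` (`Set.Countable.exists_eq_range`), `l 0 = []`,
`l (n+1) = a n :: l n`, `y n = cl (l n)`. `union_chain` (`ChN.mem`, `ChN.sub`) gives `u`. `xs ∈ cl [] ⊆ u`. For
`w = a n`: `nm w ∈ cl (l (n+1)) ⊆ u` with weight `wt w`. `b ⊓ bMem t u ≤ ⨆ n, bMem t (cl (l n))`, and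
`b ⊓ bMem t (cl (l n)) ≤ ⨆ m, bEq t (e (l n) m)` (`ChN.enm`), and all elements of `l n` are in `N`.
-/

set_option autoImplicit false

namespace Pool.Agent.BPF

open Pool.Agent.Lib.BVM BSet

variable {B : Type} [CompleteBooleanAlgebra B]

theorem exists_X (D : DatP B) {cl : List (D.A ⊕ Set D.A) → BSet B}
    {e : List (D.A ⊕ Set D.A) → ℕ → BSet B} (h : ChN D cl e) {N : Set (D.A ⊕ Set D.A)}
    (hN : N.Countable) (hne : N.Nonempty) :
    ∃ u : BSet B, Fc D.b (fun U => U.E (U.cls u) (U.cls D.c)) ∧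
      Fc D.b (fun U => U.E (U.cls D.xs) (U.cls u)) ∧
      (∀ a ∈ N, Fc (D.b ⊓ D.wt a) (fun U => U.E (U.cls (D.nm a)) (U.cls u))) ∧
      ∀ t, D.b ⊓ bMem t u ≤ ⨆ l : {l : List (D.A ⊕ Set D.A) // ∀ x ∈ l, x ∈ N}, ⨆ n, bEq t (e l.1 n) := by
  obtain ⟨a, rfl⟩ := hN.exists_eq_range hne
  let l : ℕ → List (D.A ⊕ Set D.A) := fun n => Nat.rec [] (fun n l => a n :: l) n
  have hl : ∀ n, l (n + 1) = a n :: l n := fun n => rfl
  have hlN : ∀ n, ∀ x ∈ l n, x ∈ Set.range a := by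
    intro n
    induction n with
    | zero =>
      intro x hx
      exact absurd hx (List.not_mem_nil)
    | succ n ih =>
      intro x hx
      rw [hl, List.mem_cons] at hx
      rcases hx with rfl | hx
      · exact ⟨n, rfl⟩
      · exact ih x hx
  obtain ⟨u, h1, h2, h3⟩ := union_chain D.hc (fun n => cl (l n)) (fun n => h.mem _)
    (fun n => h.sub _ _)
  refine ⟨u, h1, fun U hU => h2 0 U hU _ (h.xs U hU), ?_, ?_⟩
  · rintro w ⟨n, rfl⟩ U hU
    exact h2 (n + 1) U (U.inf_iff.1 hU).1 _ (h.val (l n) (a n) U hU)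
  · intro t
    have h4 : D.b ⊓ bMem t u ≤ D.b ⊓ ⨆ n, bMem t (cl (l n)) := le_inf inf_le_left (h3 t)
    refine h4.trans ?_
    rw [inf_iSup_eq]
    refine iSup_le fun n => (h.enm (l n) t).trans ?_
    exact le_iSup (fun l : {l : List (D.A ⊕ Set D.A) // ∀ x ∈ l, x ∈ Set.range a} =>
      ⨆ n, bEq t (e l.1 n)) ⟨l n, hlN n⟩

end Pool.Agent.BPF
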