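import Mathlib
import Pool.Agent.Lib.MP_11349d_lc.V.Ncl
import Pool.Agent.Lib.MP_11349d_lc.V.Xnn
import Pool.Agent.Lib.MP_11349d_lc.V.Gno
import Pool.Agent.Lib.MP_11349d_lc.V.Gnt

/-!
# Module Rpr: relative properness (est. 70 lines)

Proof. `exists_chN` gives `cl, e`; `exists_nice D e` gives the club. Let `N` be in it, `inl p ∈ N`, `q ≤ π p`,
`GenB N q`. If `q ⊓ b = ⊥` then `q ≤ bᶜ`; `p = nn _` (`A.cases`; `p = sm p0 k h` gives `q ≤ p0 ≤ b`), and `r = nn q`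
is as required (`gen_outside`). Otherwise let `q0 = q ⊓ b`; `GenB N q0` (smaller conditions are generic).
`exists_X` (`N` is not empty) gives `u`. If `p = sm p0 k h` let `x' = q.fn k`: `q0 ≤ p0` forces `Pos x'` and
`x' ∈ u` (`wt_sm`, `nm_sm`); if `p = nn p0` let `x' = xs` (`hx`). `gen_below` gives `q1, k'`; `r = sm q1 k' _`; `r ≤ p` by
`sm_le_sm` or `le_nn`; `π r = q1 ≤ q`.
-/

set_option autoImplicit false

namespace Pool.Agent.BPF

open Pool.Agent.Lib.BVM BSet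

variable {B : Type} [CompleteBooleanAlgebra B]

theorem relProper (D : DatP B) : D.ext.RelProper := by
  obtain ⟨cl, e, hch⟩ := exists_chN D
  obtain ⟨C, hC, hCN⟩ := exists_nice D e
  refine ⟨C, hC, fun N hN p hp q hq hG => ?_⟩
  obtain ⟨hcnt, hnice⟩ := hCN N hN
  have hq' : q ≤ p.p := hq
  by_cases hqb : q.1 ⊓ D.b = ⊥
  · have hle : q.1 ≤ D.bᶜ := le_compl_iff_disjoint_right.2 (disjoint_iff.2 hqb)
    rcases VDat.A.cases p with hc | ⟨k, h, hc⟩
    · refine ⟨VDat.A.nn q, ?_, le_rfl, gen_outside D hnice hG hle⟩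
      rw [hc]
      exact VDat.le_nn.2 hq'
    · have h1 : q.1 ≤ D.b := le_trans hq' h.1
      exact absurd (inf_eq_left.2 h1 ▸ hqb) q.2
  · let q0 : Pp B := ⟨q.1 ⊓ D.b, hqb⟩
    have hq0 : q0 ≤ q := inf_le_left
    have hq0b : q0.1 ≤ D.b := inf_le_right
    have hG0 : D.ext.GenB N q0 := fun D' hD' hDn q' hq'' => hG D' hD' hDn q' (hq''.trans hq0)
    obtain ⟨u, hu1, hu2, hu3, hu4⟩ := exists_X D hch hcnt ⟨_, hp⟩
    rcases VDat.A.cases p with hc | ⟨k, h, hc⟩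
    · obtain ⟨q1, hq1, k', h', -, hgen⟩ := gen_below D hnice hu4 hu1 hu3 hG0 hq0b
        (D.hx.mono hq0b) (hu2.mono hq0b)
      refine ⟨VDat.A.sm q1 k' h', ?_, hq1.trans hq0, hgen⟩
      rw [hc]
      exact VDat.le_nn.2 ((hq1.trans hq0).trans hq')
    · have hv := hu3 _ hp
      rw [hc] at hv
      rw [VDat.wt_sm, VDat.nm_sm] at hv
      obtain ⟨q1, hq1, k', h', hle, hgen⟩ := gen_below D hnice hu4 hu1 hu3 hG0 hq0b
        (x' := D.q.fn k) (h.2.mono (le_trans hq0 hq')) (hv.mono (le_inf hq0b (le_trans hq0 hq')))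
      refine ⟨VDat.A.sm q1 k' h', ?_, hq1.trans hq0, hgen⟩
      rw [hc]
      exact VDat.sm_le_sm.2 ⟨(hq1.trans hq0).trans hq', hle⟩

end Pool.Agent.BPF
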