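import Mathlib
import Pool.Agent.Lib.MP_11349d_lc.V.Dfa

/-!
# Module Rza: the name `gg` (est. 80 lines)

Proof. `gg_down`: if `s = sm p k h` is in `gg i j` and `s' ≤ s` then `s' = sm p' k' h'`, `p' ≤ p`, `lek p' k' k`
(`A.cases`, `not_nn_le_sm`, `sm_le_sm`), and `≤` is transitive (`IsPO`; `q.fn k', q.fn k, a i j` are in `q`
since they are conditions). `gg_func`: if `s = sm p k h` is in `gg i j` and in `gg i j'` with `j < j'`, then `p`
forces `q.fn k ≤ a i j`, `q.fn k ≤ a i j'`, so `Comp (a i j) (a i j')` (`Pos (q.fn k)` from `h`), so `a i j = a i j'`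
(`aeq`), but `p` forces `a i j ≠ a i j'`; contradiction with `p ≠ ⊥` (`exists_ult`). `gg_fin`: `s ≤ nn b`, all
`x ∈ t` satisfy `s ∈ gg x.1 x.2`. If `s = sm p k h`: `p ≤ cc t`, with the term `k` of the supremum
(`p ≤ b`, `p ≤ bPos (q.fn k)` by `fc_iff` and `S_bPos`, `p ≤ bLe ..` by `S_bLe`). If `s = nn p`, then `t = ∅`
(elements of `gg` are of the form `sm`); `p ≤ b`, and `b ≤ cc ∅ = ⨆ k, b ⊓ bPos (q.fn k)`: `b` forces that
`xs` is a condition and `xs ∈ q` (`hx`, `le_iSup_mem` for the name `q`).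
In all cases `s' = s`.
-/

set_option autoImplicit false

namespace Pool.Agent.BPF

open Pool.Agent.Lib.BVM BSet

variable {B : Type} [CompleteBooleanAlgebra B] {Ω : Type} [LinearOrder Ω] [WellFoundedLT Ω]

theorem gg_down (D : DatA B Ω) (i j : Ω) (s s' : D.A) (h : s' ≤ s) (hs : s ∈ gg D i j) :
    s' ∈ gg D i j := by
  obtain ⟨p, k, hk, rfl, h1, h2⟩ := hs
  rcases VDat.A.cases s' with e | ⟨k', hk', e⟩
  · rw [e] at h
    exact absurd h VDat.not_nn_le_sm
  · rw [e, VDat.sm_le_sm] at h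
    have hp : s'.p.1 ≤ p.1 := h.1
    refine ⟨s'.p, k', hk', e, ?_, fun j' hj' => (h2 j' hj').mono hp⟩
    intro U hU
    have hb : U.S D.b := Ult.mono U hk'.1 hU
    have hU' : U.S p.1 := Ult.mono U hp hU
    exact (D.po U hb).2.2 _ _ _ (hk'.2 U hU).1 (hk.2 U hU').1 (D.apos i j U hb).1 (h.2 U hU)
      (h1 U hU')

private theorem gg_lt (D : DatA B Ω) (i j j' : Ω) (s : D.A) (h : s ∈ gg D i j)
    (h' : s ∈ gg D i j') (hlt : j < j') : False := by
  obtain ⟨p, k, hk, rfl, h1, -⟩ := h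
  obtain ⟨p', k', hk', e, h1', h2'⟩ := h'
  have e1 : p = p' := congrArg (fun a : D.A => a.1.1) e
  subst e1
  have e2 : k = k' := Option.some.inj (congrArg (fun a : D.A => a.1.2) e)
  subst e2
  obtain ⟨U, hU⟩ := exists_ult p.2
  have hb : U.S D.b := Ult.mono U hk.1 hU
  exact h2' j hlt U hU (D.aeq i j j' U hb ⟨_, hk.2 U hU, h1 U hU, h1' U hU⟩)

theorem gg_func (D : DatA B Ω) (i j j' : Ω) (s : D.A) (h : s ∈ gg D i j) (h' : s ∈ gg D i j') :
    j = j' := by
  rcases lt_trichotomy j j' with hlt | hlt | hlt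
  · exact (gg_lt D i j j' s h h' hlt).elim
  · exact hlt
  · exact (gg_lt D i j' j s h' h hlt).elim

theorem gg_fin (D : DatA B Ω) (s : D.A) (hs : s.p.1 ≤ D.b) (t : Finset (Ω × Ω))
    (h : ∀ x ∈ t, s ∈ gg D x.1 x.2) : s.p.1 ≤ cc D t := by
  rcases VDat.A.cases s with e | ⟨k, hk, e⟩
  · have ht : t = ∅ := by
      rw [Finset.eq_empty_iff_forall_notMem]
      intro x hx
      obtain ⟨p, k, hk, e', -⟩ := h x hx
      rw [e] at e'
      have := congrArg (fun a : D.A => a.1.2) e'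
      simp [VDat.A.nn, VDat.A.sm] at this
    subst ht
    refine hs.trans ?_
    have h2 : ∀ (U : Ult B) (x : BSet B), U.S (D.b ⊓ bPos D.q D.r x) ↔
        (U.S D.b ∧ Pos U.E (U.cls D.q) (U.cls D.r) (U.cls x)) := by
      intro U x
      rw [U.inf_iff, S_bPos]
    have h1 := le_iSup_mem (p := D.b) (φ := fun x => D.b ⊓ bPos D.q D.r x)
      (Φ := fun U m => U.S D.b ∧ Pos U.E (U.cls D.q) (U.cls D.r) m) h2 D.q
      (fun U hU => ⟨_, (D.hx U hU).1, hU, D.hx U hU⟩)
    refine h1.trans (iSup_mono fun k => ?_)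
    refine inf_le_right.trans ?_
    simp
  · refine le_trans ?_ (le_iSup _ k)
    refine le_inf (le_inf hs ?_) ?_
    · exact fc_iff.1 fun U hU => (S_bPos U _ _ _).2 (hk.2 U hU)
    · refine le_iInf fun x => le_iInf fun hx => ?_
      obtain ⟨p', k', hk', e', h1', -⟩ := h x hx
      rw [e] at e'
      have e1 : s.p = p' := congrArg (fun a : D.A => a.1.1) e'
      have e2 : k = k' := Option.some.inj (congrArg (fun a : D.A => a.1.2) e')
      subst e2
      rw [e1]
      exact fc_iff.1 fun U hU => (S_bLe U _ _ _).2 (h1' U hU)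

end Pool.Agent.BPF
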