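import Mathlib
import Pool.Agent.Lib.MP_11349d_lc.V.Dfa

/-!
# Module Rzb: the name `gg` is total (est. 90 lines)

Proof. Let `s ≤ nn b`, so `s.p ≤ b`. STEP 1: there is `sm p k h ≤ s`: if `s = nn p0`, `p0` forces that `xs` is a
condition, so an element of `q`; `fc_ex_mem` for the name `q` and `Φ U m := Pos m` (`Df1.pos`) gives `p ≤ p0` and
`k`. STEP 2: given `sm p k h` and `i`; `p ≤ b ⊓ bPos (q.fn k) ≤ ⨆ j, bComp (a i j) (q.fn k)` (`amax`), so by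
`exists_inf_ne` the set of all `j` such that `p ⊓ bComp (a i j) (q.fn k) ≠ ⊥` is not empty; let `j` be its least
element and `p' = p ⊓ bComp (a i j) (q.fn k)`. For `j' < j`, `p'` forces `a i j' ≠ a i j`: otherwise for some `U`
with `U.S p'` we have `cls (a i j') = cls (a i j)`, so `Comp (a i j') (q.fn k)` in `U.Mod`, so
`U.S (p ⊓ bComp (a i j') (q.fn k))` (`S_bComp`), but this is `⊥` by minimality. STEP 3: `p'` forces that there is a
condition `m ≤ a i j, q.fn k`: `fc_ex_mem` for the name `q` gives `p'' ≤ p'` and `k''` with `ok p'' k''`,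
`p''` forces `q.fn k'' ≤ a i j` and `q.fn k'' ≤ q.fn k`. So `sm p'' k'' _ ∈ gg i j` and it is below `s`
(`Df1.of_sat`, or `Df1.and` with `Df1.pos` and `Df1.rel_left`).
-/

set_option autoImplicit false

namespace Pool.Agent.BPF

open Pool.Agent.Lib.BVM BSet

variable {B : Type} [CompleteBooleanAlgebra B] {Ω : Type} [LinearOrder Ω] [WellFoundedLT Ω]

private theorem rzb_step1 (D : DatA B Ω) (s : D.A) (hs : s.p.1 ≤ D.b) :
    ∃ p k h, VDat.A.sm p k h ≤ s := by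
  rcases VDat.A.cases s with e | ⟨k, hk, e⟩
  · obtain ⟨r, hr, hr0, k, -, hk⟩ := fc_ex_mem s.p.2 (Df1.pos D.q D.r) D.q
      (fun U hU => ⟨U.cls D.xs, (D.hx U (Ult.mono U hs hU)).1, D.hx U (Ult.mono U hs hU)⟩)
    have h1 : VDat.A.sm ⟨r, hr0⟩ k ⟨hr.trans hs, hk⟩ ≤ (VDat.A.nn s.p : D.A) := VDat.le_nn.2 hr
    exact ⟨⟨r, hr0⟩, k, ⟨hr.trans hs, hk⟩, h1.trans (le_of_eq e.symm)⟩
  · exact ⟨s.p, k, hk, le_of_eq e.symm⟩

theorem gg_total (D : DatA B Ω) (s : D.A) (hs : s.p.1 ≤ D.b) (i : Ω) :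
    ∃ s' ≤ s, ∃ j, s' ∈ gg D i j := by
  obtain ⟨p, k, hk, hps⟩ := rzb_step1 D s hs
  have h1 : p.1 ≤ ⨆ j, bComp D.q D.r (D.a i j) (D.q.fn k) := by
    refine le_trans (le_inf hk.1 ?_) (D.amax i (D.q.fn k))
    exact fc_iff.1 fun U hU => (S_bPos U _ _ _).2 (hk.2 U hU)
  let J : Set Ω := {j | p.1 ⊓ bComp D.q D.r (D.a i j) (D.q.fn k) ≠ ⊥}
  have hJ : J.Nonempty := exists_inf_ne p.2 h1
  let j : Ω := WellFounded.min wellFounded_lt J hJ
  have hj : j ∈ J := WellFounded.min_mem _ J hJ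
  have hmin : ∀ j' < j, p.1 ⊓ bComp D.q D.r (D.a i j') (D.q.fn k) = ⊥ := by
    intro j' hj'
    by_contra hc
    exact WellFounded.not_lt_min wellFounded_lt J hc hj'
  have hp' : p.1 ⊓ bComp D.q D.r (D.a i j) (D.q.fn k) ≠ ⊥ := hj
  have h2 : Fc (p.1 ⊓ bComp D.q D.r (D.a i j) (D.q.fn k)) (fun U =>
      Comp U.E (U.cls D.q) (U.cls D.r) (U.cls (D.a i j)) (U.cls (D.q.fn k))) := fun U hU =>
    (S_bComp U _ _ _ _).1 (U.inf_iff.1 hU).2
  have h3 : ∀ j' < j, Fc (p.1 ⊓ bComp D.q D.r (D.a i j) (D.q.fn k))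
      (fun U => ¬ U.cls (D.a i j') = U.cls (D.a i j)) := by
    intro j' hj' U hU he
    have h4 : Comp U.E (U.cls D.q) (U.cls D.r) (U.cls (D.a i j)) (U.cls (D.q.fn k)) := h2 U hU
    rw [← he, ← S_bComp] at h4
    have h5 : U.S (p.1 ⊓ bComp D.q D.r (D.a i j') (D.q.fn k)) :=
      U.inf_iff.2 ⟨(U.inf_iff.1 hU).1, h4⟩
    rw [hmin j' hj'] at h5
    exact U.bot' h5
  obtain ⟨r, hr, hr0, k', -, hk'⟩ := fc_ex_mem hp'
    (((Df1.pos D.q D.r).and ((Df1.rel_left D.r (D.a i j)).and (Df1.rel_left D.r (D.q.fn k))))) D.q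
    (fun U hU => by
      obtain ⟨z, hz, hz1, hz2⟩ := h2 U hU
      exact ⟨z, hz.1, hz, hz1, hz2⟩)
  have hrp : r ≤ p.1 := hr.trans inf_le_left
  have hok : D.ok r k' := ⟨hrp.trans hk.1, fun U hU => (hk' U hU).1⟩
  refine ⟨VDat.A.sm ⟨r, hr0⟩ k' hok, le_trans ?_ hps, j, ⟨r, hr0⟩, k', hok, rfl,
    fun U hU => (hk' U hU).2.1, fun j' hj' => (h3 j' hj').mono hr⟩
  exact VDat.sm_le_sm.2 ⟨hrp, fun U hU => (hk' U hU).2.2⟩

end Pool.Agent.BPF
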