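import Mathlib
import Pool.Agent.Lib.MP_11349d_lc.V.Dpx
import Pool.Agent.Lib.MP_11349d_lc.V.Rpr
import Pool.Agent.Lib.MP_11349d_lc.V.Rza
import Pool.Agent.Lib.MP_11349d_lc.V.Rzb
import Pool.Agent.Lib.MP_11349d_lc.V.Mts
import Pool.Agent.Lib.MP_11349d_lc.V.Fli
import Pool.Agent.Lib.MP_11349d_lc.V.Flx

/-! Part V: from the hypotheses of BPFA to the filter. -/

set_option autoImplicit false

namespace Pool.Agent.BPF

open Pool.Agent.Lib.BVM BSet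

variable {B : Type} [CompleteBooleanAlgebra B] {Ω : Type} [LinearOrder Ω] [WellFoundedLT Ω]

theorem exists_datA {b : B} {q r av : BSet B}
    (h : Fc b (fun U => Hyp U.E (U.cls q) (U.cls r) (U.cls (chkAll B Ω)) (U.cls av))) :
    ∃ D : DatA B Ω, D.b = b ∧ D.q = q ∧ D.r = r ∧ D.av = av := by
  obtain ⟨D, rfl, rfl, rfl⟩ := exists_datP (b := b) (q := q) (r := r)
    (fun U hU => (h U hU).1.1) (fun U hU => (h U hU).2.1) (fun U hU => (h U hU).2.2.1)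
  choose a ha1 ha2 ha3 ha4 using exists_anti (Ω := Ω) (b := D.b) (q := D.q) (r := D.r) (av := av)
    (fun U hU => (h U hU).2.1) (fun U hU => (h U hU).2.2.2)
  exact ⟨⟨D, av, fun U hU => (h U hU).1, a, ha1, ha2, ha3, ha4⟩, rfl, rfl, rfl, rfl⟩

theorem realizes (D : DatA B Ω) (hb : D.b ≠ ⊥) :
    D.ext.Realizes (fun s => {p | p.1 ≤ cc D s}) ⟨D.b, hb⟩ (gg D) where
  down i j s s' h hs := gg_down D i j s s' h hs
  total s hs i := gg_total D s (show s.p ≤ (⟨D.b, hb⟩ : Pp B) from hs.1) i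
  func s _ i j j' h h' := gg_func D i j j' s h h'
  fin s hs t h := ⟨s, le_rfl, gg_fin D s (show s.p ≤ (⟨D.b, hb⟩ : Pp B) from hs.1) t h⟩

theorem exists_filter {b : B} (hb : b ≠ ⊥)
    (bp : ∀ (c : Finset (Ω × Ω) → B) (b : {b : B // b ≠ ⊥}),
      (∃ A, HasExt {b : B // b ≠ ⊥} (fun s => {p | p.1 ≤ c s}) b A) →
      ∃ G : Ω → Ω → B, (∀ ξ, b.1 ≤ ⨆ η, G ξ η) ∧ (∀ ξ η η', η ≠ η' → G ξ η ⊓ G ξ η' = ⊥) ∧
        ∀ s : Finset (Ω × Ω), b.1 ⊓ ⨅ x ∈ s, G x.1 x.2 ≤ c s)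
    {q r av : BSet B}
    (h : Fc b (fun U => Hyp U.E (U.cls q) (U.cls r) (U.cls (chkAll B Ω)) (U.cls av))) :
    ∃ g, Fc b (fun U => IsFilt U.E (U.cls q) (U.cls r) (U.cls g) ∧
      ∀ i, U.E i (U.cls (chkAll B Ω)) → ∃ x, U.E x (U.cls g) ∧ Rel U.E (U.cls av) i x) := by
  obtain ⟨D, rfl, rfl, rfl, rfl⟩ := exists_datA h
  obtain ⟨G, hG1, _, hG3⟩ := bp (cc D) ⟨D.b, hb⟩
    ⟨D.A, inferInstance, D.ext, gg D, relProper D.toDatP, realizes D hb⟩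
  obtain ⟨m, hm⟩ := exists_mt D
  exact ⟨gN D m G, fun U hU => ⟨isFilt_gN D hm hG3 U hU, meets_gN D hm hG1 U hU⟩⟩

end Pool.Agent.BPF
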