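import Mathlib
import Pool.Agent.Lib.MP_11349d_lc.V.Cni
import Pool.Agent.Lib.MP_11349d_lc.V.Tdf

/-!
# Module Chc: the chains of the tree are countable (est. 110 lines)

Proof. Let `c = cls y` and let `p` be the value of `Sub y t ∧ IsChn r y` (formulas `fSub`, `fChain`; `U.los`), so `U.S p`
and by `fc_bval` the property is forced by `p`. Let
`f = BSet.mk (Nd Ω) (fun x => opair (chk B (T.f x.ht x.no)) (chk B x)) (fun x => bMem (chk B x) y)`, where
`T.f x.ht x.no : ℕ`. We show that `p` forces `OntoB f w y` (then `cnt_iff`). By `bMem_mk`, `bEq_opair`: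
`bMem (opair n a) f = ⨆ x, bMem (chk x) y ⊓ (bEq n (chk (T.f x.ht x.no)) ⊓ bEq a (chk x))`. FUNCTION: for `b ∈ w`, so
`b = chk n` (`fc_all_chk` with the formula of `fOntoB`), and names `a`, `a'`:
`p ⊓ bMem (opair (chk n) a) f ⊓ bMem (opair (chk n) a') f ≤ bEq a a'`: distribute both suprema; for `x, x'` with
`T.f x = n = T.f x'` (otherwise the term is `⊥`, `chk_eq`), `p` and `chk x, chk x' ∈ y` give in the models
`x = x'` or `Tlt T x x'` or `Tlt T x' x` (`rel_rT`, `cls_chk_eq`), and the last two contradict `Tlt.f_ne`. ONTO: for `a ∈ y`: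
`fc_all_chk` with `Φ U a := a ∈ y → ∃ b ∈ w, Rel f b a`, as `y ⊆ t`; for `a = chk x` take `b = chk (T.f x.ht x.no)`.
-/

set_option autoImplicit false

namespace Pool.Agent.BPF

open Pool.Agent.Lib.BVM BSet

variable {B : Type} [CompleteBooleanAlgebra B] {Ω : Type} [LinearOrder Ω] [WellFoundedLT Ω]

/-- the name of the map -/
private noncomputable def fN (T : LTree Ω) (y : BSet B) : BSet B :=
  BSet.mk (Nd Ω) (fun x => opair (chk B (T.f x.ht x.no)) (chk B x)) (fun x => bMem (chk B x) y)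

private theorem bMem_fN (T : LTree Ω) (y n a : BSet B) : bMem (opair n a) (fN T y) =
    ⨆ x : Nd Ω, bMem (chk B x) y ⊓ (bEq n (chk B (T.f x.ht x.no)) ⊓ bEq a (chk B x)) := by
  rw [fN, bMem_mk]
  simp only [bEq_opair]

private theorem fN_fun (T : LTree Ω) (y : BSet B) (p : B)
    (hp : Fc p (fun U => IsChn U.E (U.cls (rT B T)) (U.cls y))) (n : ℕ) (a a' : BSet B) :
    p ⊓ bMem (opair (chk B n) a) (fN T y) ⊓ bMem (opair (chk B n) a') (fN T y) ≤ bEq a a' := by
  rw [bMem_fN, bMem_fN, inf_iSup_eq]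
  refine iSup_le fun x' => ?_
  rw [inf_iSup_eq, iSup_inf_eq]
  refine iSup_le fun x => le_of_forall_ult fun U hU => ?_
  rw [U.inf_iff, U.inf_iff, U.inf_iff, U.inf_iff, U.inf_iff, U.inf_iff, ← U.cls_eq_iff,
    ← U.cls_eq_iff, ← U.cls_eq_iff, ← U.cls_eq_iff, cls_chk_eq, cls_chk_eq] at hU
  obtain ⟨⟨h1, h2, h3, h4⟩, h5, h6, h7⟩ := hU
  rw [← U.cls_eq_iff, h4, h7]
  rcases hp U h1 (U.cls (chk B x)) (U.cls (chk B x')) h2 h5 with h | h | h
  · exact h
  · rw [rel_rT] at h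
    exact absurd (h3.symm.trans h6) h.f_ne
  · rw [rel_rT] at h
    exact absurd (h6.symm.trans h3) h.f_ne

theorem tr_chain (T : LTree Ω) (U : Ult B) (c : U.Mod) (hc : Sub U.E c (U.cls (chkAll B (Nd Ω))))
    (h : IsChn U.E (U.cls (rT B T)) c) : Cnt U.E c := by
  obtain ⟨y, rfl⟩ := U.exists_cls c
  let v : ℕ → BSet B := scons y (scons (chkAll B (Nd Ω)) fun _ => rT B T)
  have hp : U.S (bval (.and (fSub 0 1) (fChain 2 0)) v) :=
    (U.los (.and (fSub 0 1) (fChain 2 0)) v).1 ⟨hc, h⟩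
  have hF := fc_bval (.and (fSub 0 1) (fChain 2 0)) v
  generalize bval (.and (fSub 0 1) (fChain 2 0)) v = p at hp hF
  have hsub : Fc p (fun U => Sub U.E (U.cls y) (U.cls (chkAll B (Nd Ω)))) := fun U hU => (hF U hU).1
  have hchn : Fc p (fun U => IsChn U.E (U.cls (rT B T)) (U.cls y)) := fun U hU => (hF U hU).2
  rw [cnt_iff]
  refine ⟨U.cls (fN T y), ?_, ?_⟩
  · refine fc_all_chk (p := p) (Φ := fun U m => ∀ a a', Rel U.E (U.cls (fN T y)) m a →
      Rel U.E (U.cls (fN T y)) m a' → a = a') ?_ ?_ U hp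
    · exact Df1.of_sat (.all (.all (.imp (fRel 3 2 1) (.imp (fRel 3 2 0) (.eq 1 0)))))
        (fun _ => fN T y)
    · intro n U hU a a'
      obtain ⟨a, rfl⟩ := U.exists_cls a
      obtain ⟨a', rfl⟩ := U.exists_cls a'
      rw [rel_iff, rel_iff, U.cls_eq_iff]
      intro h1 h2
      exact Ult.mono U (fN_fun T y p hchn n a a') (U.inf_iff.2 ⟨U.inf_iff.2 ⟨hU, h1⟩, h2⟩)
  · have key : Fc p (fun U => ∀ m, U.E m (U.cls (chkAll B (Nd Ω))) → U.E m (U.cls y) →
        ∃ b, U.E b (U.cls (chkAll B ℕ)) ∧ Rel U.E (U.cls (fN T y)) b m) := by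
      refine fc_all_chk (Φ := fun U m => U.E m (U.cls y) →
        ∃ b, U.E b (U.cls (chkAll B ℕ)) ∧ Rel U.E (U.cls (fN T y)) b m) ?_ ?_
      · exact Df1.of_sat (.imp (.mem 0 1) (.ex (.and (.mem 0 3) (fRel 4 0 1))))
          (scons y (scons (chkAll B ℕ) fun _ => fN T y))
      · intro x U hU hx
        refine ⟨U.cls (chk B (T.f x.ht x.no)), chk_mem_all U _, ?_⟩
        rw [rel_iff, bMem_fN]
        refine Ult.mono U (le_iSup _ x) ?_
        rw [bEq_refl, bEq_refl, inf_top_eq, inf_top_eq]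
        exact hx
    exact fun a ha => key U hp a (hsub U hp a ha) ha

end Pool.Agent.BPF
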