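import Mathlib
import Pool.Agent.Lib.MP_11349d_lc.V.Fml

/-!
# Module Ocm: comparability of ordinals and uniqueness of `ω₁` in a model of ZFC (est. 130 lines)

Proof. Elements of ordinals are ordinals (a transitive set of transitive sets). MINIMAL ELEMENT PRINCIPLE: for a
formula `φ` and parameters `v`, if some ordinal `x₀` satisfies `φ`, then there is an ordinal `x` which satisfies
`φ`, such that no element of `x` satisfies `φ`: if no element of `x₀` satisfies `φ` take `x₀`; otherwise let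
`S = {x ∈ x₀ | φ(x)}` (separation), nonempty, and take an element `m` of `S` with no element in `S`
(foundation); an element `z` of `m` is in `x₀` (transitivity), so it does not satisfy `φ`.
COMPARABILITY: ordinals `x, y` satisfy `x ∈ y ∨ x = y ∨ y ∈ x`. If not, choose `x` minimal such that some ordinal
`y` is incomparable with it (`φ(x) =` `∃ y, fOrd 0 ∧ ¬ (1 ∈ 0 ∨ 1 = 0 ∨ 0 ∈ 1)`), then `y` minimal such that
`x, y` are incomparable. Then `x ⊆ y`: for `z ∈ x`, `z` is comparable with `y`, and `z = y`, `y ∈ z` both give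
`y ∈ x` (transitivity). Similarly `y ⊆ x`. So `x = y` by extensionality, contradiction.
UNIQUENESS: if `o ∈ o'` then `o` is countable, as an element of `o'`: contradiction.
-/

set_option autoImplicit false

namespace Pool.Agent.BPF

open Pool.Agent.Lib.BVM

private theorem ord_of_mem {M : Type*} {E : M → M → Prop} {x y : M} (hx : IsOrd E x) (h : E y x) :
    IsOrd E y :=
  ⟨hx.2 y h, fun z hz => hx.2 z (hx.1 y h z hz)⟩

private theorem ord_min {M : Type*} {E : M → M → Prop} (hE : IsZFC E) (φ : Fm) (v : ℕ → M)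
    {x₀ : M} (h0 : IsOrd E x₀) (h : sat E φ (scons x₀ v)) :
    ∃ x, IsOrd E x ∧ sat E φ (scons x v) ∧ ∀ z, E z x → ¬ sat E φ (scons z v) := by
  by_cases hn : ∃ z, E z x₀ ∧ sat E φ (scons z v)
  · obtain ⟨z, hz, hz'⟩ := hn
    obtain ⟨S, hS⟩ := hE.separation φ v x₀
    obtain ⟨m, hm, hm'⟩ := hE.foundation S ⟨z, (hS z).2 ⟨hz, hz'⟩⟩
    have h1 := (hS m).1 hm
    exact ⟨m, ord_of_mem h0 h1.1, h1.2, fun w hw hw' =>
      hm' w ((hS w).2 ⟨h0.1 m h1.1 w hw, hw'⟩) hw⟩
  · push Not at hn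
    exact ⟨x₀, h0, h, hn⟩

theorem ord_comparable {M : Type*} {E : M → M → Prop} (hE : IsZFC E) {x y : M} (hx : IsOrd E x)
    (hy : IsOrd E y) : E x y ∨ x = y ∨ E y x := by
  by_contra hc
  have h1 : ∀ (z : M) (v : ℕ → M), sat E (.ex (.and (fOrd 0)
      (.neg (.or (.mem 1 0) (.or (.eq 1 0) (.mem 0 1)))))) (scons z v) ↔
      ∃ y, IsOrd E y ∧ ¬ (E z y ∨ z = y ∨ E y z) := fun _ _ => Iff.rfl
  have h2 : ∀ (z w : M) (v : ℕ → M), sat E
      (.neg (.or (.mem 1 0) (.or (.eq 1 0) (.mem 0 1)))) (scons z (scons w v)) ↔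
      ¬ (E w z ∨ w = z ∨ E z w) := fun _ _ _ => Iff.rfl
  obtain ⟨a, ha, ha1, ha2⟩ := ord_min hE _ (fun _ => x) hx ((h1 x _).2 ⟨y, hy, hc⟩)
  obtain ⟨b0, hb0, hb1⟩ := (h1 a _).1 ha1
  obtain ⟨b, hb, hb2, hb3⟩ := ord_min hE _ (scons a (fun _ => x)) hb0 ((h2 b0 a _).2 hb1)
  have hab : ¬ (E a b ∨ a = b ∨ E b a) := (h2 b a _).1 hb2
  have h3 : ∀ z, E z a → E z b := by
    intro z hz
    have h4 : ¬ ∃ y, IsOrd E y ∧ ¬ (E z y ∨ z = y ∨ E y z) := fun h => ha2 z hz ((h1 z _).2 h)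
    by_contra h5
    apply h4
    refine ⟨b, hb, ?_⟩
    rintro (h6 | h6 | h6)
    · exact h5 h6
    · exact hab (Or.inr (Or.inr (h6 ▸ hz)))
    · exact hab (Or.inr (Or.inr (ha.1 z hz b h6)))
  have h4 : ∀ z, E z b → E z a := by
    intro z hz
    by_contra h5
    apply hb3 z hz
    refine (h2 z a _).2 ?_
    rintro (h6 | h6 | h6)
    · exact hab (Or.inl (hb.1 z hz a h6))
    · exact hab (Or.inl (h6 ▸ hz))
    · exact h5 h6
  exact hab (Or.inr (Or.inl (hE.extensionality a b fun z => ⟨h3 z, h4 z⟩)))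

theorem omega1_unique {M : Type*} {E : M → M → Prop} (hE : IsZFC E) {o o' : M}
    (h : IsOmega1 E o) (h' : IsOmega1 E o') : o = o' := by
  rcases ord_comparable hE h.1 h'.1 with h1 | h1 | h1
  · exact absurd (h'.2.2 o h1) h.2.1
  · exact h1
  · exact absurd (h.2.2 o' h1) h'.2.1

end Pool.Agent.BPF
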