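import Mathlib
import Pool.Agent.Lib.MP_11349d_lc.V.Sqc
import Pool.Agent.Lib.MP_11349d_lc.V.Tdf

/-!
# Module Oma: `chkAll B Ω` is an ordinal with countable elements (est. 80 lines)

Proof. `isOrd_all`: first part: `fc_all_chk` (p = ⊤) with `Φ U m := Sub m (chkAll)` (`Df1.of_sat (fSub 0 1) ..`); for
`m = chk i`, `fc_all_mem` for the name `chk B i` (after `chk_def`: its generators are the `chk B j`, `j < i`), or:
`bMem z (chk B i) = ⨆ j < i, bEq z (chk B j) ≤ bMem z (chkAll B Ω)` (`bMem_chk`, `bMem_chkAll`). Second part: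
`fc_all_chk` with `Φ U m := ∀ z, E z m → Sub z m`, and for `m = chk i`, `z = chk j` with `j < i`:
`Sub (chk j) (chk i)` by `bMem_chk`. `cnt_chk`: `fc_all_chk` with `Φ U m := Cnt m` (`fCnt`); for `m = chk i`:
if no `j < i` exists then `bMem y (chk i) = ⊥`, and `cnt_of_cover` for `ι = Unit` and any name; otherwise
`cnt_of_cover` for `ι = {j // j < i}`, which is countable (`hΩ.cnt i`).
-/

set_option autoImplicit false

namespace Pool.Agent.BPF

open Pool.Agent.Lib.BVM BSet

variable {B : Type} [CompleteBooleanAlgebra B] {Ω : Type} [LinearOrder Ω] [WellFoundedLT Ω]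

private theorem oma_sub_all (U : Ult B) (i : Ω) :
    Sub U.E (U.cls (chk B i)) (U.cls (chkAll B Ω)) := by
  intro z hz
  obtain ⟨z, rfl⟩ := U.exists_cls z
  rw [mem_iff, bMem_chk] at hz
  rw [mem_iff, bMem_chkAll]
  exact Ult.mono U (iSup_le fun j : {j : Ω // j < i} =>
    le_iSup (fun i : Ω => bEq z (chk B i)) j.1) hz

private theorem oma_sub_lt (U : Ult B) {i j : Ω} (h : i < j) :
    Sub U.E (U.cls (chk B i)) (U.cls (chk B j)) := by
  intro z hz
  obtain ⟨z, rfl⟩ := U.exists_cls z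
  rw [mem_iff, bMem_chk] at hz
  rw [mem_iff, bMem_chk]
  exact Ult.mono U (iSup_le fun k : {k : Ω // k < i} =>
    le_iSup (fun l : {l : Ω // l < j} => bEq z (chk B l.1)) ⟨k.1, k.2.trans h⟩) hz

theorem isOrd_all (U : Ult B) : IsOrd U.E (U.cls (chkAll B Ω)) := by
  constructor
  · have h := fc_all_chk (I := Ω) (p := (⊤ : B))
      (Φ := fun U m => Sub U.E m (U.cls (chkAll B Ω)))
      (Df1.of_sat (fSub 0 1) (fun _ => chkAll B Ω)) (fun i U _ => oma_sub_all U i)
    exact h U (S_top U)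
  · have h := fc_all_chk (I := Ω) (p := (⊤ : B))
      (Φ := fun U m => ∀ z, U.E z m → Sub U.E z m)
      (Df1.of_sat (.all (.imp (.mem 0 1) (fSub 0 1))) (fun _ => chkAll B Ω)) (fun i => ?_)
    · exact h U (S_top U)
    · have h2 := fc_all_mem (p := (⊤ : B)) (Φ := fun U m => Sub U.E m (U.cls (chk B i)))
        (Df1.of_sat (fSub 0 1) (fun _ => chk B i))
        (mk {j : Ω // j < i} (fun j => chk B j.1) (fun _ => ⊤))
        (fun j U _ _ => oma_sub_lt U j.2)
      rw [← chk_def] at h2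
      exact h2

theorem cnt_mem_all (hΩ : IsOm1 Ω) (U : Ult B) (x : U.Mod) (hx : U.E x (U.cls (chkAll B Ω))) :
    Cnt U.E x := by
  have h := fc_all_chk (I := Ω) (p := (⊤ : B)) (Φ := fun U m => Cnt U.E m)
      (Df1.of_sat (fCnt 0) (fun _ => chkAll B Ω)) (fun i => ?_)
  · exact h U (S_top U) x hx
  · by_cases hi : Nonempty {j : Ω // j < i}
    · have : Countable {j : Ω // j < i} := (hΩ.cnt i).to_subtype
      refine cnt_of_cover (chk B i) (fun j : {j : Ω // j < i} => chk B j.1) fun y => ?_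
      rw [bMem_chk]
      exact inf_le_right
    · refine cnt_of_cover (ι := Unit) (chk B i) (fun _ => chk B i) fun y => ?_
      rw [not_nonempty_iff] at hi
      rw [bMem_chk, iSup_of_empty, inf_bot_eq]
      exact bot_le

end Pool.Agent.BPF
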