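import Mathlib
import Pool.Agent.Lib.MP_11349d_lc.V.Kit

/-!
# Module Bdd: countable families are bounded (est. 60 lines)

Proof. Let `c n ξ = ⨅ j : {j // ξ < ht j}, (ρ n j)ᶜ`, monotone in `ξ`. By `reg` it is enough to show
`p ≤ ⨆ ξ, c n ξ` for every `n`. `le_of_dense`: let `q ≤ p`, `q ≠ ⊥`. If `q ⊓ ρ n j = ⊥` for all `j`, then
`q ≤ (ρ n j)ᶜ` for all `j`, so `q ≤ c n ξ` for any `ξ` (`Nonempty`). Otherwise let `r = q ⊓ ρ n j ≠ ⊥`; for `j' ≠ j`,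
`r ⊓ ρ n j' ≤ p ⊓ ρ n j ⊓ ρ n j' = ⊥`, so `r ≤ (ρ n j')ᶜ`; so `r ≤ c n (ht j)`.
-/

set_option autoImplicit false

namespace Pool.Agent.BPF

open Pool.Agent.Lib.BVM BSet

variable {B : Type} [CompleteBooleanAlgebra B] {Ω : Type} [LinearOrder Ω]

theorem bdd_family [Nonempty Ω]
    (reg : ∀ c : ℕ → Ω → B, (∀ n, Monotone (c n)) → ⨅ n, ⨆ ξ, c n ξ ≤ ⨆ ξ, ⨅ n, c n ξ)
    {J : Type} (ht : J → Ω) (ρ : ℕ → J → B) (p : B)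
    (hf : ∀ n j j', j ≠ j' → p ⊓ ρ n j ⊓ ρ n j' = ⊥) :
    p ≤ ⨆ ξ, ⨅ n, ⨅ j : {j // ξ < ht j}, (ρ n j.1)ᶜ := by
  have hmono : ∀ n, Monotone (fun ξ : Ω => ⨅ j : {j // ξ < ht j}, (ρ n j.1)ᶜ) := by
    intro n ξ η h
    refine le_iInf fun j => ?_
    exact iInf_le (fun j : {j // ξ < ht j} => (ρ n j.1)ᶜ) ⟨j.1, lt_of_le_of_lt h j.2⟩
  refine le_trans ?_ (reg (fun n ξ => ⨅ j : {j // ξ < ht j}, (ρ n j.1)ᶜ) hmono)
  refine le_iInf fun n => ?_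
  -- p ≤ ⨆ ξ, c n ξ
  by_contra hcon
  set s : B := ⨆ ξ, ⨅ j : {j // ξ < ht j}, (ρ n j.1)ᶜ with hs
  have hq : p ⊓ sᶜ ≠ ⊥ := by
    intro h
    exact hcon (by rwa [← disjoint_iff, disjoint_compl_right_iff] at h)
  have hqs : (p ⊓ sᶜ) ⊓ s = ⊥ := by
    rw [inf_assoc, compl_inf_eq_bot, inf_bot_eq]
  have key : ∀ r : B, r ≤ p ⊓ sᶜ → ∀ ξ, r ≤ (⨅ j : {j // ξ < ht j}, (ρ n j.1)ᶜ) → r = ⊥ := by
    intro r hr ξ hξ
    have h1 : r ≤ s := hξ.trans (le_iSup (fun ξ : Ω => ⨅ j : {j // ξ < ht j}, (ρ n j.1)ᶜ) ξ)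
    have h2 : r ≤ (p ⊓ sᶜ) ⊓ s := le_inf hr h1
    rw [hqs] at h2
    exact le_bot_iff.mp h2
  by_cases hall : ∀ j, (p ⊓ sᶜ) ⊓ ρ n j = ⊥
  · obtain ⟨ξ⟩ := ‹Nonempty Ω›
    refine hq (key _ le_rfl ξ (le_iInf fun j => ?_))
    exact le_compl_iff_disjoint_right.mpr (disjoint_iff.mpr (hall j.1))
  · push Not at hall
    obtain ⟨j, hj⟩ := hall
    refine hj (key _ inf_le_left (ht j) (le_iInf fun j' => ?_))
    have hne : j ≠ j'.1 := by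
      intro h
      exact absurd j'.2 (by rw [← h]; exact lt_irrefl _)
    refine le_compl_iff_disjoint_right.mpr (disjoint_iff.mpr (le_bot_iff.mp ?_))
    rw [← hf n j j'.1 hne]
    exact inf_le_inf_right _ (inf_le_inf_right _ inf_le_left)

end Pool.Agent.BPF
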