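import Mathlib
import Pool.Agent.Lib.MP_11349d_lc.V.Bdd
import Pool.Agent.Lib.MP_11349d_lc.V.Cni
import Pool.Agent.Lib.MP_11349d_lc.V.Tdf

/-!
# Module Omb: unbounded names are uncountable (est. 110 lines)

Proof. Let `x` be a name of a set of elements of `chkAll B J`, and suppose that `p` forces that `x` is
countable; we show `p = ⊥` (then apply this to the value `p` of `Cnt x`, `U.los`, `fc_bval`). By `cnt_iff` and
`fc_ex` (`fOntoB`) there is a name `f` such that `p` forces `OntoB f w x`. Let `ρ n j = bMem (opair (chk n) (chk j)) f`.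
For `j ≠ j'`, `p ⊓ ρ n j ⊓ ρ n j' = ⊥`: in the models `cls (chk j) = cls (chk j')` by the first part of `OntoB`,
so `j = j'` (`cls_chk_eq`). So by `bdd_family`, `p ≤ ⨆ ξ, ⨅ n, ⨅ j, ξ < ht j, (ρ n j)ᶜ`. If `p ≠ ⊥`, by `exists_inf_ne`
there is `ξ` with `q = p ⊓ ⨅ n, ⨅ j, ... ≠ ⊥`. By `hunb`, `⨆ j : {j // ξ < ht j}, bMem (chk j) x = ⊤`, so there is `j` with
`ξ < ht j` and `r = q ⊓ bMem (chk j) x ≠ ⊥`. `r` forces that there is `b ∈ w` with `Rel f b (chk j)`; by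
`fc_ex_mem` for the name `chkAll B ℕ` (`Φ U m := Rel f m (chk j)`, `Df1.rel_left`) some `r' ≤ r`, `r' ≠ ⊥`, and some
`n` satisfy `r' ≤ ρ n j`. But `r' ≤ q ≤ (ρ n j)ᶜ`: contradiction.
`not_cnt_all`: `J = Ω`, `ht = id`, `x = chkAll B Ω`.
-/

set_option autoImplicit false

namespace Pool.Agent.BPF

open Pool.Agent.Lib.BVM BSet

variable {B : Type} [CompleteBooleanAlgebra B] {Ω : Type} [LinearOrder Ω] [WellFoundedLT Ω]

private theorem omb_df1 (w x : BSet B) : Df1 (fun U m => OntoB U.E m (U.cls w) (U.cls x)) :=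
  Df1.of_sat (fOntoB 0 1 2) (scons w (fun _ => x))

theorem not_cnt_of_unb (hΩ : IsOm1 Ω)
    (reg : ∀ c : ℕ → Ω → B, (∀ n, Monotone (c n)) → ⨅ n, ⨆ ξ, c n ξ ≤ ⨆ ξ, ⨅ n, c n ξ)
    {J : Type} [LinearOrder J] [WellFoundedLT J] (ht : J → Ω) (x : BSet B)
    (hunb : ∀ ξ, ⨆ j : {j : J // ξ < ht j}, bMem (chk B j.1) x = ⊤) (U : Ult B) :
    ¬ Cnt U.E (U.cls x) := by
  intro hc
  have := hΩ.nonempty
  set p : B := bval (fCnt 0) (fun _ => x) with hpdef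
  have hUp : U.S p := (U.los (fCnt 0) (fun _ => x)).1 hc
  have hp : p ≠ ⊥ := fun h => U.bot' (h ▸ hUp)
  have h1 : Fc p (fun U => ∃ f, OntoB U.E f (U.cls (chkAll B ℕ)) (U.cls x)) := by
    intro U' hU'
    have h2 : Cnt U'.E (U'.cls x) := (U'.los (fCnt 0) (fun _ => x)).2 hU'
    exact (cnt_iff U' (U'.cls x)).1 h2
  obtain ⟨f, hf⟩ := fc_ex (omb_df1 (chkAll B ℕ) x) h1
  let ρ : ℕ → J → B := fun n j => bMem (opair (chk B n) (chk B j)) f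
  have hfn : ∀ n j j', j ≠ j' → p ⊓ ρ n j ⊓ ρ n j' = ⊥ := by
    intro n j j' hne
    apply eq_bot_of_fc
    intro U' hU'
    obtain ⟨hU1, hU3⟩ := U'.inf_iff.1 hU'
    obtain ⟨hU1, hU2⟩ := U'.inf_iff.1 hU1
    have h3 := (hf U' hU1).1 (U'.cls (chk B n)) (chk_mem_all U' n) (U'.cls (chk B j))
      (U'.cls (chk B j')) ((rel_iff U' f _ _).2 hU2) ((rel_iff U' f _ _).2 hU3)
    exact hne ((cls_chk_eq U').1 h3)
  obtain ⟨ξ, hξ⟩ := exists_inf_ne hp (bdd_family reg ht ρ p hfn)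
  obtain ⟨j, hj⟩ := exists_inf_ne (b := fun j : {j : J // ξ < ht j} => bMem (chk B j.1) x) hξ
    (le_top.trans_eq (hunb ξ).symm)
  have h4 : Fc (p ⊓ (⨅ n, ⨅ j : {j // ξ < ht j}, (ρ n j.1)ᶜ) ⊓ bMem (chk B j.1) x)
      (fun U => ∃ m, U.E m (U.cls (chkAll B ℕ)) ∧ Rel U.E (U.cls f) m (U.cls (chk B j.1))) := by
    intro U' hU'
    obtain ⟨hU1, hU3⟩ := U'.inf_iff.1 hU'
    obtain ⟨hU1, hU2⟩ := U'.inf_iff.1 hU1
    exact (hf U' hU1).2 (U'.cls (chk B j.1)) hU3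
  obtain ⟨r, hr, hr0, n, _, hn⟩ := fc_ex_mem hj (Df1.rel_left f (chk B j.1)) (chkAll B ℕ) h4
  apply hr0
  apply eq_bot_of_fc
  intro U' hU'
  have h5 : U'.S (ρ n j.1) := (rel_iff U' f _ _).1 (hn U' hU')
  have h6 : r ≤ (ρ n j.1)ᶜ :=
    ((hr.trans inf_le_left).trans inf_le_right).trans ((iInf_le _ n).trans (iInf_le _ j))
  have h7 := Ult.mono U' h6 hU'
  rw [U'.compl'] at h7
  exact h7 h5

theorem not_cnt_all (hΩ : IsOm1 Ω)
    (reg : ∀ c : ℕ → Ω → B, (∀ n, Monotone (c n)) → ⨅ n, ⨆ ξ, c n ξ ≤ ⨆ ξ, ⨅ n, c n ξ)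
    (U : Ult B) : ¬ Cnt U.E (U.cls (chkAll B Ω)) := by
  refine not_cnt_of_unb hΩ reg (id : Ω → Ω) (chkAll B Ω) (fun ξ => ?_) U
  obtain ⟨η, hη⟩ := hΩ.exists_gt ξ
  rw [eq_top_iff]
  calc (⊤ : B) = bMem (chk B η) (chkAll B Ω) := (chk_mem_chkAll η).symm
    _ ≤ _ := le_iSup (fun j : {j : Ω // ξ < id j} => bMem (chk B j.1) (chkAll B Ω)) ⟨η, hη⟩

end Pool.Agent.BPF
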