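import Mathlib
import Pool.Agent.Lib.MP_11349d_lc.V.Omb

/-!
# Module Sbt: the names `uT V` are subtrees (est. 90 lines)

Proof. `Sub`: `fc_all_mem` for the name `uT V` (generators `chk x`; `chk_mem_all`). Downwards closed: for the name
`uT V` and `y = chk a` with weight `V a.ht a.no`, and `x = chk b` (`fc_all_chk`), `Rel rT x y` iff `Tlt T b a`
(`rel_rT`), and then `V a.ht a.no ≤ V b.ht b.no` by `tree`, so `chk b ∈ uT V` (`bMem_uT`). Uncountable:
`not_cnt_of_unb` with `J = Nd Ω`, `ht = Nd.ht`: for `ξ` choose `η > ξ` (`IsOm1.exists_gt`); `⨆ n, V η n = ⊤`, and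
`bMem (chk (nd η n)) (uT V) = V η n` (`bMem_uT`).
-/

set_option autoImplicit false

namespace Pool.Agent.BPF

open Pool.Agent.Lib.BVM BSet

variable {B : Type} [CompleteBooleanAlgebra B] {Ω : Type} [LinearOrder Ω] [WellFoundedLT Ω]

theorem isSubtree_uT (hΩ : IsOm1 Ω)
    (reg : ∀ c : ℕ → Ω → B, (∀ n, Monotone (c n)) → ⨅ n, ⨆ ξ, c n ξ ≤ ⨆ ξ, ⨅ n, c n ξ)
    (T : LTree Ω) (V : Ω → ℕ → B) (tree : ∀ ξ η n, ξ ≤ η → V η n ≤ V ξ (T.r ξ η n))
    (unb : ∀ ξ, ⨆ n, V ξ n = ⊤) (U : Ult B) :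
    IsSubtree U.E (U.cls (chkAll B (Nd Ω))) (U.cls (rT B T)) (U.cls (uT V)) := by
  have hsub : Fc (⊤ : B) (fun U => Sub U.E (U.cls (uT V)) (U.cls (chkAll B (Nd Ω)))) :=
    fc_all_mem (Df1.mem_left _) (uT V) (fun x U _ _ => chk_mem_all U (I := Nd Ω) x)
  refine ⟨hsub U U.top', ?_, ?_⟩
  · refine not_cnt_of_unb hΩ reg (J := Nd Ω) Nd.ht (uT V) ?_ U
    intro ξ
    obtain ⟨η, hη⟩ := hΩ.exists_gt ξ
    rw [eq_top_iff, ← unb η]
    refine iSup_le fun n => ?_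
    refine le_trans ?_ (le_iSup _ (⟨nd η n, hη⟩ : {j : Nd Ω // ξ < j.ht}))
    rw [bMem_uT]
    exact le_rfl
  · have d1 : Df1 (fun (U : Ult B) m => ∀ y, U.E y (U.cls (uT V)) → Rel U.E (U.cls (rT B T)) m y →
        U.E m (U.cls (uT V))) :=
      Df1.of_sat (.all (.imp (.mem 0 2) (.imp (fRel 3 1 0) (.mem 1 2))))
        (scons (uT V) (fun _ => rT B T))
    have h1 : Fc (⊤ : B) (fun U => ∀ x, U.E x (U.cls (chkAll B (Nd Ω))) →
        ∀ y, U.E y (U.cls (uT V)) → Rel U.E (U.cls (rT B T)) x y → U.E x (U.cls (uT V))) := by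
      refine fc_all_chk d1 fun x => ?_
      have d2 : Df1 (fun (U : Ult B) m => Rel U.E (U.cls (rT B T)) (U.cls (chk B x)) m →
          U.E (U.cls (chk B x)) (U.cls (uT V))) :=
        (Df1.rel_right (rT B T) (chk B x)).imp ((Df0.of_S (bMem (chk B x) (uT V))).df1)
      refine fc_all_mem d2 (uT V) fun y U _ hy hR => ?_
      have h2 : Tlt T x y := (rel_rT T U x y).1 hR
      rw [mem_iff, bMem_uT]
      refine Ult.mono U ?_ hy
      have := tree x.ht y.ht y.no h2.1.le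
      rw [h2.2] at this
      exact this
    intro x y hx hy hR
    exact h1 U U.top' x hx y hy hR

end Pool.Agent.BPF
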