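import Mathlib
import Pool.Agent.Lib.MP_11349d_lc.V.Tdf

/-!
# Module Tra: the tree order in the models (est. 90 lines)

Proof. Each statement is a bounded quantifier statement over `chkAll`; apply `fc_all_chk` (p = ⊤) once for every
variable, from the outside: the property `Φ U m` (with the remaining quantifiers inside) is `Df1` by
`Df1.of_sat` for the corresponding formula (`fRel`, `.mem`, `.eq`, `.imp`, `.all`, with parameters `rT`, `lT`,
`chkAll B (Nd Ω)`, `chkAll B Ω`, and the check names of the variables treated before), and for check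
names the relations are given by `rel_rT`, `rel_lT`, `cls_chk_eq`, `mem_chk_iff`. `tr_irr`: `Tlt T x x` is
false. `tr_trans`: `Tlt.trans`. `tr_ht`: `x.ht = i`, `y.ht = j`, `Tlt T x y` give `i < j`.
-/

set_option autoImplicit false

namespace Pool.Agent.BPF

open Pool.Agent.Lib.BVM BSet

variable {B : Type} [CompleteBooleanAlgebra B] {Ω : Type} [LinearOrder Ω] [WellFoundedLT Ω]

theorem tr_irr (T : LTree Ω) (U : Ult B) (x : U.Mod) (hx : U.E x (U.cls (chkAll B (Nd Ω)))) :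
    ¬ Rel U.E (U.cls (rT B T)) x x := by
  have h : Fc (⊤ : B) (fun U => ∀ m, U.E m (U.cls (chkAll B (Nd Ω))) →
      ¬ Rel U.E (U.cls (rT B T)) m m) :=
    fc_all_chk (Φ := fun U m => ¬ Rel U.E (U.cls (rT B T)) m m)
      (Df1.of_sat (.neg (fRel 1 0 0)) (fun _ => rT B T))
      (fun a U _ h => lt_irrefl _ ((rel_rT T U a a).1 h).1)
  exact h U (S_top U) x hx

theorem tr_trans (T : LTree Ω) (U : Ult B) (x y z : U.Mod)
    (hx : U.E x (U.cls (chkAll B (Nd Ω)))) (hy : U.E y (U.cls (chkAll B (Nd Ω))))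
    (hz : U.E z (U.cls (chkAll B (Nd Ω)))) (h : Rel U.E (U.cls (rT B T)) x y)
    (h' : Rel U.E (U.cls (rT B T)) y z) : Rel U.E (U.cls (rT B T)) x z := by
  have h3 : ∀ a b : Nd Ω, Fc (⊤ : B) (fun U => ∀ z, U.E z (U.cls (chkAll B (Nd Ω))) →
      Rel U.E (U.cls (rT B T)) (U.cls (chk B a)) (U.cls (chk B b)) →
      Rel U.E (U.cls (rT B T)) (U.cls (chk B b)) z →
      Rel U.E (U.cls (rT B T)) (U.cls (chk B a)) z) := fun a b =>
    fc_all_chk (Φ := fun U z => Rel U.E (U.cls (rT B T)) (U.cls (chk B a)) (U.cls (chk B b)) →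
      Rel U.E (U.cls (rT B T)) (U.cls (chk B b)) z →
      Rel U.E (U.cls (rT B T)) (U.cls (chk B a)) z)
      (Df1.of_sat (.imp (fRel 1 2 3) (.imp (fRel 1 3 0) (fRel 1 2 0)))
        (scons (rT B T) (scons (chk B a) (fun _ => chk B b))))
      (fun c U _ h h' => (rel_rT T U a c).2
        (((rel_rT T U a b).1 h).trans ((rel_rT T U b c).1 h')))
  have h2 : ∀ a : Nd Ω, Fc (⊤ : B) (fun U => ∀ y, U.E y (U.cls (chkAll B (Nd Ω))) →
      ∀ z, U.E z (U.cls (chkAll B (Nd Ω))) →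
      Rel U.E (U.cls (rT B T)) (U.cls (chk B a)) y → Rel U.E (U.cls (rT B T)) y z →
      Rel U.E (U.cls (rT B T)) (U.cls (chk B a)) z) := fun a =>
    fc_all_chk (Φ := fun U y => ∀ z, U.E z (U.cls (chkAll B (Nd Ω))) →
      Rel U.E (U.cls (rT B T)) (U.cls (chk B a)) y → Rel U.E (U.cls (rT B T)) y z →
      Rel U.E (U.cls (rT B T)) (U.cls (chk B a)) z)
      (Df1.of_sat (.all (.imp (.mem 0 2) (.imp (fRel 3 4 1) (.imp (fRel 3 1 0) (fRel 3 4 0)))))
        (scons (chkAll B (Nd Ω)) (scons (rT B T) (fun _ => chk B a))))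
      (fun b => h3 a b)
  have h1 : Fc (⊤ : B) (fun U => ∀ x, U.E x (U.cls (chkAll B (Nd Ω))) →
      ∀ y, U.E y (U.cls (chkAll B (Nd Ω))) → ∀ z, U.E z (U.cls (chkAll B (Nd Ω))) →
      Rel U.E (U.cls (rT B T)) x y → Rel U.E (U.cls (rT B T)) y z →
      Rel U.E (U.cls (rT B T)) x z) :=
    fc_all_chk (Φ := fun U x => ∀ y, U.E y (U.cls (chkAll B (Nd Ω))) →
      ∀ z, U.E z (U.cls (chkAll B (Nd Ω))) →
      Rel U.E (U.cls (rT B T)) x y → Rel U.E (U.cls (rT B T)) y z →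
      Rel U.E (U.cls (rT B T)) x z)
      (Df1.of_sat (.all (.imp (.mem 0 2) (.all (.imp (.mem 0 3)
        (.imp (fRel 4 2 1) (.imp (fRel 4 1 0) (fRel 4 2 0)))))))
        (scons (chkAll B (Nd Ω)) (fun _ => rT B T)))
      h2
  exact h1 U (S_top U) x hx y hy z hz h h'

theorem tr_ht (T : LTree Ω) (U : Ult B) (x y i j : U.Mod)
    (hx : U.E x (U.cls (chkAll B (Nd Ω)))) (hy : U.E y (U.cls (chkAll B (Nd Ω))))
    (hi : U.E i (U.cls (chkAll B Ω))) (hj : U.E j (U.cls (chkAll B Ω)))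
    (h : Rel U.E (U.cls (rT B T)) x y) (h1 : Rel U.E (U.cls (lT B Ω)) x i)
    (h2 : Rel U.E (U.cls (lT B Ω)) y j) : U.E i j := by
  have h4 : ∀ (a b : Nd Ω) (i : Ω), Fc (⊤ : B) (fun U => ∀ j, U.E j (U.cls (chkAll B Ω)) →
      Rel U.E (U.cls (rT B T)) (U.cls (chk B a)) (U.cls (chk B b)) →
      Rel U.E (U.cls (lT B Ω)) (U.cls (chk B a)) (U.cls (chk B i)) →
      Rel U.E (U.cls (lT B Ω)) (U.cls (chk B b)) j → U.E (U.cls (chk B i)) j) := fun a b i =>
    fc_all_chk (Φ := fun U j =>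
      Rel U.E (U.cls (rT B T)) (U.cls (chk B a)) (U.cls (chk B b)) →
      Rel U.E (U.cls (lT B Ω)) (U.cls (chk B a)) (U.cls (chk B i)) →
      Rel U.E (U.cls (lT B Ω)) (U.cls (chk B b)) j → U.E (U.cls (chk B i)) j)
      (Df1.of_sat (.imp (fRel 1 3 4) (.imp (fRel 2 3 5) (.imp (fRel 2 4 0) (.mem 5 0))))
        (scons (rT B T) (scons (lT B Ω) (scons (chk B a) (scons (chk B b) (fun _ => chk B i))))))
      (fun j U _ h h1 h2 => by
        rw [rel_rT] at h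
        rw [rel_lT] at h1 h2
        rw [mem_chk_iff, ← h1, ← h2]
        exact h.1)
  have h3 : ∀ (a b : Nd Ω), Fc (⊤ : B) (fun U => ∀ i, U.E i (U.cls (chkAll B Ω)) →
      ∀ j, U.E j (U.cls (chkAll B Ω)) →
      Rel U.E (U.cls (rT B T)) (U.cls (chk B a)) (U.cls (chk B b)) →
      Rel U.E (U.cls (lT B Ω)) (U.cls (chk B a)) i →
      Rel U.E (U.cls (lT B Ω)) (U.cls (chk B b)) j → U.E i j) := fun a b =>
    fc_all_chk (Φ := fun U i => ∀ j, U.E j (U.cls (chkAll B Ω)) →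
      Rel U.E (U.cls (rT B T)) (U.cls (chk B a)) (U.cls (chk B b)) →
      Rel U.E (U.cls (lT B Ω)) (U.cls (chk B a)) i →
      Rel U.E (U.cls (lT B Ω)) (U.cls (chk B b)) j → U.E i j)
      (Df1.of_sat (.all (.imp (.mem 0 2) (.imp (fRel 3 5 6) (.imp (fRel 4 5 1)
          (.imp (fRel 4 6 0) (.mem 1 0))))))
        (scons (chkAll B Ω) (scons (rT B T) (scons (lT B Ω) (scons (chk B a)
          (fun _ => chk B b))))))
      (fun i => h4 a b i)
  have h5 : ∀ (a : Nd Ω), Fc (⊤ : B) (fun U => ∀ y, U.E y (U.cls (chkAll B (Nd Ω))) →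
      ∀ i, U.E i (U.cls (chkAll B Ω)) → ∀ j, U.E j (U.cls (chkAll B Ω)) →
      Rel U.E (U.cls (rT B T)) (U.cls (chk B a)) y →
      Rel U.E (U.cls (lT B Ω)) (U.cls (chk B a)) i →
      Rel U.E (U.cls (lT B Ω)) y j → U.E i j) := fun a =>
    fc_all_chk (Φ := fun U y => ∀ i, U.E i (U.cls (chkAll B Ω)) →
      ∀ j, U.E j (U.cls (chkAll B Ω)) →
      Rel U.E (U.cls (rT B T)) (U.cls (chk B a)) y →
      Rel U.E (U.cls (lT B Ω)) (U.cls (chk B a)) i →
      Rel U.E (U.cls (lT B Ω)) y j → U.E i j)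
      (Df1.of_sat (.all (.imp (.mem 0 2) (.all (.imp (.mem 0 3) (.imp (fRel 4 6 2)
          (.imp (fRel 5 6 1) (.imp (fRel 5 2 0) (.mem 1 0))))))))
        (scons (chkAll B Ω) (scons (rT B T) (scons (lT B Ω) (fun _ => chk B a)))))
      (fun b => h3 a b)
  have h6 : Fc (⊤ : B) (fun U => ∀ x, U.E x (U.cls (chkAll B (Nd Ω))) →
      ∀ y, U.E y (U.cls (chkAll B (Nd Ω))) →
      ∀ i, U.E i (U.cls (chkAll B Ω)) → ∀ j, U.E j (U.cls (chkAll B Ω)) →
      Rel U.E (U.cls (rT B T)) x y → Rel U.E (U.cls (lT B Ω)) x i →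
      Rel U.E (U.cls (lT B Ω)) y j → U.E i j) :=
    fc_all_chk (Φ := fun U x => ∀ y, U.E y (U.cls (chkAll B (Nd Ω))) →
      ∀ i, U.E i (U.cls (chkAll B Ω)) → ∀ j, U.E j (U.cls (chkAll B Ω)) →
      Rel U.E (U.cls (rT B T)) x y → Rel U.E (U.cls (lT B Ω)) x i →
      Rel U.E (U.cls (lT B Ω)) y j → U.E i j)
      (Df1.of_sat (.all (.imp (.mem 0 2) (.all (.imp (.mem 0 4) (.all (.imp (.mem 0 5)
          (.imp (fRel 6 3 2) (.imp (fRel 7 3 1) (.imp (fRel 7 2 0) (.mem 1 0))))))))))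
        (scons (chkAll B (Nd Ω)) (scons (chkAll B Ω) (scons (rT B T) (fun _ => lT B Ω)))))
      h5
  exact h6 U (S_top U) x hx y hy i hi j hj h h1 h2

end Pool.Agent.BPF
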