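import Mathlib
import Pool.Agent.Lib.MP_11349d_lc.V.Tdf

/-!
# Module Trb: heights in the models (est. 110 lines)

Proof. As in module Tra, with `fc_all_chk` for every bounded variable. (`∃!` is not a formula; write it as
`∃ x, φ x ∧ ∀ y, φ y → y = x`, which is what it unfolds to.) `tr_fun`: for `x = chk a` the only `i ∈ chkAll B Ω` with
`Rel lT x i` is `chk a.ht` (`rel_lT`; uniqueness again by `fc_all_chk` and `cls_chk_eq`). `tr_pred`: for
`y = chk a`, `i = chk ξ` with `a.ht = ξ`, and `j ∈ chk ξ`: `fc_all_mem` for the name `chk B ξ` (`chk_def`) gives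
`j = chk η` with `η < ξ` (or: apply `fc_all_chk` to `j` as well, since `chk ξ` is a subset of `chkAll B Ω`, and
`mem_chk_iff`). The node is `x = chk (nd η (T.r η ξ a.no))`: `Tlt T x a`, and it is the only node `x'` of height
`η` with `Tlt T x' a` (`nd_eta`).
-/

set_option autoImplicit false

namespace Pool.Agent.BPF

open Pool.Agent.Lib.BVM BSet

variable {B : Type} [CompleteBooleanAlgebra B] {Ω : Type} [LinearOrder Ω] [WellFoundedLT Ω]

private theorem trb_all_lt {p : B} {Φ : (U : Ult B) → U.Mod → Prop} (hΦ : Df1 Φ) (ξ : Ω)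
    (h : ∀ η, η < ξ → Fc p (fun U => Φ U (U.cls (chk B η)))) :
    Fc p (fun U => ∀ m, U.E m (U.cls (chk B ξ)) → Φ U m) := by
  have h1 := fc_all_mem hΦ (BSet.mk {j : Ω // j < ξ} (fun j => chk B j.1) (fun _ => ⊤))
    (p := p) (fun i U hU _ => h i.1 i.2 U hU)
  rw [← chk_def] at h1
  exact h1

/-- the parameters -/
private noncomputable def trbV (B : Type) [CompleteBooleanAlgebra B] (T : LTree Ω) : ℕ → BSet B :=
  fun n => match n with
  | 0 => lT B Ω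
  | 1 => chkAll B Ω
  | 2 => chkAll B (Nd Ω)
  | _ => rT B T

theorem tr_fun (U : Ult B) (x : U.Mod) (hx : U.E x (U.cls (chkAll B (Nd Ω)))) :
    ∃! i, U.E i (U.cls (chkAll B Ω)) ∧ Rel U.E (U.cls (lT B Ω)) x i := by
  have hΦ : Df1 (B := B) (fun U m => ∃! i, U.E i (U.cls (chkAll B Ω)) ∧
      Rel U.E (U.cls (lT B Ω)) m i) :=
    Df1.of_sat (.ex (.and (.and (.mem 0 3) (fRel 2 1 0))
      (.all (.imp (.and (.mem 0 4) (fRel 3 2 0)) (.eq 0 1)))))
      (fun n => match n with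
        | 0 => lT B Ω
        | _ => chkAll B Ω)
  refine fc_all_chk (p := (⊤ : B)) hΦ ?_ U (S_top U) x hx
  intro a U hU
  refine ⟨U.cls (chk B a.ht), ⟨chk_mem_all U _, (rel_lT U _ _).2 rfl⟩, ?_⟩
  rintro j ⟨hj1, hj2⟩
  have hΨ := (Df1.rel_right (lT B Ω) (chk B a)).imp (Df1.eq (chk B a.ht))
  refine fc_all_chk (p := (⊤ : B)) hΨ ?_ U (S_top U) j hj1 hj2
  intro η U _ h1
  rw [(rel_lT U _ _).1 h1]

theorem tr_pred (T : LTree Ω) (U : Ult B) (y i j : U.Mod)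
    (hy : U.E y (U.cls (chkAll B (Nd Ω)))) (hi : U.E i (U.cls (chkAll B Ω)))
    (h : Rel U.E (U.cls (lT B Ω)) y i) (hj : U.E j i) :
    ∃! x, U.E x (U.cls (chkAll B (Nd Ω))) ∧ Rel U.E (U.cls (rT B T)) x y ∧
      Rel U.E (U.cls (lT B Ω)) x j := by
  have hΦ : Df1 (B := B) (fun U y => ∀ i, U.E i (U.cls (chkAll B Ω)) →
      Rel U.E (U.cls (lT B Ω)) y i → ∀ j, U.E j i →
      ∃! x, U.E x (U.cls (chkAll B (Nd Ω))) ∧ Rel U.E (U.cls (rT B T)) x y ∧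
        Rel U.E (U.cls (lT B Ω)) x j) :=
    Df1.of_sat (.all (.imp (.mem 0 3) (.imp (fRel 2 1 0) (.all (.imp (.mem 0 1)
      (.ex (.and (.and (.mem 0 6) (.and (fRel 7 0 3) (fRel 4 0 1)))
        (.all (.imp (.and (.mem 0 7) (.and (fRel 8 0 4) (fRel 5 0 2))) (.eq 0 1))))))))))
      (trbV B T)
  refine fc_all_chk (p := (⊤ : B)) hΦ ?_ U (S_top U) y hy i hi h j hj
  intro a
  have hΦ2 : Df1 (B := B) (fun U i => Rel U.E (U.cls (lT B Ω)) (U.cls (chk B a)) i →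
      ∀ j, U.E j i →
      ∃! x, U.E x (U.cls (chkAll B (Nd Ω))) ∧ Rel U.E (U.cls (rT B T)) x (U.cls (chk B a)) ∧
        Rel U.E (U.cls (lT B Ω)) x j) :=
    Df1.of_sat (.imp (fRel 2 1 0) (.all (.imp (.mem 0 1)
      (.ex (.and (.and (.mem 0 6) (.and (fRel 7 0 3) (fRel 4 0 1)))
        (.all (.imp (.and (.mem 0 7) (.and (fRel 8 0 4) (fRel 5 0 2))) (.eq 0 1))))))))
      (scons (chk B a) (trbV B T))
  refine fc_all_chk hΦ2 ?_
  intro ξ U hU h1
  obtain rfl := (rel_lT U _ _).1 h1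
  have hΦ3 : Df1 (B := B) (fun U j =>
      ∃! x, U.E x (U.cls (chkAll B (Nd Ω))) ∧ Rel U.E (U.cls (rT B T)) x (U.cls (chk B a)) ∧
        Rel U.E (U.cls (lT B Ω)) x j) :=
    Df1.of_sat (.ex (.and (.and (.mem 0 6) (.and (fRel 7 0 3) (fRel 4 0 1)))
        (.all (.imp (.and (.mem 0 7) (.and (fRel 8 0 4) (fRel 5 0 2))) (.eq 0 1)))))
      (scons (chk B a.ht) (scons (chk B a) (trbV B T)))
  refine trb_all_lt (p := (⊤ : B)) hΦ3 a.ht ?_ U (S_top U)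
  intro η hη U _
  refine ⟨U.cls (chk B (nd η (T.r η a.ht a.no))), ⟨chk_mem_all U _, (rel_rT T U _ _).2 ⟨hη, rfl⟩,
    (rel_lT U _ _).2 rfl⟩, ?_⟩
  rintro x' ⟨hx1, hx2, hx3⟩
  have hΨ := ((Df1.rel_left (rT B T) (chk B a)).and (Df1.rel_left (lT B Ω) (chk B η))).imp
    (Df1.eq (chk B (nd η (T.r η a.ht a.no))))
  refine fc_all_chk (p := (⊤ : B)) hΨ ?_ U (S_top U) x' hx1 ⟨hx2, hx3⟩
  rintro b U _ ⟨h2, h3⟩
  have h4 := (rel_rT T U _ _).1 h2
  have h5 := (rel_lT U _ _).1 h3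
  have h6 : b = nd η (T.r η a.ht a.no) := by
    rw [← h5, h4.2, nd_eta]
  rw [h6]

end Pool.Agent.BPF
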