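import Mathlib
import Pool.Agent.Lib.MP_11349d_lc.V.Sqc
import Pool.Agent.Lib.MP_11349d_lc.V.Tdf

/-!
# Module Trc: the levels of the tree are countable and nonempty (est. 60 lines)

Proof. `fc_all_chk` for `i` (the property is given by a formula: `.ex (.and (.ex (.mem 0 1)) (.and (fCnt 0)
(.all (.iff (.mem 0 1) (.and (.mem 0 _) (fRel _ 0 2))))))`). For `i = chk ξ` let
`s = sq (fun n => chk B (nd ξ n)) (fun _ => ⊤)`: nonempty, countable (`cnt_sq`). `x ∈ s` iff `x ∈ t` and `Rel lT x i`: from left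
to right by `fc_all_mem` for the name `s` (generators `chk (nd ξ n)`, `rel_lT`); from right to left by
`fc_all_chk` for `x` (`x = chk a` with `a.ht = ξ`, `a = nd ξ a.no` by `nd_eta`).
-/

set_option autoImplicit false

namespace Pool.Agent.BPF

open Pool.Agent.Lib.BVM BSet

variable {B : Type} [CompleteBooleanAlgebra B] {Ω : Type} [LinearOrder Ω] [WellFoundedLT Ω]

private theorem mem_sq' (x : ℕ → BSet B) (n : ℕ) (U : Ult B) :
    U.E (U.cls (x n)) (U.cls (sq x fun _ => ⊤)) := by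
  rw [mem_iff, bMem_sq]
  have h : (⊤ : B) ≤ ⨆ n_1, ⊤ ⊓ bEq (x n) (x n_1) := by
    refine le_trans ?_ (le_iSup _ n)
    simp [bEq_refl]
  exact Ult.mono U h (S_top U)

theorem tr_level (U : Ult B) (i : U.Mod) (hi : U.E i (U.cls (chkAll B Ω))) :
    ∃ s, (∃ x, U.E x s) ∧ Cnt U.E s ∧
      ∀ x, U.E x s ↔ U.E x (U.cls (chkAll B (Nd Ω))) ∧ Rel U.E (U.cls (lT B Ω)) x i := by
  have h : Fc (⊤ : B) (fun U => ∀ i, U.E i (U.cls (chkAll B Ω)) →
      ∃ s, (∃ x, U.E x s) ∧ Cnt U.E s ∧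
        ∀ x, U.E x s ↔ U.E x (U.cls (chkAll B (Nd Ω))) ∧ Rel U.E (U.cls (lT B Ω)) x i) := by
    refine fc_all_chk (Φ := fun U i => ∃ s, (∃ x, U.E x s) ∧ Cnt U.E s ∧
        ∀ x, U.E x s ↔ U.E x (U.cls (chkAll B (Nd Ω))) ∧ Rel U.E (U.cls (lT B Ω)) x i)
      (Df1.of_sat (.ex (.and (.ex (.mem 0 1)) (.and (fCnt 0) (.all (.iff (.mem 0 1)
        (.and (.mem 0 3) (fRel 4 0 2)))))))
        (scons (chkAll B (Nd Ω)) (fun _ => lT B Ω))) ?_
    intro ξ U _
    let s : BSet B := sq (fun n => chk B (nd ξ n)) (fun _ => ⊤)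
    have h1 : Fc (⊤ : B) (fun U => ∀ x, U.E x (U.cls s) →
        U.E x (U.cls (chkAll B (Nd Ω))) ∧ Rel U.E (U.cls (lT B Ω)) x (U.cls (chk B ξ))) :=
      fc_all_mem ((Df1.mem_left _).and (Df1.rel_left _ _)) s fun n U _ _ =>
        ⟨chk_mem_all U _, (rel_lT U _ _).2 rfl⟩
    have h2 : Fc (⊤ : B) (fun U => ∀ x, U.E x (U.cls (chkAll B (Nd Ω))) →
        Rel U.E (U.cls (lT B Ω)) x (U.cls (chk B ξ)) → U.E x (U.cls s)) :=
      fc_all_chk ((Df1.rel_left _ _).imp (Df1.mem_left _)) fun a U _ ha => by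
        rw [rel_lT] at ha
        have h3 := mem_sq' (fun n => chk B (nd ξ n)) a.no U
        have h4 : nd ξ a.no = a := by
          rw [← ha]
          exact nd_eta a
        simp only [h4] at h3
        exact h3
    exact ⟨U.cls s, ⟨_, mem_sq' (fun n => chk B (nd ξ n)) 0 U⟩, cnt_sq _ _ U, fun x =>
      ⟨h1 U (S_top U) x, fun hx => h2 U (S_top U) x hx.1 hx.2⟩⟩
  exact h U (S_top U) i hi

end Pool.Agent.BPF
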