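import Mathlib
import Pool.Agent.Lib.MP_11349d_lc.V.Bpa
import Pool.Agent.Lib.MP_11349d_lc.V.Oma
import Pool.Agent.Lib.MP_11349d_lc.V.Omb
import Pool.Agent.Lib.MP_11349d_lc.V.Ocm
import Pool.Agent.Lib.MP_11349d_lc.V.Tra
import Pool.Agent.Lib.MP_11349d_lc.V.Trb
import Pool.Agent.Lib.MP_11349d_lc.V.Trc
import Pool.Agent.Lib.MP_11349d_lc.V.Chc
import Pool.Agent.Lib.MP_11349d_lc.V.Sbt
import Pool.Agent.Lib.MP_11349d_lc.V.Adx
import Pool.Agent.Lib.MP_11349d_lc.V.Bgx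

/-! Part V: the theorem. -/

set_option autoImplicit false

namespace Pool.Agent.BPF

open Pool.Agent.Lib.BVM BSet

theorem isOmega1_all {B : Type} [CompleteBooleanAlgebra B] {Ω : Type} [LinearOrder Ω]
    [WellFoundedLT Ω] (hΩ : IsOm1 Ω)
    (reg : ∀ c : ℕ → Ω → B, (∀ n, Monotone (c n)) → ⨅ n, ⨆ ξ, c n ξ ≤ ⨆ ξ, ⨅ n, c n ξ)
    (U : Ult B) : IsOmega1 U.E (U.cls (chkAll B Ω)) :=
  ⟨isOrd_all U, not_cnt_all hΩ reg U, cnt_mem_all hΩ U⟩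

theorem bpfa_mod {Ω K B : Type} [LinearOrder Ω] [WellFoundedLT Ω] [CompleteBooleanAlgebra B]
    {T : LTree Ω} {V : K → Ω → ℕ → B} (hΩ : IsOm1 Ω) (h : Iface T V) (U : Ult B) :
    BPFA U.E := by
  intro q r o a h1 h2 h3 h4 h5
  obtain rfl := omega1_unique U.isZFC h4 (isOmega1_all hΩ h.reg U)
  obtain ⟨q, rfl⟩ := U.exists_cls q
  obtain ⟨r, rfl⟩ := U.exists_cls r
  obtain ⟨a, rfl⟩ := U.exists_cls a
  let v : ℕ → BSet B := scons q (scons r (scons (chkAll B Ω) (fun _ => a)))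
  have hb : U.S (bval (fHyp 0 1 2 3) v) := (U.los (fHyp 0 1 2 3) v).1 ⟨h1, h2, h3, h5⟩
  have hne : bval (fHyp 0 1 2 3) v ≠ ⊥ := by
    intro h'
    rw [h'] at hb
    exact U.bot' hb
  obtain ⟨g, hg⟩ := exists_filter hne h.bp (q := q) (r := r) (av := a) (Ω := Ω)
    (fun U' hU' => (U'.los (fHyp 0 1 2 3) v).2 hU')
  exact ⟨U.cls g, hg U hb⟩

theorem notSaturated_mod {Ω K B : Type} [LinearOrder Ω] [WellFoundedLT Ω]
    [CompleteBooleanAlgebra B] {T : LTree Ω} {V : K → Ω → ℕ → B} (hΩ : IsOm1 Ω)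
    (h : Iface T V) (U : Ult B) : NotSaturated U.E := by
  refine ⟨U.cls (chkAll B Ω), U.cls (chkAll B (Nd Ω)), U.cls (rT B T), U.cls (lT B Ω),
    U.cls (sT V), isOmega1_all hΩ h.reg U, ⟨⟨tr_irr T U, tr_trans T U, tr_fun U, tr_ht T U,
    tr_pred T U, tr_level U⟩, fun c hc h' => tr_chain T U c hc h'⟩, ?_, ?_, ?_⟩
  · have h1 : Df1 (fun (U : Ult B) m => IsSubtree U.E (U.cls (chkAll B (Nd Ω))) (U.cls (rT B T)) m) :=
      Df1.of_sat (fSubtree 1 2 0) (scons (chkAll B (Nd Ω)) (fun _ => rT B T))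
    exact fc_all_mem (p := ⊤) h1 (sT V) (fun x U _ _ =>
      isSubtree_uT hΩ h.reg T (V x) (h.tree x) (h.unb x) U) U U.top'
  · have h1 : ∀ x : K, Df1 (fun (U : Ult B) m => U.cls (uT (V x)) ≠ m → AD U.E (U.cls (uT (V x))) m) :=
      fun x => Df1.of_sat (.imp (.neg (.eq 1 0)) (fAD 1 0)) (fun _ => uT (V x))
    have h2 : Df1 (fun (U : Ult B) m => ∀ w, U.E w (U.cls (sT V)) → m ≠ w → AD U.E m w) :=
      Df1.of_sat (.all (.imp (.mem 0 2) (.imp (.neg (.eq 1 0)) (fAD 1 0)))) (fun _ => sT V)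
    intro u w hu hw
    refine fc_all_mem (p := ⊤) h2 (sT V) (fun x U _ _ => ?_) U U.top' u hu w hw
    refine fc_all_mem (p := ⊤) (h1 x) (sT V) (fun y U _ _ hxy => ?_) U U.top'
    refine ad_uT hΩ T (V x) (V y) (h.tree x) (h.tree y) (h.ad x y ?_) U
    rintro rfl
    exact hxy rfl
  · exact not_onto_sT V (fun x y hxy U => uT_ne (V x) (V y) (h.unb x) (h.ad x y hxy) U) h.big U

theorem partV {Ω K B : Type} [LinearOrder Ω] [WellFoundedLT Ω] [CompleteBooleanAlgebra B]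
    {T : LTree Ω} {U : K → Ω → ℕ → B} (hΩ : IsOm1 Ω) (h : Iface T U) :
    ∃ (M : Type 1) (E : M → M → Prop), IsZFC E ∧ BPFA E ∧ NotSaturated E := by
  obtain ⟨V, -⟩ := exists_ult (b := (⊤ : B)) (fun h' => h.nontriv h'.symm)
  exact ⟨V.Mod, V.E, V.isZFC, bpfa_mod hΩ h V, notSaturated_mod hΩ h V⟩

end Pool.Agent.BPF
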