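import Mathlib
import Pool.Agent.Lib.MP_11349d_lc.V.Tdf

/-!
# Module Bgx: the family of the subtrees is large (est. 60 lines)

Proof. Suppose `Onto o s` in `U.Mod` and let `p` be its value (`fOnto`, `U.los`; `p ≠ ⊥` since `U.S p`). `fc_ex` gives
a name `f` such that `p` forces `OntoB f (chkAll B Ω) (sT V)`. Let
`h ξ x = p ⊓ bMem (opair (chk B ξ) (uT (V x))) f`. For `x ≠ y`, `h ξ x ⊓ h ξ y = ⊥`: otherwise in some model
`cls (uT (V x)) = cls (uT (V y))` (first part of `OntoB`), against `hne`. So by `big` there is `x` with `h ξ x = ⊥`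
for all `ξ`. But `p` forces `uT (V x) ∈ sT V` (`val_le_bMem`), so there is `b ∈ o` with `Rel f b (uT (V x))`;
`fc_ex_mem` for the name `chkAll B Ω` gives `r ≤ p`, `r ≠ ⊥` and `ξ` with `r ≤ h ξ x`: contradiction.
-/

set_option autoImplicit false

namespace Pool.Agent.BPF

open Pool.Agent.Lib.BVM BSet

variable {B : Type} [CompleteBooleanAlgebra B] {Ω : Type} [LinearOrder Ω] [WellFoundedLT Ω]

theorem not_onto_sT {K : Type} (V : K → Ω → ℕ → B)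
    (hne : ∀ x y, x ≠ y → ∀ U : Ult B, U.cls (uT (V x)) ≠ U.cls (uT (V y)))
    (big : ∀ h : Ω → K → B, (∀ ξ x y, x ≠ y → h ξ x ⊓ h ξ y = ⊥) → ∃ x, ∀ ξ, h ξ x = ⊥)
    (U : Ult B) : ¬ Onto U.E (U.cls (chkAll B Ω)) (U.cls (sT V)) := by
  intro ho
  let v : ℕ → BSet B := scons (chkAll B Ω) (fun _ => sT V)
  have hUp : U.S (bval (fOnto 0 1) v) := (U.los (fOnto 0 1) v).1 ho
  obtain ⟨p, hp⟩ : ∃ p, p = bval (fOnto 0 1) v := ⟨_, rfl⟩
  rw [← hp] at hUp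
  have hp0 : p ≠ ⊥ := by
    rintro h
    rw [h] at hUp
    exact U.bot' hUp
  have h1 : Fc p (fun U => ∃ f, OntoB U.E f (U.cls (chkAll B Ω)) (U.cls (sT V))) := by
    rw [hp]
    exact fc_bval (fOnto 0 1) v
  have hdf : Df1 (B := B) (fun U f => OntoB U.E f (U.cls (chkAll B Ω)) (U.cls (sT V))) :=
    Df1.of_sat (fOntoB 0 1 2) v
  obtain ⟨f, hf⟩ := fc_ex hdf h1
  obtain ⟨x, hx⟩ := big (fun ξ x => p ⊓ bMem (opair (chk B ξ) (uT (V x))) f) (by
    intro ξ x y hxy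
    by_contra hc
    obtain ⟨U', hU'⟩ := exists_ult hc
    obtain ⟨ha, hb⟩ := U'.inf_iff.1 hU'
    obtain ⟨hpU, ha⟩ := U'.inf_iff.1 ha
    have hb := (U'.inf_iff.1 hb).2
    exact hne x y hxy U' ((hf U' hpU).1 _ (chk_mem_all U' ξ) _ _ ((rel_iff U' f _ _).2 ha)
      ((rel_iff U' f _ _).2 hb)))
  have hmem : ∀ U' : Ult B, U'.E (U'.cls (uT (V x))) (U'.cls (sT V)) := by
    intro U'
    rw [mem_iff]
    exact Ult.mono U' (val_le_bMem (sT V) x) (S_top U')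
  have h2 : Fc p (fun U => ∃ m, U.E m (U.cls (chkAll B Ω)) ∧
      Rel U.E (U.cls f) m (U.cls (uT (V x)))) := fun U' hU' => (hf U' hU').2 _ (hmem U')
  obtain ⟨r, hr, hr0, ξ, -, hξ⟩ := fc_ex_mem hp0 (Df1.rel_left f (uT (V x))) (chkAll B Ω) h2
  apply hr0
  rw [← le_bot_iff, ← hx ξ]
  refine le_inf hr (fc_iff.1 fun U' hU' => ?_)
  exact (rel_iff U' f (chk B (show Ω from ξ)) (uT (V x))).1 (hξ U' hU')

end Pool.Agent.BPF
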